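import Mathlib

set_option autoImplicit false
open MeasureTheory

namespace Pool.Agent.Helper418.FE

/-- The circle `ℝ/2πℤ`; the point `θ mod 2π` stands for `e^{iθ}`. -/
abbrev Circ : Type := AddCircle (2 * Real.pi)

instance factTwoPi : Fact (0 < 2 * Real.pi) := ⟨Real.two_pi_pos⟩

/-- The normalised measure `dθ/2π` on the circle (Haar probability measure). -/
noncomputable abbrev μ : Measure Circ := AddCircle.haarAddCircle

/-- The Fejér kernel `K_n(e^{iθ}) = ∑_{k=-n}^{n} (1 - |k|/(n+1)) e^{ikθ}`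
(`fourier k θ = e^{ikθ}` on `ℝ/2πℤ`). -/
noncomputable def fejer (n : ℕ) (x : Circ) : ℂ :=
  ∑ k ∈ Finset.Icc (-(n : ℤ)) (n : ℤ), ((1 - |(k : ℝ)| / ((n : ℝ) + 1) : ℝ) : ℂ) * fourier k x

/-- The Poisson kernel `P_r(e^{iθ}) = (1 - r²) / (1 + r² - 2 r cos θ)`;
here `cos θ = Re e^{iθ}`. -/
noncomputable def poisson (r : ℝ) (x : Circ) : ℂ :=
  (((1 - r ^ 2) / (1 + r ^ 2 - 2 * r * (fourier 1 x : ℂ).re) : ℝ) : ℂ)

/-- Convolution `(K * f)(x) = ∫ K(x - y) f(y) dy`, with the normalised measure. -/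
noncomputable def conv (K f : Circ → ℂ) (x : Circ) : ℂ := ∫ y, K (x - y) * f y ∂μ

/-- `N` is the norm on `L^p(𝕋)` (complex-valued functions, normalised measure) of the operator
`I - C_K : f ↦ f - K * f`, i.e. `N` is the least constant `c ≥ 0` with
`‖f - K * f‖_p ≤ c ‖f‖_p` for all `f ∈ L^p(𝕋)`. -/
def IsNormIdSubConv (K : Circ → ℂ) (p N : ℝ) : Prop :=
  IsLeast {c : ℝ | 0 ≤ c ∧ ∀ f : Circ → ℂ, MemLp f (ENNReal.ofReal p) μ →
    eLpNorm (fun x => f x - conv K f x) (ENNReal.ofReal p) μ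
      ≤ ENNReal.ofReal c * eLpNorm f (ENNReal.ofReal p) μ} N

/-- The closed form
`C_p = max_{0 ≤ α ≤ 1} (α^{p-1} + (1-α)^{p-1})^{1/p} (α^{1/(p-1)} + (1-α)^{1/(p-1)})^{1-1/p}`. -/
noncomputable def C (p : ℝ) : ℝ :=
  sSup ((fun α : ℝ => (α ^ (p - 1) + (1 - α) ^ (p - 1)) ^ (1 / p) *
    (α ^ (1 / (p - 1)) + (1 - α) ^ (1 / (p - 1))) ^ (1 - 1 / p)) '' Set.Icc 0 1)

end Pool.Agent.Helper418.FE
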