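import Mathlib
import Pool.Agent.Helper418.FEDefs

set_option autoImplicit false
open MeasureTheory

namespace Pool.Agent.Helper418.FE

noncomputable def φ (p α : ℝ) : ℝ := (α ^ (p - 1) + (1 - α) ^ (p - 1)) ^ (1 / p) *
    (α ^ (1 / (p - 1)) + (1 - α) ^ (1 / (p - 1))) ^ (1 - 1 / p)

lemma φ_nonneg {p α : ℝ} (h0 : 0 ≤ α) (h1 : α ≤ 1) : 0 ≤ φ p α := by
  unfold φ
  have := Real.rpow_nonneg h0 (p-1)
  have := Real.rpow_nonneg (sub_nonneg.mpr h1) (p-1)
  have := Real.rpow_nonneg h0 (1/(p-1))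
  have := Real.rpow_nonneg (sub_nonneg.mpr h1) (1/(p-1))
  positivity

lemma φ_bdd {p : ℝ} (hp : 1 < p) : BddAbove (φ p '' Set.Icc 0 1) := by
  refine ⟨2 ^ (1/p) * 2 ^ (1 - 1/p), ?_⟩
  rintro _ ⟨α, ⟨h0, h1⟩, rfl⟩
  have hp1 : 0 < p - 1 := by linarith
  have h2 : 0 ≤ 1 - α := by linarith
  have a1 : α ^ (p-1) ≤ 1 := Real.rpow_le_one h0 h1 hp1.le
  have a2 : (1-α) ^ (p-1) ≤ 1 := Real.rpow_le_one h2 (by linarith) hp1.le
  have a3 : α ^ (1/(p-1)) ≤ 1 := Real.rpow_le_one h0 h1 (by positivity)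
  have a4 : (1-α) ^ (1/(p-1)) ≤ 1 := Real.rpow_le_one h2 (by linarith) (by positivity)
  have b1 := Real.rpow_nonneg h0 (p-1)
  have b2 := Real.rpow_nonneg h2 (p-1)
  have b3 := Real.rpow_nonneg h0 (1/(p-1))
  have b4 := Real.rpow_nonneg h2 (1/(p-1))
  have hq : 0 ≤ 1 - 1/p := by
    rw [sub_nonneg, div_le_one (by linarith)]; linarith
  unfold φ
  refine mul_le_mul ?_ ?_ (by positivity) (by positivity)
  · exact Real.rpow_le_rpow (by positivity) (by linarith) (by positivity)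
  · exact Real.rpow_le_rpow (by positivity) (by linarith) hq

lemma le_C {p α : ℝ} (hp : 1 < p) (h0 : 0 ≤ α) (h1 : α ≤ 1) : φ p α ≤ C p :=
  le_csSup (φ_bdd hp) ⟨α, ⟨h0, h1⟩, rfl⟩

lemma one_le_C {p : ℝ} (hp : 1 < p) : 1 ≤ C p := by
  have h := le_C hp (le_refl (0:ℝ)) zero_le_one
  have : φ p 0 = 1 := by
    unfold φ
    rw [Real.zero_rpow (by linarith), Real.zero_rpow (by
      have : 0 < 1/(p-1) := by
        apply div_pos one_pos; linarith
      exact this.ne')]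
    simp
  linarith

lemma φ_pow {p α : ℝ} (hp : 1 < p) (h0 : 0 ≤ α) (h1 : α ≤ 1) :
    φ p α ^ p = (α ^ (p - 1) + (1 - α) ^ (p - 1)) * (α ^ (1 / (p - 1)) + (1 - α) ^ (1 / (p - 1))) ^ (p - 1) := by
  have h2 : 0 ≤ 1 - α := by linarith
  have b1 := Real.rpow_nonneg h0 (p-1)
  have b2 := Real.rpow_nonneg h2 (p-1)
  have b3 := Real.rpow_nonneg h0 (1/(p-1))
  have b4 := Real.rpow_nonneg h2 (1/(p-1))
  unfold φ
  rw [Real.mul_rpow (by positivity) (by positivity), ← Real.rpow_mul (by positivity),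
    ← Real.rpow_mul (by positivity)]
  have e1 : 1 / p * p = 1 := by field_simp
  have e2 : (1 - 1/p) * p = p - 1 := by field_simp
  rw [e1, e2, Real.rpow_one]

lemma jensen2 (w₁ w₂ z₁ z₂ : ℝ) (hw₁ : 0 ≤ w₁) (hw₂ : 0 ≤ w₂) (hz₁ : 0 ≤ z₁) (hz₂ : 0 ≤ z₂)
    (hw : w₁ + w₂ = 1) {p : ℝ} (hp : 1 ≤ p) :
    (w₁ * z₁ + w₂ * z₂) ^ p ≤ w₁ * z₁ ^ p + w₂ * z₂ ^ p := by
  have h := Real.rpow_arith_mean_le_arith_mean_rpow (Finset.univ : Finset (Fin 2)) ![w₁, w₂] ![z₁, z₂]
    (by intro i _; fin_cases i <;> simpa) (by simpa [Fin.sum_univ_succ] using hw)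
    (by intro i _; fin_cases i <;> simpa) hp
  simpa [Fin.sum_univ_succ] using h

/-- Hölder step -/
lemma holder_two {p s t u v : ℝ} (hp : 1 < p) (hs : 0 < s) (ht : 0 < t) (hu : 0 ≤ u) (hv : 0 ≤ v) :
    s ^ (p-1) * t ^ (p-1) * (u + v) ^ p ≤ (s + t) ^ (p-1) * (s ^ (p-1) * u ^ p + t ^ (p-1) * v ^ p) := by
  have hst : 0 < s + t := by positivity
  have h := jensen2 (t/(s+t)) (s/(s+t)) (u/t) (v/s) (by positivity)
    (by positivity) (by positivity) (by positivity) (by field_simp; ring) hp.le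
  have e1 : t/(s+t) * (u/t) + s/(s+t) * (v/s) = (u + v)/(s+t) := by field_simp
  rw [e1, Real.div_rpow (by positivity) hst.le, Real.div_rpow hu ht.le, Real.div_rpow hv hs.le,
    div_le_iff₀ (by positivity)] at h
  have f1 : (s+t) ^ p = (s+t) ^ (p-1) * (s+t) := by
    rw [← Real.rpow_add_one hst.ne']; ring_nf
  have f2 : t ^ p = t ^ (p-1) * t := by
    rw [← Real.rpow_add_one ht.ne']; ring_nf
  have f3 : s ^ p = s ^ (p-1) * s := by
    rw [← Real.rpow_add_one hs.ne']; ring_nf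
  have hsp : 0 < s ^ (p-1) := by positivity
  have htp : 0 < t ^ (p-1) := by positivity
  rw [f1, f2, f3] at h
  have e2 : (t/(s+t) * (u ^ p / (t ^ (p-1) * t)) + s/(s+t) * (v ^ p / (s ^ (p-1) * s))) * ((s+t) ^ (p-1) * (s+t)) =
      (s+t) ^ (p-1) * (u ^ p / t ^ (p-1) + v ^ p / s ^ (p-1)) := by
    field_simp
  rw [e2] at h
  calc s ^ (p-1) * t ^ (p-1) * (u + v) ^ p
      ≤ s ^ (p-1) * t ^ (p-1) * ((s+t) ^ (p-1) * (u ^ p / t ^ (p-1) + v ^ p / s ^ (p-1))) :=
        mul_le_mul_of_nonneg_left h (by positivity)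
    _ = (s + t) ^ (p-1) * (s ^ (p-1) * u ^ p + t ^ (p-1) * v ^ p) := by
        field_simp

lemma two_point {p α a b : ℝ} (hp : 1 < p) (h0 : 0 < α) (h1 : α < 1) :
    α * |(1-α) * (a - b)| ^ p + (1-α) * |α * (a - b)| ^ p ≤ C p ^ p * (α * |a| ^ p + (1-α) * |b| ^ p) := by
  have hβ : 0 < 1 - α := by linarith
  have hp1 : 0 < p - 1 := by linarith
  have hC : φ p α ^ p ≤ C p ^ p := Real.rpow_le_rpow (φ_nonneg h0.le h1.le) (le_C hp h0.le h1.le) (by linarith)
  have hR : 0 ≤ α * |a| ^ p + (1-α) * |b| ^ p := by positivity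
  refine le_trans ?_ (mul_le_mul_of_nonneg_right hC hR)
  rw [φ_pow hp h0.le h1.le]
  set s := α ^ (1/(p-1)) with hs
  set t := (1-α) ^ (1/(p-1)) with ht
  have hs0 : 0 < s := by positivity
  have ht0 : 0 < t := by positivity
  have hsα : s ^ (p-1) = α := by
    rw [hs, ← Real.rpow_mul h0.le]
    have : 1/(p-1) * (p-1) = 1 := by field_simp
    rw [this, Real.rpow_one]
  have htβ : t ^ (p-1) = 1 - α := by
    rw [ht, ← Real.rpow_mul hβ.le]
    have : 1/(p-1) * (p-1) = 1 := by field_simp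
    rw [this, Real.rpow_one]
  have h := holder_two hp hs0 ht0 (abs_nonneg a) (abs_nonneg b)
  rw [hsα, htβ] at h
  have habs : |a - b| ^ p ≤ (|a| + |b|) ^ p := Real.rpow_le_rpow (abs_nonneg _) (abs_sub a b) (by linarith)
  rw [abs_mul, abs_mul, abs_of_pos hβ, abs_of_pos h0, Real.mul_rpow hβ.le (abs_nonneg _),
    Real.mul_rpow h0.le (abs_nonneg _)]
  have f1 : α ^ p = α ^ (p-1) * α := by
    rw [← Real.rpow_add_one h0.ne']; ring_nf
  have f2 : (1-α) ^ p = (1-α) ^ (p-1) * (1-α) := by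
    rw [← Real.rpow_add_one hβ.ne']; ring_nf
  rw [f1, f2]
  have hA : 0 ≤ α ^ (p-1) + (1-α) ^ (p-1) := by positivity
  calc α * ((1-α) ^ (p-1) * (1-α) * |a - b| ^ p) + (1-α) * (α ^ (p-1) * α * |a - b| ^ p)
      = (α ^ (p-1) + (1-α) ^ (p-1)) * (α * (1-α) * |a - b| ^ p) := by ring
    _ ≤ (α ^ (p-1) + (1-α) ^ (p-1)) * ((s + t) ^ (p-1) * (α * |a| ^ p + (1-α) * |b| ^ p)) := by
        refine mul_le_mul_of_nonneg_left ?_ hA
        refine le_trans ?_ h
        exact mul_le_mul_of_nonneg_left habs (by positivity)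
    _ = _ := by ring

/-- the line inequality -/
lemma line {p : ℝ} (hp : 1 < p) (m : ℝ) :
    ∃ s : ℝ, ∀ x : ℝ, |x - m| ^ p ≤ C p ^ p * |x| ^ p + s * (x - m) := by
  set D := C p ^ p with hD
  set h : ℝ → ℝ := fun x => |x - m| ^ p - D * |x| ^ p with hh
  have hD0 : 0 ≤ D := Real.rpow_nonneg (by linarith [one_le_C hp]) _
  have key : ∀ x y : ℝ, y < m → m < x → h x / (x - m) ≤ h y / (y - m) := by
    intro x y hy hx
    have hxy : 0 < x - y := by linarith
    have ht := two_point (a := x) (b := y) (α := (m - y)/(x - y)) hp (div_pos (by linarith) hxy)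
      (by rw [div_lt_one hxy]; linarith)
    have e0 : 1 - (m - y)/(x - y) = (x - m)/(x - y) := by field_simp; ring
    have e1 : (x - m)/(x - y) * (x - y) = x - m := by field_simp
    have e2 : (m - y)/(x - y) * (x - y) = m - y := by field_simp
    rw [e0, e1, e2] at ht
    have h3 : |m - y| = |y - m| := abs_sub_comm _ _
    rw [h3] at ht
    have h4 : (m - y) * h x + (x - m) * h y ≤ 0 := by
      have h5 : (m - y)/(x - y) * |x - m| ^ p + (x - m)/(x - y) * |y - m| ^ p -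
        D * ((m - y)/(x - y) * |x| ^ p + (x - m)/(x - y) * |y| ^ p) = ((m - y) * h x + (x - m) * h y)/(x - y) := by
        simp only [hh]; field_simp; ring
      have h6 : ((m - y) * h x + (x - m) * h y)/(x - y) ≤ 0 := by linarith
      by_contra hc
      push Not at hc
      have := div_pos hc hxy
      linarith
    have hmy : 0 < m - y := by linarith
    have hxm : 0 < x - m := by linarith
    have e3 : h y / (y - m) = - h y / (m - y) := by
      rw [← neg_sub m y, div_neg, neg_div]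
    rw [e3, div_le_div_iff₀ hxm hmy]
    linarith
  set S := (fun x => h x / (x - m)) '' Set.Ioi m with hS
  have hSne : S.Nonempty := ⟨_, ⟨m + 1, by simp, rfl⟩⟩
  have hSb : BddAbove S := ⟨h (m-1) / (m - 1 - m), by
    rintro _ ⟨x, hx, rfl⟩
    exact key x (m-1) (by linarith) hx⟩
  refine ⟨sSup S, fun x => ?_⟩
  rcases lt_trichotomy x m with hx | hx | hx
  · have h1 : sSup S ≤ h x / (x - m) := by
      refine csSup_le hSne ?_
      rintro _ ⟨y, hy, rfl⟩
      exact key y x hx hy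
    have h2 : h x ≤ sSup S * (x - m) := by
      have hneg : x - m < 0 := by linarith
      have := mul_le_mul_of_nonpos_right h1 hneg.le
      rw [div_mul_cancel₀ _ hneg.ne] at this
      exact this
    simp only [hh] at h2
    linarith
  · subst hx
    simp only [sub_self, abs_zero, mul_zero, add_zero]
    rw [Real.zero_rpow (by linarith)]
    positivity
  · have h1 : h x / (x - m) ≤ sSup S := le_csSup hSb ⟨x, hx, rfl⟩
    have hpos : 0 < x - m := by linarith
    rw [div_le_iff₀ hpos] at h1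
    simp only [hh] at h1
    linarith

end Pool.Agent.Helper418.FE
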