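import Mathlib
import Pool.Agent.Helper418.FE1

set_option autoImplicit false
open MeasureTheory
open scoped ComplexConjugate

namespace Pool.Agent.Helper418.FE

/-- `z j x = e^{ijx}` -/
noncomputable def e (k : ℤ) (x : Circ) : ℂ := fourier k x

lemma e_continuous (k : ℤ) : Continuous (e k) := (fourier k).continuous
lemma e_zero (x : Circ) : e 0 x = 1 := fourier_zero
lemma e_add (j k : ℤ) (x : Circ) : e (j + k) x = e j x * e k x := fourier_add
lemma e_neg (k : ℤ) (x : Circ) : e (-k) x = conj (e k x) := fourier_neg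
lemma norm_e (k : ℤ) (x : Circ) : ‖e k x‖ = 1 := by
  unfold e
  rw [fourier_apply, Circle.norm_coe]
lemma e_arg_add (k : ℤ) (x y : Circ) : e k (x + y) = e k x * e k y := by
  unfold e
  rw [fourier_apply, fourier_apply, fourier_apply, zsmul_add, AddCircle.toCircle_add, Circle.coe_mul]
lemma e_arg_neg (k : ℤ) (x : Circ) : e k (-x) = e (-k) x := by
  unfold e
  rw [fourier_apply, fourier_apply, zsmul_neg, neg_zsmul]
lemma e_arg_sub (k : ℤ) (x y : Circ) : e k (x - y) = e k x * conj (e k y) := by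
  rw [sub_eq_add_neg, e_arg_add, e_arg_neg, e_neg]

lemma e_sub (j k : ℤ) (x : Circ) : e (j - k) x = e j x * conj (e k x) := by
  rw [sub_eq_add_neg, e_add, e_neg]

lemma integral_e (k : ℤ) : ∫ x, e k x ∂μ = if k = 0 then 1 else 0 := by
  split_ifs with h
  · subst h
    simp [e_zero]
  · exact integral_eq_zero_of_add_right_eq_neg (μ := μ) (fourier_add_half_inv_index h Real.two_pi_pos)

/-- sum over a symmetric interval -/
lemma sum_Icc_split (N : ℕ) (G : ℤ → ℂ) :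
    ∑ m ∈ Finset.Icc (-((N+1:ℕ):ℤ)) ((N+1:ℕ):ℤ), G m =
      G (-((N+1:ℕ):ℤ)) + G ((N+1:ℕ):ℤ) + ∑ m ∈ Finset.Icc (-(N:ℤ)) (N:ℤ), G m := by
  have h : Finset.Icc (-((N+1:ℕ):ℤ)) ((N+1:ℕ):ℤ) =
      insert (-((N+1:ℕ):ℤ)) (insert ((N+1:ℕ):ℤ) (Finset.Icc (-(N:ℤ)) (N:ℤ))) := by
    ext m
    simp only [Finset.mem_Icc, Finset.mem_insert]
    push_cast
    omega
  rw [h, Finset.sum_insert, Finset.sum_insert]
  · ring
  · simp only [Finset.mem_Icc]; push_cast; omega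
  · simp only [Finset.mem_insert, Finset.mem_Icc]; push_cast; omega

lemma sum_Icc_eq (N : ℕ) (G : ℤ → ℂ) :
    ∑ m ∈ Finset.Icc (-(N:ℤ)) (N:ℤ), G m =
      (∑ j ∈ Finset.range N, G ((j:ℤ) - N)) + (∑ k ∈ Finset.range N, G ((N:ℤ) - k)) + G 0 := by
  have h1 : ∀ N : ℕ, ∑ j ∈ Finset.range N, G ((j:ℤ) - N) = ∑ j ∈ Finset.range N, G (-((j:ℤ)+1)) := by
    intro N
    rw [← Finset.sum_range_reflect (fun j : ℕ => G (-((j:ℤ)+1)))]
    refine Finset.sum_congr rfl fun j hj => ?_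
    rw [Finset.mem_range] at hj
    congr 1
    omega
  have h2 : ∀ N : ℕ, ∑ k ∈ Finset.range N, G ((N:ℤ) - k) = ∑ j ∈ Finset.range N, G ((j:ℤ)+1) := by
    intro N
    rw [← Finset.sum_range_reflect (fun j : ℕ => G ((j:ℤ)+1))]
    refine Finset.sum_congr rfl fun j hj => ?_
    rw [Finset.mem_range] at hj
    congr 1
    omega
  rw [h1, h2]
  induction N with
  | zero => simp
  | succ N ih =>
    rw [sum_Icc_split, ih, Finset.sum_range_succ, Finset.sum_range_succ]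
    push_cast
    ring

lemma sum_pairs (n : ℕ) (G : ℤ → ℂ) :
    ∑ j ∈ Finset.range (n+1), ∑ k ∈ Finset.range (n+1), G ((j:ℤ) - k) =
      ∑ m ∈ Finset.Icc (-(n:ℤ)) (n:ℤ), (((n:ℝ) + 1 - |(m:ℝ)| : ℝ) : ℂ) * G m := by
  induction n with
  | zero => simp
  | succ n ih =>
    rw [Finset.sum_range_succ]
    have h1 : ∑ j ∈ Finset.range (n+1), ∑ k ∈ Finset.range (n+1+1), G ((j:ℤ) - k) =
        (∑ j ∈ Finset.range (n+1), ∑ k ∈ Finset.range (n+1), G ((j:ℤ) - k)) +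
          ∑ j ∈ Finset.range (n+1), G ((j:ℤ) - ((n+1:ℕ):ℤ)) := by
      rw [← Finset.sum_add_distrib]
      refine Finset.sum_congr rfl fun j _ => ?_
      rw [Finset.sum_range_succ]
    have h0 : ∑ k ∈ Finset.range (n+1+1), G (((n+1:ℕ):ℤ) - k) = (∑ k ∈ Finset.range (n+1), G (((n+1:ℕ):ℤ) - k)) + G 0 := by
      rw [Finset.sum_range_succ, sub_self]
    rw [h1, ih, h0]
    have h2 := sum_Icc_eq (n+1) G
    have h3 : ∑ m ∈ Finset.Icc (-((n+1:ℕ):ℤ)) ((n+1:ℕ):ℤ), ((((n+1:ℕ):ℝ) + 1 - |(m:ℝ)| : ℝ) : ℂ) * G m =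
        (∑ m ∈ Finset.Icc (-((n+1:ℕ):ℤ)) ((n+1:ℕ):ℤ), (((n:ℝ) + 1 - |(m:ℝ)| : ℝ) : ℂ) * G m) +
        ∑ m ∈ Finset.Icc (-((n+1:ℕ):ℤ)) ((n+1:ℕ):ℤ), G m := by
      rw [← Finset.sum_add_distrib]
      refine Finset.sum_congr rfl fun m _ => ?_
      push_cast; ring
    have h4 := sum_Icc_split n (fun m => (((n:ℝ) + 1 - |(m:ℝ)| : ℝ) : ℂ) * G m)
    have h5 : (((n:ℝ) + 1 - |((-((n+1:ℕ):ℤ) : ℤ) : ℝ)| : ℝ) : ℂ) = 0 := by
      have : |((-((n+1:ℕ):ℤ) : ℤ) : ℝ)| = (n:ℝ) + 1 := by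
        push_cast
        rw [abs_of_nonpos (by linarith [Nat.cast_nonneg (α := ℝ) n])]
        ring
      rw [this]; simp
    have h6 : (((n:ℝ) + 1 - |((((n+1:ℕ):ℤ) : ℤ) : ℝ)| : ℝ) : ℂ) = 0 := by
      have : |((((n+1:ℕ):ℤ) : ℤ) : ℝ)| = (n:ℝ) + 1 := by
        push_cast
        rw [abs_of_nonneg (by positivity)]
      rw [this]; simp
    rw [h3, h4, h5, h6, h2]
    ring

/-- the real Fejér kernel -/
noncomputable def kR (n : ℕ) (x : Circ) : ℝ := ‖∑ j ∈ Finset.range (n+1), e (j:ℤ) x‖ ^ 2 / ((n:ℝ) + 1)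

lemma kR_nonneg (n : ℕ) (x : Circ) : 0 ≤ kR n x := by
  unfold kR; positivity

lemma kR_continuous (n : ℕ) : Continuous (kR n) := by
  unfold kR
  have : ∀ j : ℤ, Continuous (e j) := e_continuous
  fun_prop

lemma normSq_sum (n : ℕ) (x : Circ) :
    ((‖∑ j ∈ Finset.range (n+1), e (j:ℤ) x‖ ^ 2 : ℝ) : ℂ) =
      ∑ j ∈ Finset.range (n+1), ∑ k ∈ Finset.range (n+1), e ((j:ℤ) - k) x := by
  rw [← Complex.normSq_eq_norm_sq, ← Complex.mul_conj, map_sum, Finset.sum_mul_sum]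
  refine Finset.sum_congr rfl fun j _ => Finset.sum_congr rfl fun k _ => ?_
  rw [e_sub]

lemma fejer_eq (n : ℕ) (x : Circ) : fejer n x = ((kR n x : ℝ) : ℂ) := by
  unfold kR
  rw [Complex.ofReal_div, normSq_sum, sum_pairs n (fun m => e m x)]
  unfold fejer
  rw [Finset.sum_div]
  refine Finset.sum_congr rfl fun k _ => ?_
  have h : ((n:ℂ) + 1) ≠ 0 := by exact_mod_cast Nat.succ_ne_zero n
  have h' : (((n:ℝ) + 1 : ℝ) : ℂ) = (n:ℂ) + 1 := by push_cast; rfl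
  rw [h']
  unfold e
  push_cast
  field_simp

lemma kR_neg (n : ℕ) (x : Circ) : kR n (-x) = kR n x := by
  unfold kR
  congr 2
  have : ∑ j ∈ Finset.range (n+1), e (j:ℤ) (-x) = conj (∑ j ∈ Finset.range (n+1), e (j:ℤ) x) := by
    rw [map_sum]
    refine Finset.sum_congr rfl fun j _ => ?_
    rw [e_arg_neg, e_neg]
  rw [this, Complex.norm_conj]

lemma kR_integral (n : ℕ) : ∫ x, kR n x ∂μ = 1 := by
  have h1 : ((∫ x, kR n x ∂μ : ℝ) : ℂ) = ∫ x, fejer n x ∂μ := by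
    rw [← integral_complex_ofReal]
    congr 1
    funext x
    rw [fejer_eq]
  have h2 : ∫ x, fejer n x ∂μ = 1 := by
    unfold fejer
    rw [integral_finsetSum]
    · have : ∀ k ∈ Finset.Icc (-(n:ℤ)) (n:ℤ), ∫ x, ((1 - |(k : ℝ)| / ((n : ℝ) + 1) : ℝ) : ℂ) * fourier k x ∂μ =
          if k = 0 then 1 else 0 := by
        intro k _
        rw [integral_const_mul]
        have := integral_e k
        unfold e at this
        rw [this]
        split_ifs with h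
        · subst h; simp
        · simp
      rw [Finset.sum_congr rfl this]
      simp
    · intro k _
      exact (Continuous.integrable_of_hasCompactSupport (by fun_prop) (HasCompactSupport.of_compactSpace _))
  rw [h2] at h1
  exact_mod_cast h1

end Pool.Agent.Helper418.FE
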