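import Mathlib
import Pool.Agent.Helper418.FE2

set_option autoImplicit false
open MeasureTheory
open scoped ComplexConjugate

namespace Pool.Agent.Helper418.FE

lemma exists_spectral {m : Type} [Fintype m] [DecidableEq m] (A : Matrix m m ℂ) (hA : A.IsHermitian) :
    ∃ (lam : m → ℝ) (U : m → m → ℂ),
      (∀ j k, ∑ i, conj (U j i) * U k i = if j = k then 1 else 0) ∧
      (∀ i, ∑ j, conj (U j i) * U j i = 1) ∧
      (∀ j k, A j k = ∑ i, (lam i : ℂ) * (U j i * conj (U k i))) ∧
      (∀ i, ∑ j, ∑ k, conj (U j i) * A j k * U k i = lam i) := by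
  set W : Matrix m m ℂ := (hA.eigenvectorUnitary : Matrix m m ℂ) with hW
  have h1 : W * star W = 1 := Unitary.coe_mul_star_self _
  have h2 : star W * W = 1 := Unitary.coe_star_mul_self _
  have h3 : A = W * Matrix.diagonal (fun i => (hA.eigenvalues i : ℂ)) * star W := by
    have := hA.spectral_theorem
    rw [Unitary.conjStarAlgAut_apply] at this
    exact this
  refine ⟨hA.eigenvalues, fun j i => W j i, ?_, ?_, ?_, ?_⟩
  · intro j k
    have := congrFun (congrFun h1 k) j
    rw [Matrix.mul_apply, Matrix.one_apply] at this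
    rw [show (if j = k then (1:ℂ) else 0) = if k = j then 1 else 0 by simp [eq_comm], ← this]
    refine Finset.sum_congr rfl fun i _ => ?_
    rw [Matrix.star_apply, mul_comm]
    rfl
  · intro i
    have := congrFun (congrFun h2 i) i
    rw [Matrix.mul_apply, Matrix.one_apply, if_pos rfl] at this
    rw [← this]
    refine Finset.sum_congr rfl fun j _ => ?_
    rw [Matrix.star_apply]
    rfl
  · intro j k
    conv_lhs => rw [h3]
    rw [Matrix.mul_apply]
    refine Finset.sum_congr rfl fun i _ => ?_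
    rw [Matrix.mul_diagonal, Matrix.star_apply]
    have : star (W k i) = conj (W k i) := rfl
    rw [this]
    ring
  · intro i
    have h4 : star W * A * W = Matrix.diagonal (fun i => (hA.eigenvalues i : ℂ)) := by
      conv_lhs => rw [h3]
      calc star W * (W * Matrix.diagonal (fun i => (hA.eigenvalues i : ℂ)) * star W) * W
          = (star W * W) * Matrix.diagonal (fun i => (hA.eigenvalues i : ℂ)) * (star W * W) := by
            simp only [Matrix.mul_assoc]
        _ = _ := by rw [h2]; simp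
    have h5 := congrFun (congrFun h4 i) i
    rw [Matrix.diagonal_apply_eq, Matrix.mul_apply] at h5
    rw [← h5, Finset.sum_comm]
    refine Finset.sum_congr rfl fun k _ => ?_
    rw [Matrix.mul_apply, Finset.sum_mul]
    refine Finset.sum_congr rfl fun j _ => ?_
    rw [Matrix.star_apply]
    rfl

lemma normSq_expand {m : Type} [Fintype m] (u v : m → ℂ) :
    ((‖∑ j, conj (u j) * v j‖ ^ 2 : ℝ) : ℂ) = ∑ j, ∑ k, (conj (u j) * u k) * (v j * conj (v k)) := by
  rw [← Complex.normSq_eq_norm_sq, ← Complex.mul_conj, map_sum, Finset.sum_mul_sum]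
  refine Finset.sum_congr rfl fun j _ => Finset.sum_congr rfl fun k _ => ?_
  rw [map_mul, Complex.conj_conj]
  ring

/-- the decomposition of a real function attached to the Toeplitz matrix -/
lemma exists_weights (n : ℕ) (f : Circ → ℝ) (hf : Integrable f μ) :
    ∃ (lam : Fin (n+1) → ℝ) (w : Fin (n+1) → Circ → ℝ),
      (∀ i, Continuous (w i)) ∧ (∀ i x, 0 ≤ w i x) ∧ (∀ x, ∑ i, w i x = 1) ∧
      (∀ x, ∑ i, lam i * w i x = ∫ y, kR n (x - y) * f y ∂μ) ∧
      (∀ i, ∫ x, w i x * (f x - lam i) ∂μ = 0) := by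
  have hn : (0:ℝ) < (n:ℝ) + 1 := by positivity
  have hnc : ((n:ℂ) + 1) ≠ 0 := by exact_mod_cast Nat.succ_ne_zero n
  have hfc : Integrable (fun y => (f y : ℂ)) μ := hf.ofReal
  set A : Matrix (Fin (n+1)) (Fin (n+1)) ℂ := fun j k =>
    ∫ y, (f y : ℂ) * (e (j:ℕ) y * conj (e (k:ℕ) y)) ∂μ with hA
  have hint : ∀ (j k : ℤ), Integrable (fun y => (f y : ℂ) * (e j y * conj (e k y))) μ := by
    intro j k
    have : Integrable (fun y => (e j y * conj (e k y)) * (f y : ℂ)) μ := by
      refine hfc.bdd_mul (c := 1) ?_ ?_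
      · have h1 := e_continuous j
        have h2 := e_continuous k
        exact (h1.mul (Complex.continuous_conj.comp h2)).aestronglyMeasurable
      · refine Filter.Eventually.of_forall fun y => ?_
        rw [norm_mul, Complex.norm_conj, norm_e, norm_e, one_mul]
    refine this.congr (Filter.Eventually.of_forall fun y => ?_)
    simp only
    ring
  have hherm : A.IsHermitian := by
    ext j k
    rw [Matrix.conjTranspose_apply]
    simp only [hA]
    change conj (∫ y, (f y : ℂ) * (e (k:ℕ) y * conj (e (j:ℕ) y)) ∂μ) = _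
    rw [← integral_conj]
    congr 1
    funext y
    rw [map_mul, map_mul, Complex.conj_ofReal, Complex.conj_conj]
    ring
  obtain ⟨lam, U, hU1, hU2, hU3, hU4⟩ := exists_spectral A hherm
  set q : Fin (n+1) → Circ → ℂ := fun i x => ∑ j, conj (U j i) * e (j:ℕ) x with hq
  have hqc : ∀ i, Continuous (q i) := by
    intro i
    have : ∀ j : ℤ, Continuous (e j) := e_continuous
    simp only [hq]
    fun_prop
  set w : Fin (n+1) → Circ → ℝ := fun i x => ‖q i x‖ ^ 2 / ((n:ℝ) + 1) with hw
  have hwc : ∀ i, Continuous (w i) := by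
    intro i
    have := hqc i
    simp only [hw]
    fun_prop
  have hsq : ∀ i x, ((‖q i x‖ ^ 2 : ℝ) : ℂ) = ∑ j : Fin (n+1), ∑ k : Fin (n+1),
      (conj (U j i) * U k i) * (e (j:ℕ) x * conj (e (k:ℕ) x)) := by
    intro i x
    exact normSq_expand (fun j => U j i) (fun j => e (j:ℕ) x)
  have hsum1 : ∀ x, ∑ i, ‖q i x‖ ^ 2 = (n:ℝ) + 1 := by
    intro x
    have : ((∑ i, ‖q i x‖ ^ 2 : ℝ) : ℂ) = (n:ℂ) + 1 := by
      rw [Complex.ofReal_sum]
      simp_rw [hsq]
      rw [Finset.sum_comm]
      have h1 : ∀ j : Fin (n+1), ∑ i, ∑ k : Fin (n+1), (conj (U j i) * U k i) * (e (j:ℕ) x * conj (e (k:ℕ) x)) = 1 := by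
        intro j
        rw [Finset.sum_comm]
        have h2 : ∀ k : Fin (n+1), ∑ i, (conj (U j i) * U k i) * (e (j:ℕ) x * conj (e (k:ℕ) x)) =
            if j = k then (e (j:ℕ) x * conj (e (k:ℕ) x)) else 0 := by
          intro k
          rw [← Finset.sum_mul, hU1]
          split_ifs <;> simp
        simp_rw [h2]
        rw [Finset.sum_ite_eq]
        simp only [Finset.mem_univ, if_true]
        rw [Complex.mul_conj, Complex.normSq_eq_norm_sq, norm_e]
        simp
      simp_rw [h1]
      simp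
    exact_mod_cast this
  refine ⟨lam, w, hwc, ?_, ?_, ?_, ?_⟩
  · intro i x
    simp only [hw]; positivity
  · intro x
    simp only [hw]
    rw [← Finset.sum_div, hsum1]
    field_simp
  · intro x
    have h1 : ((∑ i, lam i * ‖q i x‖ ^ 2 : ℝ) : ℂ) = ∫ y, ((((n:ℝ) + 1) * kR n (x - y) * f y : ℝ) : ℂ) ∂μ := by
      rw [Complex.ofReal_sum]
      have h2 : ∀ i, ((lam i * ‖q i x‖ ^ 2 : ℝ) : ℂ) = ∑ j : Fin (n+1), ∑ k : Fin (n+1),
          ((lam i : ℂ) * (U k i * conj (U j i))) * (e (j:ℕ) x * conj (e (k:ℕ) x)) := by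
        intro i
        rw [Complex.ofReal_mul, hsq, Finset.mul_sum]
        refine Finset.sum_congr rfl fun j _ => ?_
        rw [Finset.mul_sum]
        refine Finset.sum_congr rfl fun k _ => ?_
        ring
      simp_rw [h2]
      rw [Finset.sum_comm]
      have h3 : ∀ j : Fin (n+1), ∑ i, ∑ k : Fin (n+1), ((lam i : ℂ) * (U k i * conj (U j i))) * (e (j:ℕ) x * conj (e (k:ℕ) x)) =
          ∑ k : Fin (n+1), A k j * (e (j:ℕ) x * conj (e (k:ℕ) x)) := by
        intro j
        rw [Finset.sum_comm]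
        refine Finset.sum_congr rfl fun k _ => ?_
        rw [← Finset.sum_mul, hU3]
      simp_rw [h3]
      have h4 : ∀ j k : Fin (n+1), A k j * (e (j:ℕ) x * conj (e (k:ℕ) x)) =
          ∫ y, (f y : ℂ) * (e (k:ℕ) y * conj (e (j:ℕ) y)) * (e (j:ℕ) x * conj (e (k:ℕ) x)) ∂μ := by
        intro j k
        rw [integral_mul_const]
      simp_rw [h4]
      have h5 : ∀ j : Fin (n+1), ∑ k : Fin (n+1), ∫ y, (f y : ℂ) * (e (k:ℕ) y * conj (e (j:ℕ) y)) * (e (j:ℕ) x * conj (e (k:ℕ) x)) ∂μ
          = ∫ y, ∑ k : Fin (n+1), (f y : ℂ) * (e (k:ℕ) y * conj (e (j:ℕ) y)) * (e (j:ℕ) x * conj (e (k:ℕ) x)) ∂μ := by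
        intro j
        rw [integral_finsetSum]
        intro k _
        exact (hint _ _).mul_const _
      simp_rw [h5]
      rw [← integral_finsetSum]
      · congr 1
        funext y
        have h6 : (((((n:ℝ) + 1) * kR n (x - y) * f y : ℝ)) : ℂ) = (f y : ℂ) * ((‖∑ j ∈ Finset.range (n+1), e (j:ℤ) (x - y)‖ ^ 2 : ℝ) : ℂ) := by
          unfold kR
          push_cast
          field_simp
        rw [h6, normSq_sum, Finset.sum_range, Finset.mul_sum]
        refine Finset.sum_congr rfl fun j _ => ?_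
        rw [Finset.sum_range, Finset.mul_sum]
        refine Finset.sum_congr rfl fun k _ => ?_
        rw [e_sub, e_arg_sub, e_arg_sub, map_mul, Complex.conj_conj]
        ring
      · intro j _
        refine integrable_finsetSum _ fun k _ => ?_
        exact (hint _ _).mul_const _
    rw [integral_complex_ofReal] at h1
    have h7 : ∑ i, lam i * ‖q i x‖ ^ 2 = ∫ y, (((n:ℝ) + 1) * kR n (x - y) * f y) ∂μ := by exact_mod_cast h1
    have h8 : ∫ y, (((n:ℝ) + 1) * kR n (x - y) * f y) ∂μ = ((n:ℝ) + 1) * ∫ y, kR n (x - y) * f y ∂μ := by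
      rw [← integral_const_mul]
      congr 1
      funext y; ring
    rw [h8] at h7
    simp only [hw]
    have h9 : ∑ i, lam i * (‖q i x‖ ^ 2 / ((n:ℝ) + 1)) = (∑ i, lam i * ‖q i x‖ ^ 2) / ((n:ℝ) + 1) := by
      rw [Finset.sum_div]
      refine Finset.sum_congr rfl fun i _ => ?_
      ring
    rw [h9, h7]
    field_simp
  · intro i
    have hq2 : ∀ (g : Circ → ℝ), (∀ j k : ℤ, Integrable (fun y => (g y : ℂ) * (e j y * conj (e k y))) μ) →
        ((∫ x, ‖q i x‖ ^ 2 * g x ∂μ : ℝ) : ℂ) = ∑ j : Fin (n+1), ∑ k : Fin (n+1),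
          conj (U j i) * (∫ y, (g y : ℂ) * (e (j:ℕ) y * conj (e (k:ℕ) y)) ∂μ) * U k i := by
      intro g hg
      rw [← integral_complex_ofReal]
      have h1 : ∀ x, ((‖q i x‖ ^ 2 * g x : ℝ) : ℂ) = ∑ j : Fin (n+1), ∑ k : Fin (n+1),
          (conj (U j i) * U k i) * ((g x : ℂ) * (e (j:ℕ) x * conj (e (k:ℕ) x))) := by
        intro x
        rw [Complex.ofReal_mul, hsq, Finset.sum_mul]
        refine Finset.sum_congr rfl fun j _ => ?_
        rw [Finset.sum_mul]
        refine Finset.sum_congr rfl fun k _ => ?_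
        ring
      simp_rw [h1]
      rw [integral_finsetSum]
      · refine Finset.sum_congr rfl fun j _ => ?_
        rw [integral_finsetSum]
        · refine Finset.sum_congr rfl fun k _ => ?_
          rw [integral_const_mul]
          ring
        · intro k _
          exact (hg _ _).const_mul _
      · intro j _
        refine integrable_finsetSum _ fun k _ => ?_
        exact (hg _ _).const_mul _
    have hI1 : ((∫ x, ‖q i x‖ ^ 2 * f x ∂μ : ℝ) : ℂ) = lam i := by
      rw [hq2 f hint, ← hU4 i]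
    have hI2 : ((∫ x, ‖q i x‖ ^ 2 * (1:ℝ) ∂μ : ℝ) : ℂ) = 1 := by
      rw [hq2 (fun _ => 1)]
      · have h1 : ∀ j k : Fin (n+1), (∫ y, (((1:ℝ) : ℂ)) * (e (j:ℕ) y * conj (e (k:ℕ) y)) ∂μ) = if j = k then 1 else 0 := by
          intro j k
          have h2 : ∀ y, (((1:ℝ) : ℂ)) * (e (j:ℕ) y * conj (e (k:ℕ) y)) = e ((j:ℕ) - (k:ℕ) : ℤ) y := by
            intro y
            rw [e_sub]; simp
          simp_rw [h2]
          rw [integral_e]
          by_cases h : j = k
          · subst h; simp
          · rw [if_neg h, if_neg]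
            intro h'
            apply h
            have : ((j:ℕ):ℤ) = ((k:ℕ):ℤ) := by linarith
            exact Fin.ext (by exact_mod_cast this)
        simp_rw [h1]
        refine Eq.trans ?_ (hU2 i)
        refine Finset.sum_congr rfl fun j _ => ?_
        simp [Finset.sum_ite_eq]
      · intro j k
        refine Continuous.integrable_of_hasCompactSupport ?_ (HasCompactSupport.of_compactSpace _)
        have h1 := e_continuous j
        have h2 := e_continuous k
        exact continuous_const.mul (h1.mul (Complex.continuous_conj.comp h2))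
    have hI1' : ∫ x, ‖q i x‖ ^ 2 * f x ∂μ = lam i := by exact_mod_cast hI1
    have hI2' : ∫ x, ‖q i x‖ ^ 2 ∂μ = 1 := by
      have : ∫ x, ‖q i x‖ ^ 2 * (1:ℝ) ∂μ = 1 := by exact_mod_cast hI2
      simpa using this
    have hqf : Integrable (fun x => ‖q i x‖ ^ 2 * f x) μ := by
      obtain ⟨B, hB⟩ := (isCompact_univ (X := Circ)).exists_bound_of_continuousOn (f := fun x => ‖q i x‖ ^ 2)
        (by have := hqc i; fun_prop)
      refine hf.bdd_mul (c := B) ?_ ?_
      · have := hqc i
        exact Continuous.aestronglyMeasurable (by fun_prop)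
      · exact Filter.Eventually.of_forall fun x => hB x (Set.mem_univ x)
    have hq1 : Integrable (fun x => ‖q i x‖ ^ 2 * lam i) μ := by
      refine Continuous.integrable_of_hasCompactSupport ?_ (HasCompactSupport.of_compactSpace _)
      have := hqc i
      fun_prop
    have h3 : ∀ x, w i x * (f x - lam i) = (‖q i x‖ ^ 2 * f x - ‖q i x‖ ^ 2 * lam i) / ((n:ℝ) + 1) := by
      intro x
      simp only [hw]; ring
    simp_rw [h3]
    rw [integral_div, integral_sub hqf hq1, hI1', integral_mul_const, hI2']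
    simp

end Pool.Agent.Helper418.FE
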