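import Mathlib
import Pool.Agent.Helper418.FE3

set_option autoImplicit false
open MeasureTheory
open scoped ComplexConjugate

namespace Pool.Agent.Helper418.FE

lemma kR_bounded (n : ℕ) : ∃ B : ℝ, 0 ≤ B ∧ ∀ x, |kR n x| ≤ B := by
  obtain ⟨B, hB⟩ := (isCompact_univ (X := Circ)).exists_bound_of_continuousOn (f := kR n)
    (kR_continuous n).continuousOn
  exact ⟨max B 0, le_max_right _ _, fun x => (hB x (Set.mem_univ x)).trans (le_max_left _ _)⟩

lemma conv_integrable {E : Type*} [NormedAddCommGroup E] [NormedSpace ℝ E] {k : Circ → ℝ} (hk : Continuous k)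
    {f : Circ → E} (hf : Integrable f μ) (x : Circ) : Integrable (fun y => k (x - y) • f y) μ := by
  obtain ⟨B, hB⟩ := (isCompact_univ (X := Circ)).exists_bound_of_continuousOn (f := k) hk.continuousOn
  refine hf.bdd_smul B ?_ ?_
  · exact (hk.comp (continuous_const.sub continuous_id)).aestronglyMeasurable
  · exact Filter.Eventually.of_forall fun y => hB _ (Set.mem_univ _)

lemma conv_continuous {E : Type*} [NormedAddCommGroup E] [NormedSpace ℝ E] {k : Circ → ℝ} (hk : Continuous k)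
    {f : Circ → E} (hf : Integrable f μ) : Continuous (fun x => ∫ y, k (x - y) • f y ∂μ) := by
  obtain ⟨B, hB⟩ := (isCompact_univ (X := Circ)).exists_bound_of_continuousOn (f := k) hk.continuousOn
  refine continuous_of_dominated (bound := fun y => B * ‖f y‖) ?_ ?_ ?_ ?_
  · intro x
    exact (conv_integrable hk hf x).aestronglyMeasurable
  · intro x
    refine Filter.Eventually.of_forall fun y => ?_
    rw [norm_smul]
    exact mul_le_mul_of_nonneg_right (hB _ (Set.mem_univ _)) (norm_nonneg _)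
  · exact hf.norm.const_mul B
  · refine Filter.Eventually.of_forall fun y => ?_
    exact (hk.comp (continuous_id.sub continuous_const)).smul continuous_const

lemma enorm_rpow {E : Type*} [NormedAddCommGroup E] (a : E) {p : ℝ} (hp : 0 ≤ p) :
    ‖a‖ₑ ^ p = ENNReal.ofReal (‖a‖ ^ p) := by
  rw [← ofReal_norm_eq_enorm, ENNReal.ofReal_rpow_of_nonneg (norm_nonneg _) hp]

lemma memLp_integrable {E : Type*} [NormedAddCommGroup E] {p : ℝ} (hp : 1 < p) {f : Circ → E}
    (hf : MemLp f (ENNReal.ofReal p) μ) : Integrable f μ := by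
  refine hf.integrable ?_
  rw [← ENNReal.ofReal_one]
  exact ENNReal.ofReal_le_ofReal hp.le

lemma real_bound {p : ℝ} (hp : 1 < p) (n : ℕ) (f : Circ → ℝ) (hf : MemLp f (ENNReal.ofReal p) μ) :
    ∫⁻ x, ‖f x - ∫ y, kR n (x - y) * f y ∂μ‖ₑ ^ p ∂μ ≤
      ENNReal.ofReal (C p ^ p) * ∫⁻ x, ‖f x‖ₑ ^ p ∂μ := by
  have hp0 : 0 ≤ p := by linarith
  have hfi : Integrable f μ := memLp_integrable hp hf
  obtain ⟨lam, w, hwc, hw0, hw1, hwk, hwi⟩ := exists_weights n f hfi
  have hD0 : 0 ≤ C p ^ p := Real.rpow_nonneg (by linarith [one_le_C hp]) _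
  choose s hs using fun i => line hp (lam i)
  have hfp : Integrable (fun x => |f x| ^ p) μ := by
    have := hf.integrable_norm_rpow (by simp; linarith) ENNReal.ofReal_ne_top
    rw [ENNReal.toReal_ofReal hp0] at this
    exact this
  have hwint : ∀ i, Integrable (fun x => w i x * (f x - lam i)) μ := by
    intro i
    obtain ⟨B, hB⟩ := (isCompact_univ (X := Circ)).exists_bound_of_continuousOn (f := w i) (hwc i).continuousOn
    refine (hfi.sub (integrable_const _)).bdd_mul (c := B) (hwc i).aestronglyMeasurable ?_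
    exact Filter.Eventually.of_forall fun x => hB x (Set.mem_univ x)
  set R : Circ → ℝ := fun x => C p ^ p * |f x| ^ p + ∑ i, s i * (w i x * (f x - lam i)) with hR
  have hRint : Integrable R μ := by
    refine (hfp.const_mul _).add ?_
    exact integrable_finsetSum _ fun i _ => (hwint i).const_mul _
  have hRI : ∫ x, R x ∂μ = C p ^ p * ∫ x, |f x| ^ p ∂μ := by
    simp only [hR]
    rw [integral_add (hfp.const_mul _) (integrable_finsetSum _ fun i _ => (hwint i).const_mul _),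
      integral_const_mul, integral_finsetSum _ (fun i _ => (hwint i).const_mul _)]
    have : ∀ i ∈ Finset.univ, ∫ x, s i * (w i x * (f x - lam i)) ∂μ = 0 := by
      intro i _
      rw [integral_const_mul, hwi, mul_zero]
    rw [Finset.sum_congr rfl this]
    simp
  have hpt : ∀ x, |f x - ∫ y, kR n (x - y) * f y ∂μ| ^ p ≤ R x := by
    intro x
    have h1 : f x - ∫ y, kR n (x - y) * f y ∂μ = ∑ i, w i x * (f x - lam i) := by
      rw [← hwk x]
      have : ∀ i, w i x * (f x - lam i) = w i x * f x - lam i * w i x := fun i => by ring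
      simp_rw [this]
      rw [Finset.sum_sub_distrib, ← Finset.sum_mul, hw1, one_mul]
    rw [h1]
    calc |∑ i, w i x * (f x - lam i)| ^ p ≤ (∑ i, w i x * |f x - lam i|) ^ p := by
          refine Real.rpow_le_rpow (abs_nonneg _) ?_ hp0
          refine (Finset.abs_sum_le_sum_abs _ _).trans (Finset.sum_le_sum fun i _ => ?_)
          rw [abs_mul, abs_of_nonneg (hw0 i x)]
      _ ≤ ∑ i, w i x * |f x - lam i| ^ p :=
          Real.rpow_arith_mean_le_arith_mean_rpow _ _ _ (fun i _ => hw0 i x) (hw1 x)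
            (fun i _ => abs_nonneg _) hp.le
      _ ≤ ∑ i, w i x * (C p ^ p * |f x| ^ p + s i * (f x - lam i)) :=
          Finset.sum_le_sum fun i _ => mul_le_mul_of_nonneg_left (hs i (f x)) (hw0 i x)
      _ = R x := by
          simp only [hR]
          have : ∀ i, w i x * (C p ^ p * |f x| ^ p + s i * (f x - lam i)) =
            w i x * (C p ^ p * |f x| ^ p) + s i * (w i x * (f x - lam i)) := fun i => by ring
          simp_rw [this]
          rw [Finset.sum_add_distrib, ← Finset.sum_mul, hw1, one_mul]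
  have hR0 : ∀ x, 0 ≤ R x := fun x => (Real.rpow_nonneg (abs_nonneg _) _).trans (hpt x)
  calc ∫⁻ x, ‖f x - ∫ y, kR n (x - y) * f y ∂μ‖ₑ ^ p ∂μ
      ≤ ∫⁻ x, ENNReal.ofReal (R x) ∂μ := by
        refine lintegral_mono fun x => ?_
        rw [enorm_rpow _ hp0]
        exact ENNReal.ofReal_le_ofReal (hpt x)
    _ = ENNReal.ofReal (∫ x, R x ∂μ) := by
        rw [ofReal_integral_eq_lintegral_ofReal hRint (Filter.Eventually.of_forall hR0)]
    _ = ENNReal.ofReal (C p ^ p) * ENNReal.ofReal (∫ x, |f x| ^ p ∂μ) := by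
        rw [hRI, ENNReal.ofReal_mul hD0]
    _ = ENNReal.ofReal (C p ^ p) * ∫⁻ x, ‖f x‖ₑ ^ p ∂μ := by
        rw [ofReal_integral_eq_lintegral_ofReal hfp (Filter.Eventually.of_forall fun x => by positivity)]
        congr 1
        refine lintegral_congr fun x => ?_
        rw [enorm_rpow _ hp0]
        rfl

/-- the rotation constant -/
noncomputable def cp (p : ℝ) : ENNReal := ∫⁻ t, ‖(e 1 t).re‖ₑ ^ p ∂μ

lemma e_one_coe (θ : ℝ) : e 1 (θ : Circ) = Complex.exp (θ * Complex.I) := by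
  unfold e
  rw [fourier_coe_apply]
  congr 1
  have : ((2 * Real.pi : ℝ) : ℂ) ≠ 0 := by
    exact_mod_cast Real.two_pi_pos.ne'
  push_cast at this ⊢
  field_simp

lemma rotate {p : ℝ} (hp : 1 < p) (w : ℂ) :
    ∫⁻ t, ‖(e 1 t * w).re‖ₑ ^ p ∂μ = cp p * ‖w‖ₑ ^ p := by
  have hp0 : 0 ≤ p := by linarith
  have h1 : ∀ t, (e 1 t * w).re = ‖w‖ * (e 1 (t + ((Complex.arg w : ℝ) : Circ))).re := by
    intro t
    have h2 : e 1 t * w = (‖w‖ : ℂ) * e 1 (t + ((Complex.arg w : ℝ) : Circ)) := by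
      rw [e_arg_add, e_one_coe]
      have := Complex.norm_mul_exp_arg_mul_I w
      calc e 1 t * w = e 1 t * (‖w‖ * Complex.exp (Complex.arg w * Complex.I)) := by rw [this]
        _ = _ := by ring
    rw [h2, Complex.re_ofReal_mul]
  simp_rw [h1]
  have h3 : ∀ t, ‖‖w‖ * (e 1 (t + ((Complex.arg w : ℝ) : Circ))).re‖ₑ ^ p =
      ‖w‖ₑ ^ p * ‖(e 1 (t + ((Complex.arg w : ℝ) : Circ))).re‖ₑ ^ p := by
    intro t
    rw [enorm_mul, ENNReal.mul_rpow_of_nonneg _ _ hp0, enorm_norm]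
  simp_rw [h3]
  rw [lintegral_const_mul']
  · rw [lintegral_add_right_eq_self (μ := μ) (fun t => ‖(e 1 t).re‖ₑ ^ p), mul_comm]
    rfl
  · exact ENNReal.rpow_ne_top_of_nonneg hp0 enorm_ne_top

lemma cp_ne_top {p : ℝ} (hp : 1 < p) : cp p ≠ ⊤ := by
  have hp0 : 0 ≤ p := by linarith
  have h : cp p ≤ ∫⁻ t : Circ, 1 ∂μ := by
    unfold cp
    refine lintegral_mono fun t => ?_
    rw [enorm_rpow _ hp0]
    rw [← ENNReal.ofReal_one]
    refine ENNReal.ofReal_le_ofReal ?_
    refine Real.rpow_le_one (norm_nonneg _) ?_ hp0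
    exact (Complex.abs_re_le_norm _).trans (norm_e 1 t).le
  refine ne_top_of_le_ne_top ?_ h
  simp

lemma cp_ne_zero {p : ℝ} (hp : 1 < p) : cp p ≠ 0 := by
  have hp0 : 0 < p := by linarith
  intro h
  unfold cp at h
  have hc : Continuous (fun t : Circ => (e 1 t).re) := Complex.continuous_re.comp (e_continuous 1)
  have hm : Measurable (fun t : Circ => ‖(e 1 t).re‖ₑ ^ p) := by
    exact (hc.measurable.enorm).pow_const p
  rw [lintegral_eq_zero_iff hm] at h
  have h2 : (fun t : Circ => (e 1 t).re) =ᵐ[μ] fun _ => 0 := by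
    filter_upwards [h] with t ht
    simp only [Pi.zero_apply, ENNReal.rpow_eq_zero_iff] at ht
    rcases ht with ht | ht
    · exact enorm_eq_zero.mp ht.1
    · exact absurd ht.2 (by linarith)
  have h3 := (Continuous.ae_eq_iff_eq μ hc continuous_const).mp h2
  have h4 := congrFun h3 0
  have h5 : e 1 (0 : Circ) = 1 := fourier_eval_zero 1
  simp [h5] at h4

/-- complex functions: Fubini with rotations -/
lemma rotate_int {p : ℝ} (hp : 1 < p) {F : Circ → ℂ} (hF : AEStronglyMeasurable F μ) :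
    ∫⁻ t, ∫⁻ x, ‖(e 1 t * F x).re‖ₑ ^ p ∂μ ∂μ = cp p * ∫⁻ x, ‖F x‖ₑ ^ p ∂μ := by
  rw [lintegral_lintegral_swap]
  · simp_rw [rotate hp]
    rw [lintegral_const_mul' _ _ (cp_ne_top hp)]
  · have h1 : AEStronglyMeasurable (fun z : Circ × Circ => e 1 z.1 * F z.2) (μ.prod μ) := by
      refine AEStronglyMeasurable.mul ?_ ?_
      · exact ((e_continuous 1).comp continuous_fst).aestronglyMeasurable
      · exact hF.comp_snd
    have h2 : AEStronglyMeasurable (fun z : Circ × Circ => (e 1 z.1 * F z.2).re) (μ.prod μ) :=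
      Complex.continuous_re.comp_aestronglyMeasurable h1
    exact (h2.enorm).pow_const p

lemma complex_bound {p : ℝ} (hp : 1 < p) (n : ℕ) (f : Circ → ℂ) (hf : MemLp f (ENNReal.ofReal p) μ) :
    ∫⁻ x, ‖f x - ∫ y, kR n (x - y) • f y ∂μ‖ₑ ^ p ∂μ ≤
      ENNReal.ofReal (C p ^ p) * ∫⁻ x, ‖f x‖ₑ ^ p ∂μ := by
  have hp0 : 0 ≤ p := by linarith
  have hfi : Integrable f μ := memLp_integrable hp hf
  set Tf : Circ → ℂ := fun x => f x - ∫ y, kR n (x - y) • f y ∂μ with hTf
  have hTm : AEStronglyMeasurable Tf μ :=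
    hf.1.sub (conv_continuous (kR_continuous n) hfi).aestronglyMeasurable
  have hkey : ∀ t, ∫⁻ x, ‖(e 1 t * Tf x).re‖ₑ ^ p ∂μ ≤
      ENNReal.ofReal (C p ^ p) * ∫⁻ x, ‖(e 1 t * f x).re‖ₑ ^ p ∂μ := by
    intro t
    have hft : MemLp (fun x => (e 1 t * f x).re) (ENNReal.ofReal p) μ := (hf.const_mul (e 1 t)).re
    have h1 := real_bound hp n _ hft
    refine le_trans (le_of_eq ?_) h1
    refine lintegral_congr fun x => ?_
    congr 2
    simp only [hTf]
    rw [mul_sub, Complex.sub_re]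
    congr 1
    have h2 : Integrable (fun y => kR n (x - y) • f y) μ := conv_integrable (kR_continuous n) hfi x
    rw [← integral_const_mul]
    have h3 := integral_re (f := fun y => e 1 t * (kR n (x - y) • f y)) (μ := μ) (𝕜 := ℂ) (h2.const_mul _)
    simp only [RCLike.re_eq_complex_re] at h3
    rw [← h3]
    congr 1
    funext y
    rw [Complex.real_smul]
    have : e 1 t * ((kR n (x - y) : ℂ) * f y) = (kR n (x - y) : ℂ) * (e 1 t * f y) := by ring
    rw [this, Complex.re_ofReal_mul]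
  have h4 : cp p * ∫⁻ x, ‖Tf x‖ₑ ^ p ∂μ ≤ cp p * (ENNReal.ofReal (C p ^ p) * ∫⁻ x, ‖f x‖ₑ ^ p ∂μ) := by
    rw [← rotate_int hp hTm]
    calc ∫⁻ t, ∫⁻ x, ‖(e 1 t * Tf x).re‖ₑ ^ p ∂μ ∂μ
        ≤ ∫⁻ t, ENNReal.ofReal (C p ^ p) * ∫⁻ x, ‖(e 1 t * f x).re‖ₑ ^ p ∂μ ∂μ := lintegral_mono hkey
      _ = ENNReal.ofReal (C p ^ p) * ∫⁻ t, ∫⁻ x, ‖(e 1 t * f x).re‖ₑ ^ p ∂μ ∂μ := by
          rw [lintegral_const_mul' _ _ ENNReal.ofReal_ne_top]
      _ = ENNReal.ofReal (C p ^ p) * (cp p * ∫⁻ x, ‖f x‖ₑ ^ p ∂μ) := by rw [rotate_int hp hf.1]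
      _ = _ := by ring
  exact (ENNReal.mul_le_mul_iff_right (cp_ne_zero hp) (cp_ne_top hp)).mp h4

lemma conv_fejer (n : ℕ) (f : Circ → ℂ) (x : Circ) : conv (fejer n) f x = ∫ y, kR n (x - y) • f y ∂μ := by
  unfold conv
  congr 1
  funext y
  rw [fejer_eq, Complex.real_smul]

lemma eLpNorm_eq' {p : ℝ} (hp : 1 < p) (F : Circ → ℂ) :
    eLpNorm F (ENNReal.ofReal p) μ = (∫⁻ x, ‖F x‖ₑ ^ p ∂μ) ^ (1 / p) := by
  rw [eLpNorm_eq_lintegral_rpow_enorm_toReal (by simp; linarith) ENNReal.ofReal_ne_top,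
    ENNReal.toReal_ofReal (by linarith)]

lemma eLpNorm_le_of {p : ℝ} (hp : 1 < p) {F G : Circ → ℂ}
    (h : ∫⁻ x, ‖F x‖ₑ ^ p ∂μ ≤ ENNReal.ofReal (C p ^ p) * ∫⁻ x, ‖G x‖ₑ ^ p ∂μ) :
    eLpNorm F (ENNReal.ofReal p) μ ≤ ENNReal.ofReal (C p) * eLpNorm G (ENNReal.ofReal p) μ := by
  have hp0 : 0 < p := by linarith
  have hC0 : 0 ≤ C p := by linarith [one_le_C hp]
  rw [eLpNorm_eq' hp, eLpNorm_eq' hp]
  calc (∫⁻ x, ‖F x‖ₑ ^ p ∂μ) ^ (1 / p)
      ≤ (ENNReal.ofReal (C p ^ p) * ∫⁻ x, ‖G x‖ₑ ^ p ∂μ) ^ (1 / p) :=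
        ENNReal.rpow_le_rpow h (by positivity)
    _ = ENNReal.ofReal (C p) * (∫⁻ x, ‖G x‖ₑ ^ p ∂μ) ^ (1 / p) := by
        rw [ENNReal.mul_rpow_of_nonneg _ _ (by positivity)]
        congr 1
        rw [ENNReal.ofReal_rpow_of_nonneg (by positivity) (by positivity), ← Real.rpow_mul hC0]
        congr 1
        have : p * (1 / p) = 1 := by field_simp
        rw [this, Real.rpow_one]

/-- upper bound for the Fejér kernels -/
lemma fejer_upper {p : ℝ} (hp : 1 < p) (n : ℕ) (f : Circ → ℂ) (hf : MemLp f (ENNReal.ofReal p) μ) :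
    eLpNorm (fun x => f x - conv (fejer n) f x) (ENNReal.ofReal p) μ ≤
      ENNReal.ofReal (C p) * eLpNorm f (ENNReal.ofReal p) μ := by
  refine eLpNorm_le_of hp ?_
  simp_rw [conv_fejer]
  exact complex_bound hp n f hf

end Pool.Agent.Helper418.FE
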