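import Mathlib
import Pool.Agent.Helper418.FE4

set_option autoImplicit false
open MeasureTheory Filter Topology
open scoped ComplexConjugate

namespace Pool.Agent.Helper418.FE

/-- geometric partial sums -/
noncomputable def S (x : Circ) (n : ℕ) : ℂ := ∑ j ∈ Finset.range (n+1), e (j:ℤ) x

lemma S_zero (x : Circ) : S x 0 = 1 := by simp [S, e_zero]

lemma S_succ (x : Circ) (n : ℕ) : S x (n+1) = 1 + e 1 x * S x n := by
  unfold S
  rw [Finset.sum_range_succ', Finset.mul_sum, add_comm]
  congr 1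
  · simp [e_zero]
  · refine Finset.sum_congr rfl fun j _ => ?_
    rw [← e_add]
    congr 1
    push_cast; ring

lemma norm_S_le (x : Circ) (n : ℕ) : ‖S x n‖ ≤ (n:ℝ) + 1 := by
  unfold S
  refine (norm_sum_le _ _).trans ?_
  simp_rw [norm_e]
  simp

lemma kR_eq (n : ℕ) (x : Circ) : kR n x = ‖S x n‖ ^ 2 / ((n:ℝ)+1) := rfl

lemma summable_pow2 {r : ℝ} (h0 : 0 ≤ r) (h1 : r < 1) : Summable (fun n : ℕ => ((n:ℝ)+1)^2 * r ^ n) := by
  have hr : ‖r‖ < 1 := by rw [Real.norm_of_nonneg h0]; exact h1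
  have s2 := summable_pow_mul_geometric_of_norm_lt_one 2 hr
  have s1 := summable_pow_mul_geometric_of_norm_lt_one 1 hr
  have s0 := summable_pow_mul_geometric_of_norm_lt_one 0 hr
  refine ((s2.add (s1.mul_left 2)).add s0).congr fun n => ?_
  ring

lemma hasSum_S {r : ℝ} (h0 : 0 ≤ r) (h1 : r < 1) (x : Circ) :
    HasSum (fun n : ℕ => (r:ℂ) ^ n * S x n) (1 / ((1 - r) * (1 - r * e 1 x))) := by
  have hs : Summable (fun n : ℕ => (r:ℂ) ^ n * S x n) := by
    refine Summable.of_norm_bounded (summable_pow2 h0 h1) fun n => ?_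
    rw [norm_mul, norm_pow, Complex.norm_real, Real.norm_of_nonneg h0, mul_comm]
    refine mul_le_mul_of_nonneg_right ?_ (by positivity)
    have := norm_S_le x n
    have hn : (0:ℝ) ≤ n := by positivity
    nlinarith
  have hg : HasSum (fun n : ℕ => (r:ℂ) ^ n) (1 - (r:ℂ))⁻¹ := by
    refine hasSum_geometric_of_norm_lt_one ?_
    rw [Complex.norm_real, Real.norm_of_nonneg h0]; exact h1
  obtain ⟨G, hG⟩ := hs
  -- G = 1 + r ∑ r^n S_{n+1}
  have h2 : HasSum (fun n : ℕ => (r:ℂ) ^ (n+1) * S x (n+1)) (r * (1 - (r:ℂ))⁻¹ + r * e 1 x * G) := by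
    have := (hg.mul_left (r:ℂ)).add (hG.mul_left ((r:ℂ) * e 1 x))
    refine this.congr_fun fun n => ?_
    rw [S_succ, pow_succ]; ring
  have h3 := (hasSum_nat_add_iff (f := fun n : ℕ => (r:ℂ) ^ n * S x n) 1).mp h2
  have h4 := hG.unique h3
  simp only [Finset.range_one, Finset.sum_singleton, pow_zero, S_zero, mul_one] at h4
  have hr1 : (1 - (r:ℂ)) ≠ 0 := by
    have : (1 - r : ℝ) ≠ 0 := by linarith
    exact_mod_cast this
  have hr2 : (1 - (r:ℂ) * e 1 x) ≠ 0 := by
    intro h
    have h5 : (r:ℂ) * e 1 x = 1 := by linear_combination -h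
    have h6 : ‖(r:ℂ) * e 1 x‖ = 1 := by rw [h5, norm_one]
    rw [norm_mul, norm_e, Complex.norm_real, Real.norm_of_nonneg h0] at h6
    linarith
  have h5 : G = 1 / ((1 - r) * (1 - r * e 1 x)) := by
    rw [eq_div_iff (mul_ne_zero hr1 hr2)]
    field_simp at h4
    linear_combination h4
  rw [← h5]
  exact hG

/-- real Poisson kernel -/
noncomputable def pR (r : ℝ) (x : Circ) : ℝ := (1 - r ^ 2) / (1 + r ^ 2 - 2 * r * (e 1 x).re)

lemma pden_pos {r : ℝ} (h0 : 0 ≤ r) (h1 : r < 1) (x : Circ) : 0 < 1 + r ^ 2 - 2 * r * (e 1 x).re := by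
  have : (e 1 x).re ≤ 1 := (Complex.re_le_norm _).trans (norm_e 1 x).le
  nlinarith [sq_nonneg (1 - r)]

lemma normSq_one_sub {r : ℝ} (x : Circ) : Complex.normSq (1 - r * e 1 x) = 1 + r ^ 2 - 2 * r * (e 1 x).re := by
  have h : (e 1 x).re ^ 2 + (e 1 x).im ^ 2 = 1 := by
    have := Complex.sq_norm (e 1 x)
    rw [norm_e, Complex.normSq_apply] at this
    linarith
  rw [Complex.normSq_apply]
  simp
  nlinarith

noncomputable def cn (r : ℝ) (n : ℕ) : ℝ := (1 - r) ^ 2 * (((n:ℝ)+1) * r ^ n)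

lemma cn_nonneg {r : ℝ} (h0 : 0 ≤ r) (n : ℕ) : 0 ≤ cn r n := by unfold cn; positivity

lemma cn_hasSum {r : ℝ} (h0 : 0 ≤ r) (h1 : r < 1) : HasSum (cn r) 1 := by
  have hr : ‖r‖ < 1 := by rw [Real.norm_of_nonneg h0]; exact h1
  have h2 := hasSum_coe_mul_geometric_of_norm_lt_one hr
  have h3 := hasSum_geometric_of_lt_one h0 h1
  have h4 := (h2.add h3).mul_left ((1 - r) ^ 2)
  have h5 : (1 - r) ^ 2 * (r / (1 - r) ^ 2 + (1 - r)⁻¹) = 1 := by
    have : 1 - r ≠ 0 := by linarith
    field_simp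
    ring
  rw [h5] at h4
  refine h4.congr_fun fun n => ?_
  unfold cn; ring

lemma poisson_hasSum {r : ℝ} (h0 : 0 ≤ r) (h1 : r < 1) (x : Circ) :
    HasSum (fun n => cn r n * kR n x) (pR r x) := by
  -- a_n = ‖S_n‖²
  have hr1 : 1 - r ≠ 0 := by linarith
  have hrc : (1 - (r:ℂ)) ≠ 0 := by exact_mod_cast hr1
  have hs : Summable (fun n : ℕ => r ^ n * ‖S x n‖ ^ 2) := by
    refine Summable.of_nonneg_of_le (fun n => by positivity) (fun n => ?_) (summable_pow2 h0 h1)
    rw [mul_comm]
    exact mul_le_mul_of_nonneg_right (pow_le_pow_left₀ (norm_nonneg _) (norm_S_le x n) 2) (by positivity)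
  obtain ⟨A, hA⟩ := hs
  have hG := hasSum_S h0 h1 x
  set G : ℂ := 1 / ((1 - r) * (1 - r * e 1 x)) with hGdef
  have hstep : ∀ n, ‖S x (n+1)‖ ^ 2 = 1 + 2 * (e 1 x * S x n).re + ‖S x n‖ ^ 2 := by
    intro n
    rw [S_succ, Complex.sq_norm, Complex.sq_norm]
    have h2 : Complex.normSq (e 1 x * S x n) = Complex.normSq (S x n) := by
      rw [Complex.normSq_mul, ← Complex.sq_norm (e 1 x), norm_e]; ring
    rw [← h2, Complex.normSq_apply, Complex.normSq_apply]
    simp only [Complex.add_re, Complex.add_im, Complex.one_re, Complex.one_im]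
    ring
  have hre : HasSum (fun n : ℕ => r ^ n * (e 1 x * S x n).re) (e 1 x * G).re := by
    have h2 := Complex.hasSum_re (hG.mul_left (e 1 x))
    refine h2.congr_fun fun n => ?_
    have : e 1 x * ((r:ℂ) ^ n * S x n) = ((r ^ n : ℝ) : ℂ) * (e 1 x * S x n) := by push_cast; ring
    rw [this, Complex.re_ofReal_mul]
  have h3 : HasSum (fun n : ℕ => r ^ (n+1) * ‖S x (n+1)‖ ^ 2) (r * (1 - r)⁻¹ + 2 * r * (e 1 x * G).re + r * A) := by
    have h4 := (((hasSum_geometric_of_lt_one h0 h1).mul_left r).add (hre.mul_left (2 * r))).add (hA.mul_left r)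
    refine h4.congr_fun fun n => ?_
    rw [hstep, pow_succ]; ring
  have h5 := (hasSum_nat_add_iff (f := fun n : ℕ => r ^ n * ‖S x n‖ ^ 2) 1).mp h3
  have h6 := hA.unique h5
  simp only [Finset.range_one, Finset.sum_singleton, pow_zero, S_zero, norm_one, one_pow, mul_one] at h6
  have hden := pden_pos h0 h1 x
  have hreG : (1 - r) * (e 1 x * G).re = ((e 1 x).re - r) / (1 + r ^ 2 - 2 * r * (e 1 x).re) := by
    have h7 : (1 - r) * (e 1 x * G).re = (((1 - r : ℝ) : ℂ) * (e 1 x * G)).re := by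
      rw [Complex.re_ofReal_mul]
    rw [h7]
    have h8 : ((1 - r : ℝ) : ℂ) * (e 1 x * G) = e 1 x / (1 - r * e 1 x) := by
      rw [hGdef]
      push_cast
      have hr2 : (1 - (r:ℂ) * e 1 x) ≠ 0 := by
        intro h
        have := normSq_one_sub (r := r) x
        rw [h] at this
        simp at this
        linarith
      field_simp
    rw [h8, Complex.div_re, normSq_one_sub]
    have h : (e 1 x).re ^ 2 + (e 1 x).im ^ 2 = 1 := by
      have := Complex.sq_norm (e 1 x)
      rw [norm_e, Complex.normSq_apply] at this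
      linarith
    simp
    rw [← add_div]
    congr 1
    nlinarith
  have hA2 : (1 - r) ^ 2 * A = pR r x := by
    unfold pR
    have h9 : (1 - r) * A = 1 + r * (1 - r)⁻¹ + 2 * r * (e 1 x * G).re := by linarith
    have h10 : (1 - r) ^ 2 * A = (1 - r) + r + 2 * r * ((1 - r) * (e 1 x * G).re) := by
      calc (1 - r) ^ 2 * A = (1 - r) * ((1 - r) * A) := by ring
        _ = (1 - r) * (1 + r * (1 - r)⁻¹ + 2 * r * (e 1 x * G).re) := by rw [h9]
        _ = _ := by field_simp
    rw [h10, hreG]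
    have hden' := hden.ne'
    have h11 : ∀ d a : ℝ, d ≠ 0 → 1 - r + r + 2 * r * ((a - r) / d) = (d + 2 * r * (a - r)) / d := by
      intro d a hd
      field_simp
      ring
    rw [h11 _ _ hden']
    congr 1
    ring
  rw [← hA2]
  refine (hA.mul_left _).congr_fun fun n => ?_
  rw [kR_eq]
  unfold cn
  have : (n:ℝ) + 1 ≠ 0 := by positivity
  field_simp

lemma poisson_eq (r : ℝ) (x : Circ) : poisson r x = ((pR r x : ℝ) : ℂ) := rfl

lemma pR_continuous {r : ℝ} (h0 : 0 ≤ r) (h1 : r < 1) : Continuous (pR r) := by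
  unfold pR
  have h := e_continuous 1
  refine Continuous.div continuous_const ?_ fun x => (pden_pos h0 h1 x).ne'
  have := Complex.continuous_re.comp h
  exact continuous_const.sub (continuous_const.mul this)

lemma conv_poisson_hasSum {r : ℝ} (h0 : 0 ≤ r) (h1 : r < 1) {f : Circ → ℂ} (hf : Integrable f μ) (x : Circ) :
    HasSum (fun n => cn r n • conv (fejer n) f x) (conv (poisson r) f x) := by
  have h2 : conv (poisson r) f x = ∫ y, pR r (x - y) • f y ∂μ := by
    unfold conv
    congr 1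
  rw [h2]
  have h3 : ∀ n, cn r n • conv (fejer n) f x = ∫ y, (cn r n * kR n (x - y)) • f y ∂μ := by
    intro n
    rw [conv_fejer, ← integral_smul]
    congr 1
    funext y
    rw [smul_smul]
  simp_rw [h3]
  refine hasSum_integral_of_dominated_convergence (fun n y => (cn r n * kR n (x - y)) * ‖f y‖) ?_ ?_ ?_ ?_ ?_
  · intro n
    have : (fun y => (cn r n * kR n (x - y)) • f y) = fun y => cn r n • (kR n (x - y) • f y) := by
      funext y; rw [smul_smul]
    rw [this]
    exact ((conv_integrable (kR_continuous n) hf x).smul (cn r n)).aestronglyMeasurable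
  · intro n
    refine Filter.Eventually.of_forall fun y => ?_
    rw [norm_smul, Real.norm_of_nonneg (mul_nonneg (cn_nonneg h0 n) (kR_nonneg n _))]
  · exact Filter.Eventually.of_forall fun y => ((poisson_hasSum h0 h1 (x - y)).mul_right _).summable
  · have : (fun y => ∑' n, (cn r n * kR n (x - y)) * ‖f y‖) = fun y => pR r (x - y) • ‖f y‖ := by
      funext y
      exact ((poisson_hasSum h0 h1 (x - y)).mul_right _).tsum_eq
    rw [this]
    exact conv_integrable (pR_continuous h0 h1) hf.norm x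
  · exact Filter.Eventually.of_forall fun y => (poisson_hasSum h0 h1 (x - y)).smul_const _

lemma conv_poisson_aesm {r : ℝ} (h0 : 0 ≤ r) (h1 : r < 1) {f : Circ → ℂ} (hf : Integrable f μ) :
    Continuous (conv (poisson r) f) := by
  have h2 : conv (poisson r) f = fun x => ∫ y, pR r (x - y) • f y ∂μ := by
    funext x
    unfold conv
    congr 1
  rw [h2]
  exact conv_continuous (pR_continuous h0 h1) hf

lemma conv_fejer_continuous (n : ℕ) {f : Circ → ℂ} (hf : Integrable f μ) :
    Continuous (conv (fejer n) f) := by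
  have h2 : conv (fejer n) f = fun x => ∫ y, kR n (x - y) • f y ∂μ := by
    funext x
    exact conv_fejer n f x
  rw [h2]
  exact conv_continuous (kR_continuous n) hf

/-- upper bound for the Poisson kernels -/
lemma poisson_upper {p : ℝ} (hp : 1 < p) {r : ℝ} (h0 : 0 ≤ r) (h1 : r < 1) (f : Circ → ℂ)
    (hf : MemLp f (ENNReal.ofReal p) μ) :
    eLpNorm (fun x => f x - conv (poisson r) f x) (ENNReal.ofReal p) μ ≤
      ENNReal.ofReal (C p) * eLpNorm f (ENNReal.ofReal p) μ := by
  have hfi := memLp_integrable hp hf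
  have hp1 : 1 ≤ ENNReal.ofReal p := by
    rw [← ENNReal.ofReal_one]
    exact ENNReal.ofReal_le_ofReal hp.le
  set T : ℕ → Circ → ℂ := fun n x => f x - conv (fejer n) f x with hT
  have hTm : ∀ n, AEStronglyMeasurable (T n) μ := fun n =>
    hf.1.sub (conv_fejer_continuous n hfi).aestronglyMeasurable
  set F : ℕ → Circ → ℂ := fun N => ∑ n ∈ Finset.range N, cn r n • T n with hF
  have hFm : ∀ N, AEStronglyMeasurable (F N) μ := fun N =>
    Finset.aestronglyMeasurable_sum _ fun n _ => (hTm n).const_smul _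
  have hlim : ∀ᵐ x ∂μ, Tendsto (fun N => F N x) atTop (𝓝 (f x - conv (poisson r) f x)) := by
    refine Filter.Eventually.of_forall fun x => ?_
    have h2 : HasSum (fun n => cn r n • T n x) (f x - conv (poisson r) f x) := by
      have h3 := ((cn_hasSum h0 h1).smul_const (f x)).sub (conv_poisson_hasSum h0 h1 hfi x)
      rw [one_smul] at h3
      refine h3.congr_fun fun n => ?_
      simp only [hT]
      rw [smul_sub]
    have h4 := h2.tendsto_sum_nat
    refine h4.congr fun N => ?_
    simp [hF, Finset.sum_apply]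
  refine (Lp.eLpNorm_lim_le_liminf_eLpNorm hFm _ hlim).trans ?_
  have hbd : ∀ N, eLpNorm (F N) (ENNReal.ofReal p) μ ≤ ENNReal.ofReal (C p) * eLpNorm f (ENNReal.ofReal p) μ := by
    intro N
    calc eLpNorm (F N) (ENNReal.ofReal p) μ
        ≤ ∑ n ∈ Finset.range N, eLpNorm (cn r n • T n) (ENNReal.ofReal p) μ :=
          eLpNorm_sum_le (fun n _ => (hTm n).const_smul _) hp1
      _ ≤ ∑ n ∈ Finset.range N, ENNReal.ofReal (cn r n) * (ENNReal.ofReal (C p) * eLpNorm f (ENNReal.ofReal p) μ) := by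
          refine Finset.sum_le_sum fun n _ => ?_
          rw [eLpNorm_const_smul]
          have : ‖cn r n‖ₑ = ENNReal.ofReal (cn r n) := by
            rw [← ofReal_norm, Real.norm_of_nonneg (cn_nonneg h0 n)]
          rw [this]
          exact mul_le_mul_right (fejer_upper hp n f hf) _
      _ = ENNReal.ofReal (∑ n ∈ Finset.range N, cn r n) * (ENNReal.ofReal (C p) * eLpNorm f (ENNReal.ofReal p) μ) := by
          rw [ENNReal.ofReal_sum_of_nonneg (fun n _ => cn_nonneg h0 n), Finset.sum_mul]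
      _ ≤ 1 * (ENNReal.ofReal (C p) * eLpNorm f (ENNReal.ofReal p) μ) := by
          refine mul_le_mul_left ?_ _
          rw [← ENNReal.ofReal_one]
          refine ENNReal.ofReal_le_ofReal ?_
          exact sum_le_hasSum _ (fun n _ => cn_nonneg h0 n) (cn_hasSum h0 h1)
      _ = _ := one_mul _
  exact liminf_le_of_frequently_le' (Filter.Frequently.of_forall hbd)

end Pool.Agent.Helper418.FE
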