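import Mathlib
import Pool.Agent.Helper418.FE5

set_option autoImplicit false
open MeasureTheory Filter Topology
open scoped ComplexConjugate

namespace Pool.Agent.Helper418.FE

/-- an arc of normalised length α -/
noncomputable def arc (α : ℝ) : Set Circ := Metric.closedBall 0 (Real.pi * α)

lemma arc_meas (α : ℝ) : MeasurableSet (arc α) := Metric.isClosed_closedBall.measurableSet

lemma μ_arc {α : ℝ} (h1 : α ≤ 1) : μ (arc α) = ENNReal.ofReal α := by
  have hT : ENNReal.ofReal (2 * Real.pi) ≠ 0 := by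
    simp [Real.pi_pos]
  have h2 : volume (arc α) = ENNReal.ofReal (2 * Real.pi * α) := by
    unfold arc
    rw [AddCircle.volume_closedBall]
    congr 1
    rw [min_eq_right]
    · ring
    · nlinarith [Real.pi_pos]
  have h3 : ENNReal.ofReal (2 * Real.pi * α) = ENNReal.ofReal (2 * Real.pi) * ENNReal.ofReal α :=
    ENNReal.ofReal_mul (by positivity)
  rw [AddCircle.volume_eq_smul_haarAddCircle, Measure.smul_apply, smul_eq_mul, h3] at h2
  exact (ENNReal.mul_right_inj hT ENNReal.ofReal_ne_top).mp h2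

lemma μ_arc_compl {α : ℝ} (h0 : 0 ≤ α) (h1 : α ≤ 1) : μ (arc α)ᶜ = ENNReal.ofReal (1 - α) := by
  rw [prob_compl_eq_one_sub (arc_meas α), μ_arc h1, ENNReal.ofReal_sub _ h0, ENNReal.ofReal_one]

/-- two-valued function -/
noncomputable def g (α a b : ℝ) (x : Circ) : ℂ := by
  classical exact if x ∈ arc α then (a : ℂ) else (b : ℂ)

lemma g_meas (α a b : ℝ) : Measurable (g α a b) := by
  classical
  unfold g
  exact Measurable.ite (arc_meas α) measurable_const measurable_const

lemma g_norm_le (α a b : ℝ) (x : Circ) : ‖g α a b x‖ ≤ |a| + |b| := by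
  unfold g
  split_ifs
  · rw [Complex.norm_real, Real.norm_eq_abs]; linarith [abs_nonneg b]
  · rw [Complex.norm_real, Real.norm_eq_abs]; linarith [abs_nonneg a]

lemma g_lintegral {α : ℝ} (h0 : 0 ≤ α) (h1 : α ≤ 1) (a b : ℝ) {p : ℝ} (hp : 0 ≤ p) :
    ∫⁻ x, ‖g α a b x‖ₑ ^ p ∂μ = ENNReal.ofReal (α * |a| ^ p + (1 - α) * |b| ^ p) := by
  rw [← lintegral_add_compl _ (arc_meas α)]
  have h2 : ∫⁻ x in arc α, ‖g α a b x‖ₑ ^ p ∂μ = ∫⁻ x in arc α, ENNReal.ofReal (|a| ^ p) ∂μ := by
    refine setLIntegral_congr_fun (arc_meas α) fun x hx => ?_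
    simp only [g, if_pos hx]
    rw [enorm_rpow _ hp, Complex.norm_real, Real.norm_eq_abs]
  have h3 : ∫⁻ x in (arc α)ᶜ, ‖g α a b x‖ₑ ^ p ∂μ = ∫⁻ x in (arc α)ᶜ, ENNReal.ofReal (|b| ^ p) ∂μ := by
    refine setLIntegral_congr_fun (arc_meas α).compl fun x hx => ?_
    have hx' : x ∉ arc α := hx
    simp only [g, if_neg hx']
    rw [enorm_rpow _ hp, Complex.norm_real, Real.norm_eq_abs]
  rw [h2, h3, setLIntegral_const, setLIntegral_const, μ_arc h1, μ_arc_compl h0 h1,
    ← ENNReal.ofReal_mul (by positivity), ← ENNReal.ofReal_mul (by positivity),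
    ← ENNReal.ofReal_add (by positivity) (mul_nonneg (by positivity) (by linarith))]
  congr 1
  ring

lemma g_integral {α : ℝ} (h0 : 0 ≤ α) (h1 : α ≤ 1) (a b : ℝ) :
    ∫ x, g α a b x ∂μ = ((α * a + (1 - α) * b : ℝ) : ℂ) := by
  have hi : Integrable (g α a b) μ := by
    refine Integrable.of_bound (g_meas α a b).aestronglyMeasurable (|a| + |b|) ?_
    exact Filter.Eventually.of_forall (g_norm_le α a b)
  rw [← integral_add_compl (arc_meas α) hi]
  have h2 : ∫ x in arc α, g α a b x ∂μ = ∫ x in arc α, (a:ℂ) ∂μ := by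
    refine setIntegral_congr_fun (arc_meas α) fun x hx => ?_
    simp only [g, if_pos hx]
  have h3 : ∫ x in (arc α)ᶜ, g α a b x ∂μ = ∫ x in (arc α)ᶜ, (b:ℂ) ∂μ := by
    refine setIntegral_congr_fun (arc_meas α).compl fun x hx => ?_
    have hx' : x ∉ arc α := hx
    simp only [g, if_neg hx']
  rw [h2, h3, setIntegral_const, setIntegral_const, Measure.real, Measure.real, μ_arc h1, μ_arc_compl h0 h1,
    ENNReal.toReal_ofReal h0, ENNReal.toReal_ofReal (by linarith)]
  simp only [Complex.real_smul]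
  push_cast
  ring

lemma mp_nsmul {N : ℕ} (hN : N ≠ 0) : MeasurePreserving (fun x : Circ => N • x) μ μ := by
  have h := Measure.measurePreserving_zsmul (G := Circ) μ (n := (N : ℤ)) (by exact_mod_cast hN)
  simpa using h

/-- Fourier coefficients of `g(N x)` vanish at frequencies not divisible by `N` -/
lemma integral_e_gN {N : ℕ} (hN : N ≠ 0) {k : ℤ} (hk : ¬ (N:ℤ) ∣ k) (G : Circ → ℂ) :
    ∫ y, e k y * G (N • y) ∂μ = 0 := by
  set τ : Circ := ((2 * Real.pi / N : ℝ) : Circ) with hτ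
  have hNτ : N • τ = 0 := by
    rw [hτ, ← AddCircle.coe_nsmul, nsmul_eq_mul]
    have : (N:ℝ) * (2 * Real.pi / N) = 2 * Real.pi := by
      have : (N:ℝ) ≠ 0 := by exact_mod_cast hN
      field_simp
    rw [this]
    exact AddCircle.coe_period (2 * Real.pi)
  have h1 : ∫ y, e k y * G (N • y) ∂μ = ∫ y, e k (y + τ) * G (N • (y + τ)) ∂μ :=
    (integral_add_right_eq_self (μ := μ) (fun y => e k y * G (N • y)) τ).symm
  have h2 : ∀ y, e k (y + τ) * G (N • (y + τ)) = e k τ * (e k y * G (N • y)) := by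
    intro y
    rw [e_arg_add, nsmul_add, hNτ, add_zero]
    ring
  simp_rw [h2] at h1
  rw [integral_const_mul] at h1
  have h3 : e k τ ≠ 1 := by
    rw [hτ]
    unfold e
    rw [fourier_coe_apply]
    intro h
    rw [Complex.exp_eq_one_iff] at h
    obtain ⟨m, hm⟩ := h
    apply hk
    refine ⟨m, ?_⟩
    have hNc : (N:ℂ) ≠ 0 := by exact_mod_cast hN
    have hpi : (Real.pi : ℂ) ≠ 0 := by exact_mod_cast Real.pi_ne_zero
    push_cast at hm
    field_simp at hm
    have h4 : ((k:ℤ):ℂ) = (((N:ℤ) * m : ℤ) : ℂ) := by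
      push_cast
      rw [← hm]
    exact_mod_cast h4
  have h5 : (1 - e k τ) * ∫ y, e k y * G (N • y) ∂μ = 0 := by
    rw [sub_mul, one_mul, ← h1, sub_self]
  rcases mul_eq_zero.mp h5 with h | h
  · exact absurd (by linear_combination -h) h3
  · exact h

lemma conv_fejer_gN {N n : ℕ} (hN : n < N) {G : Circ → ℂ} (hG : Integrable G μ) (x : Circ) :
    conv (fejer n) (fun y => G (N • y)) x = ∫ y, G y ∂μ := by
  have hN0 : N ≠ 0 := by omega
  have hGN : Integrable (fun y => G (N • y)) μ := (mp_nsmul hN0).integrable_comp_of_integrable hG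
  have hGm : ∫ y, G (N • y) ∂μ = ∫ y, G y ∂μ := by
    have h := mp_nsmul hN0
    have h2 := integral_map (μ := μ) (φ := fun y : Circ => N • y) (f := G) h.measurable.aemeasurable (by
      rw [h.map_eq]; exact hG.1)
    rw [h.map_eq] at h2
    exact h2.symm
  unfold conv fejer
  have h1 : ∀ y, (∑ k ∈ Finset.Icc (-(n : ℤ)) (n : ℤ), ((1 - |(k : ℝ)| / ((n : ℝ) + 1) : ℝ) : ℂ) * fourier k (x - y)) * G (N • y) =
      ∑ k ∈ Finset.Icc (-(n : ℤ)) (n : ℤ), (((1 - |(k : ℝ)| / ((n : ℝ) + 1) : ℝ) : ℂ) * e k x) * (e (-k) y * G (N • y)) := by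
    intro y
    rw [Finset.sum_mul]
    refine Finset.sum_congr rfl fun k _ => ?_
    have := e_arg_sub k x y
    rw [← e_neg] at this
    unfold e at this ⊢
    rw [this]
    ring
  simp_rw [h1]
  rw [integral_finsetSum]
  · rw [Finset.sum_eq_single 0]
    · rw [integral_const_mul]
      simp only [Int.cast_zero, abs_zero, zero_div, sub_zero, Complex.ofReal_one, one_mul, e_zero, neg_zero]
      exact hGm
    · intro k hk hk0
      rw [integral_const_mul, integral_e_gN hN0, mul_zero]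
      intro hd
      rw [Int.dvd_neg] at hd
      rw [Finset.mem_Icc] at hk
      have h2 := Int.le_of_dvd (a := (N:ℤ)) (b := |k|) (abs_pos.mpr hk0) ((dvd_abs _ _).mpr hd)
      have h3 : |k| ≤ n := abs_le.mpr hk
      omega
    · intro h
      exact absurd (Finset.mem_Icc.mpr ⟨by simp, by simp⟩) h
  · intro k _
    refine Integrable.const_mul ?_ _
    refine hGN.bdd_mul (c := 1) (e_continuous _).aestronglyMeasurable ?_
    exact Filter.Eventually.of_forall fun y => (norm_e _ _).le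

/-- values of the extremal two-valued function -/
lemma extremal {p α : ℝ} (hp : 1 < p) (h0 : 0 < α) (h1 : α < 1) :
    ∃ a b : ℝ, 0 < α * |a| ^ p + (1 - α) * |b| ^ p ∧
      α * |a - (α * a + (1 - α) * b)| ^ p + (1 - α) * |b - (α * a + (1 - α) * b)| ^ p =
        φ p α ^ p * (α * |a| ^ p + (1 - α) * |b| ^ p) := by
  have hβ : 0 < 1 - α := by linarith
  have hp1 : 0 < p - 1 := by linarith
  set s := α ^ (1/(p-1)) with hs
  set t := (1-α) ^ (1/(p-1)) with ht
  have hs0 : 0 < s := by positivity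
  have ht0 : 0 < t := by positivity
  have hsα : s ^ (p-1) = α := by
    rw [hs, ← Real.rpow_mul h0.le]
    have : 1/(p-1) * (p-1) = 1 := by field_simp
    rw [this, Real.rpow_one]
  have htβ : t ^ (p-1) = 1 - α := by
    rw [ht, ← Real.rpow_mul hβ.le]
    have : 1/(p-1) * (p-1) = 1 := by field_simp
    rw [this, Real.rpow_one]
  have f : ∀ x : ℝ, 0 < x → x ^ p = x ^ (p-1) * x := by
    intro x hx
    rw [← Real.rpow_add_one hx.ne']; ring_nf
  have ha : |1/s| = 1/s := abs_of_pos (by positivity)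
  have hb : |-(1/t)| = 1/t := by rw [abs_neg]; exact abs_of_pos (by positivity)
  have e1 : α * (1/s) ^ p = 1/s := by
    rw [f (1/s) (by positivity), Real.div_rpow zero_le_one hs0.le, Real.one_rpow, hsα]
    field_simp
  have e2 : (1 - α) * (1/t) ^ p = 1/t := by
    rw [f (1/t) (by positivity), Real.div_rpow zero_le_one ht0.le, Real.one_rpow, htβ]
    field_simp
  refine ⟨1/s, -(1/t), ?_, ?_⟩
  · rw [ha, hb, e1, e2]; positivity
  · rw [ha, hb, e1, e2, φ_pow hp h0.le h1.le, ← hs, ← ht]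
    have e3 : 1/s - (α * (1/s) + (1 - α) * -(1/t)) = (1 - α) * (1/s + 1/t) := by ring
    have e4 : -(1/t) - (α * (1/s) + (1 - α) * -(1/t)) = -(α * (1/s + 1/t)) := by ring
    have hst : 0 < 1/s + 1/t := by positivity
    rw [e3, e4, abs_neg, abs_of_pos (by positivity : 0 < (1 - α) * (1/s + 1/t)),
      abs_of_pos (by positivity : 0 < α * (1/s + 1/t)), Real.mul_rpow hβ.le hst.le,
      Real.mul_rpow h0.le hst.le]
    have e5 : (1/s + 1/t) ^ p = (s + t) ^ (p-1) / (α * (1 - α)) * (1/s + 1/t) := by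
      rw [f _ hst]
      have : 1/s + 1/t = (s + t)/(s * t) := by field_simp; ring
      conv_lhs => rw [this]
      rw [this, Real.div_rpow (by positivity) (by positivity), Real.mul_rpow hs0.le ht0.le, hsα, htβ]
    rw [e5, f α h0, f (1 - α) hβ]
    have hα' : α ≠ 0 := h0.ne'
    have hβ' : 1 - α ≠ 0 := hβ.ne'
    field_simp
    ring

lemma φ_half {p : ℝ} (hp : 1 < p) : φ p (1/2) = 1 := by
  have hp1 : 0 < p - 1 := by linarith
  have h1 : (0:ℝ) < 2 := two_pos
  unfold φ
  have e1 : (1:ℝ) - 1/2 = 1/2 := by norm_num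
  rw [e1]
  have e2 : (1/2 : ℝ) ^ (p - 1) + (1/2 : ℝ) ^ (p - 1) = 2 ^ (2 - p) := by
    rw [one_div, Real.inv_rpow h1.le, ← Real.rpow_neg h1.le, ← two_mul]
    conv_lhs => rw [← Real.rpow_one 2]
    rw [← Real.rpow_mul h1.le, ← Real.rpow_add h1]
    congr 1
    ring
  have e3 : (1/2 : ℝ) ^ (1/(p - 1)) + (1/2 : ℝ) ^ (1/(p - 1)) = 2 ^ (1 - 1/(p-1)) := by
    rw [one_div 2, Real.inv_rpow h1.le, ← Real.rpow_neg h1.le, ← two_mul]
    conv_lhs => rw [← Real.rpow_one 2]
    rw [← Real.rpow_mul h1.le, ← Real.rpow_add h1]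
    congr 1
    ring
  rw [e2, e3, ← Real.rpow_mul h1.le, ← Real.rpow_mul h1.le, ← Real.rpow_add h1]
  have : (2 - p) * (1 / p) + (1 - 1 / (p - 1)) * (1 - 1 / p) = 0 := by
    have : p ≠ 0 := by linarith
    have : p - 1 ≠ 0 := by linarith
    field_simp
    ring
  rw [this, Real.rpow_zero]

end Pool.Agent.Helper418.FE
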