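import Mathlib
import Pool.Agent.Helper418.FE6

set_option autoImplicit false
open MeasureTheory Filter Topology
open scoped ComplexConjugate

namespace Pool.Agent.Helper418.FE

lemma g_sub (α a b m : ℝ) (x : Circ) : g α a b x - (m : ℂ) = g α (a - m) (b - m) x := by
  unfold g
  split_ifs <;> push_cast <;> ring

lemma g_memLp (α a b : ℝ) (p : ENNReal) : MemLp (g α a b) p μ :=
  MemLp.of_bound (g_meas α a b).aestronglyMeasurable (|a| + |b|) (Filter.Eventually.of_forall (g_norm_le α a b))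

lemma g_integrable (α a b : ℝ) : Integrable (g α a b) μ := by
  rw [← memLp_one_iff_integrable]
  exact g_memLp α a b 1

lemma fN_memLp {N : ℕ} (hN : N ≠ 0) (α a b : ℝ) (p : ENNReal) : MemLp (fun x : Circ => g α a b (N • x)) p μ :=
  (g_memLp α a b p).comp_measurePreserving (mp_nsmul hN)

lemma fN_eLpNorm {N : ℕ} (hN : N ≠ 0) (α a b : ℝ) (p : ENNReal) :
    eLpNorm (fun x : Circ => g α a b (N • x)) p μ = eLpNorm (g α a b) p μ := by
  have h := eLpNorm_comp_measurePreserving (p := p) (g := g α a b) (f := fun x : Circ => N • x)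
    (μ := μ) (ν := μ) (g_meas α a b).aestronglyMeasurable (mp_nsmul hN)
  exact h

/-- key relation between the norms of `g - m` and `g` -/
lemma g_ratio {p α : ℝ} (hp : 1 < p) (h0 : 0 < α) (h1 : α < 1) :
    ∃ a b : ℝ, eLpNorm (g α a b) (ENNReal.ofReal p) μ ≠ 0 ∧ eLpNorm (g α a b) (ENNReal.ofReal p) μ ≠ ⊤ ∧
      eLpNorm (g α (a - (α * a + (1 - α) * b)) (b - (α * a + (1 - α) * b))) (ENNReal.ofReal p) μ =
        ENNReal.ofReal (φ p α) * eLpNorm (g α a b) (ENNReal.ofReal p) μ := by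
  have hp0 : 0 < p := by linarith
  obtain ⟨a, b, hQ, hE⟩ := extremal hp h0 h1
  have hφ := φ_nonneg (p := p) h0.le h1.le
  refine ⟨a, b, ?_, (g_memLp α a b _).2.ne, ?_⟩
  · rw [eLpNorm_eq' hp, g_lintegral h0.le h1.le a b hp0.le]
    rw [Ne, ENNReal.rpow_eq_zero_iff]
    push Not
    constructor
    · intro h
      rw [ENNReal.ofReal_eq_zero] at h
      linarith
    · intro h
      exact absurd h ENNReal.ofReal_ne_top
  · rw [eLpNorm_eq' hp, eLpNorm_eq' hp, g_lintegral h0.le h1.le _ _ hp0.le, g_lintegral h0.le h1.le a b hp0.le,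
      hE, ENNReal.ofReal_mul (by positivity), ENNReal.mul_rpow_of_nonneg _ _ (by positivity)]
    congr 1
    rw [ENNReal.ofReal_rpow_of_nonneg (by positivity) (by positivity), ← Real.rpow_mul hφ]
    have : p * (1 / p) = 1 := by field_simp
    rw [this, Real.rpow_one]

lemma le_of_ofReal {x c : ℝ} {Y : ENNReal} (hc : 0 ≤ c) (hY0 : Y ≠ 0) (hYt : Y ≠ ⊤)
    (h : ENNReal.ofReal x * Y ≤ ENNReal.ofReal c * Y) : x ≤ c := by
  have h2 : ENNReal.ofReal x ≤ ENNReal.ofReal c := (ENNReal.mul_le_mul_iff_left hY0 hYt).mp h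
  exact (ENNReal.ofReal_le_ofReal_iff hc).mp h2

lemma fejer_lower {p : ℝ} (hp : 1 < p) (n : ℕ) {c : ℝ} (hc : 0 ≤ c)
    (h : ∀ f : Circ → ℂ, MemLp f (ENNReal.ofReal p) μ →
      eLpNorm (fun x => f x - conv (fejer n) f x) (ENNReal.ofReal p) μ
        ≤ ENNReal.ofReal c * eLpNorm f (ENNReal.ofReal p) μ) {α : ℝ} (h0 : 0 < α) (h1 : α < 1) :
    φ p α ≤ c := by
  obtain ⟨a, b, hY0, hYt, hE⟩ := g_ratio hp h0 h1
  have hN : n + 1 ≠ 0 := Nat.succ_ne_zero n
  have h2 := h _ (fN_memLp hN α a b _)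
  have h3 : (fun x : Circ => g α a b ((n+1) • x) - conv (fejer n) (fun x : Circ => g α a b ((n+1) • x)) x) =
      fun x : Circ => g α (a - (α * a + (1 - α) * b)) (b - (α * a + (1 - α) * b)) ((n+1) • x) := by
    funext x
    rw [conv_fejer_gN (Nat.lt_succ_self n) (g_integrable α a b) x, g_integral h0.le h1.le, g_sub]
  rw [h3, fN_eLpNorm hN, fN_eLpNorm hN, hE] at h2
  exact le_of_ofReal hc hY0 hYt h2

lemma conv_fejer_bound (n : ℕ) {f : Circ → ℂ} {M : ℝ} (hM : ∀ x, ‖f x‖ ≤ M) (x : Circ) :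
    ‖conv (fejer n) f x‖ ≤ M := by
  rw [conv_fejer]
  have hc : Continuous (fun y => kR n (x - y)) := (kR_continuous n).comp (continuous_const.sub continuous_id)
  have hi : Integrable (fun y => kR n (x - y) * M) μ :=
    (Continuous.integrable_of_hasCompactSupport (hc.mul continuous_const) (HasCompactSupport.of_compactSpace _))
  refine (norm_integral_le_of_norm_le hi ?_).trans ?_
  · refine Filter.Eventually.of_forall fun y => ?_
    rw [norm_smul, Real.norm_of_nonneg (kR_nonneg n _)]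
    exact mul_le_mul_of_nonneg_left (hM y) (kR_nonneg n _)
  · rw [integral_mul_const, integral_sub_left_eq_self (kR n) μ x, kR_integral, one_mul]

lemma poisson_gN {r : ℝ} (h0 : 0 ≤ r) (h1 : r < 1) {N : ℕ} (hN : N ≠ 0) {α a b : ℝ}
    (hα0 : 0 ≤ α) (hα1 : α ≤ 1) (x : Circ) :
    ‖conv (poisson r) (fun y : Circ => g α a b (N • y)) x - ((α * a + (1 - α) * b : ℝ) : ℂ)‖ ≤
      2 * (|a| + |b|) * (1 - ∑ n ∈ Finset.range N, cn r n) := by
  set m : ℂ := ((α * a + (1 - α) * b : ℝ) : ℂ) with hm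
  set M := |a| + |b| with hM
  have hfN : Integrable (fun y : Circ => g α a b (N • y)) μ := by
    rw [← memLp_one_iff_integrable]
    exact fN_memLp hN α a b 1
  have hmM : ‖m‖ ≤ M := by
    rw [hm, ← g_integral hα0 hα1]
    have := norm_integral_le_of_norm_le_const (μ := μ) (f := g α a b) (C := M)
      (Filter.Eventually.of_forall (g_norm_le α a b))
    simpa using this
  have h2 : HasSum (fun n => cn r n • (conv (fejer n) (fun y : Circ => g α a b (N • y)) x - m))
      (conv (poisson r) (fun y : Circ => g α a b (N • y)) x - m) := by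
    have h3 := (conv_poisson_hasSum h0 h1 hfN x).sub ((cn_hasSum h0 h1).smul_const m)
    rw [one_smul] at h3
    refine h3.congr_fun fun n => ?_
    rw [smul_sub]
  have h3 := (hasSum_nat_add_iff' N).mpr h2
  have h4 : ∑ i ∈ Finset.range N, cn r i • (conv (fejer i) (fun y : Circ => g α a b (N • y)) x - m) = 0 := by
    refine Finset.sum_eq_zero fun i hi => ?_
    rw [conv_fejer_gN (Finset.mem_range.mp hi) (g_integrable α a b) x, g_integral hα0 hα1, sub_self, smul_zero]
  rw [h4, sub_zero] at h3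
  have h5 : HasSum (fun n => cn r (n + N) * (2 * M)) ((1 - ∑ n ∈ Finset.range N, cn r n) * (2 * M)) :=
    ((hasSum_nat_add_iff' N).mpr (cn_hasSum h0 h1)).mul_right _
  have h6 := tsum_of_norm_bounded h5 (f := fun n => cn r (n + N) • (conv (fejer (n + N)) (fun y : Circ => g α a b (N • y)) x - m)) ?_
  · rw [h3.tsum_eq] at h6
    refine h6.trans (le_of_eq ?_)
    ring
  · intro n
    rw [norm_smul, Real.norm_of_nonneg (cn_nonneg h0 _)]
    refine mul_le_mul_of_nonneg_left ?_ (cn_nonneg h0 _)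
    refine (norm_sub_le _ _).trans ?_
    have := conv_fejer_bound (n + N) (f := fun y : Circ => g α a b (N • y)) (M := M) (fun y => g_norm_le α a b _) x
    linarith

lemma poisson_lower {p : ℝ} (hp : 1 < p) {r : ℝ} (hr0 : 0 ≤ r) (hr1 : r < 1) {c : ℝ} (hc : 0 ≤ c)
    (h : ∀ f : Circ → ℂ, MemLp f (ENNReal.ofReal p) μ →
      eLpNorm (fun x => f x - conv (poisson r) f x) (ENNReal.ofReal p) μ
        ≤ ENNReal.ofReal c * eLpNorm f (ENNReal.ofReal p) μ) {α : ℝ} (h0 : 0 < α) (h1 : α < 1) :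
    φ p α ≤ c := by
  obtain ⟨a, b, hY0, hYt, hE⟩ := g_ratio hp h0 h1
  have hp1 : 1 ≤ ENNReal.ofReal p := by
    rw [← ENNReal.ofReal_one]
    exact ENNReal.ofReal_le_ofReal hp.le
  set Y := eLpNorm (g α a b) (ENNReal.ofReal p) μ with hY
  set m : ℝ := α * a + (1 - α) * b with hm
  have key : ∀ N : ℕ, N ≠ 0 → ENNReal.ofReal (φ p α) * Y ≤ ENNReal.ofReal c * Y +
      ENNReal.ofReal (2 * (|a| + |b|) * (1 - ∑ n ∈ Finset.range N, cn r n)) := by
    intro N hN
    have hfm := fN_memLp hN α a b (ENNReal.ofReal p)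
    have hfi : Integrable (fun x : Circ => g α a b (N • x)) μ := memLp_integrable hp hfm
    have h2 := h _ hfm
    rw [fN_eLpNorm hN] at h2
    have h3 : eLpNorm (fun x : Circ => g α (a - m) (b - m) (N • x)) (ENNReal.ofReal p) μ =
        ENNReal.ofReal (φ p α) * Y := by
      rw [fN_eLpNorm hN, hE]
    rw [← h3]
    have h4 : (fun x : Circ => g α (a - m) (b - m) (N • x)) =
        (fun x : Circ => g α a b (N • x) - conv (poisson r) (fun x : Circ => g α a b (N • x)) x) +
        (fun x : Circ => conv (poisson r) (fun x : Circ => g α a b (N • x)) x - (m:ℂ)) := by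
      funext x
      simp only [Pi.add_apply]
      rw [← g_sub]
      ring
    rw [h4]
    refine (eLpNorm_add_le ?_ ?_ hp1).trans (add_le_add h2 ?_)
    · exact hfm.1.sub (conv_poisson_aesm hr0 hr1 hfi).aestronglyMeasurable
    · exact ((conv_poisson_aesm hr0 hr1 hfi).sub continuous_const).aestronglyMeasurable
    · have h5 := eLpNorm_le_of_ae_bound (p := ENNReal.ofReal p) (μ := μ)
        (f := fun x : Circ => conv (poisson r) (fun x : Circ => g α a b (N • x)) x - (m:ℂ))
        (Filter.Eventually.of_forall fun x => poisson_gN hr0 hr1 hN h0.le h1.le x)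
      simpa using h5
  have hlim : Tendsto (fun N : ℕ => ENNReal.ofReal c * Y +
      ENNReal.ofReal (2 * (|a| + |b|) * (1 - ∑ n ∈ Finset.range N, cn r n))) atTop
      (𝓝 (ENNReal.ofReal c * Y + ENNReal.ofReal (2 * (|a| + |b|) * (1 - 1)))) := by
    refine Tendsto.const_add _ ?_
    refine (ENNReal.continuous_ofReal.tendsto _).comp ?_
    refine Tendsto.const_mul _ (Tendsto.const_sub _ ?_)
    exact (cn_hasSum hr0 hr1).tendsto_sum_nat
  rw [sub_self, mul_zero, ENNReal.ofReal_zero, add_zero] at hlim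
  have h6 : ENNReal.ofReal (φ p α) * Y ≤ ENNReal.ofReal c * Y := by
    refine ge_of_tendsto hlim ?_
    filter_upwards [eventually_ge_atTop 1] with N hN
    exact key N (by omega)
  exact le_of_ofReal hc hY0 hYt h6

lemma C_le {p : ℝ} (hp : 1 < p) {c : ℝ} (h : ∀ α : ℝ, 0 < α → α < 1 → φ p α ≤ c) : C p ≤ c := by
  have hc1 : 1 ≤ c := by
    have := h (1/2) (by norm_num) (by norm_num)
    rw [φ_half hp] at this
    exact this
  have hz : (0:ℝ) ^ (p - 1) = 0 := Real.zero_rpow (by linarith)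
  have hz2 : (0:ℝ) ^ (1 / (p - 1)) = 0 := Real.zero_rpow (by
    have : 0 < 1/(p-1) := by
      apply div_pos one_pos; linarith
    exact this.ne')
  unfold C
  refine csSup_le ⟨_, ⟨0, by simp, rfl⟩⟩ ?_
  rintro _ ⟨α, ⟨h0, h1⟩, rfl⟩
  rcases h0.lt_or_eq with h0' | h0'
  · rcases h1.lt_or_eq with h1' | h1'
    · exact h α h0' h1'
    · subst h1'
      simp only [sub_self, hz, hz2, Real.one_rpow, add_zero, mul_one]
      exact hc1
  · subst h0'
    simp only [sub_zero, hz, hz2, Real.one_rpow, zero_add, mul_one]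
    exact hc1

theorem main (p : ℝ) (hp : 1 < p) :
    (∀ n : ℕ, IsNormIdSubConv (fejer n) p (C p)) ∧
    (∀ r : ℝ, 0 ≤ r → r < 1 → IsNormIdSubConv (poisson r) p (C p)) := by
  have hC0 : 0 ≤ C p := by linarith [one_le_C hp]
  constructor
  · intro n
    refine ⟨⟨hC0, fun f hf => fejer_upper hp n f hf⟩, ?_⟩
    rintro c ⟨hc, h⟩
    exact C_le hp fun α h0 h1 => fejer_lower hp n hc h h0 h1
  · intro r hr0 hr1
    refine ⟨⟨hC0, fun f hf => poisson_upper hp hr0 hr1 f hf⟩, ?_⟩
    rintro c ⟨hc, h⟩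
    exact C_le hp fun α h0 h1 => poisson_lower hp hr0 hr1 hc h h0 h1

end Pool.Agent.Helper418.FE
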