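import Mathlib
open Metric Set Filter Topology InnerProductSpace

namespace Pool.Agent.Helper418.G

noncomputable section

variable {F : Type*} [NormedAddCommGroup F] [InnerProductSpace ℝ F]

/-- `r - <e, x>` -/
def eta (e x : F) : ℝ := ‖x‖ - inner ℝ e x

/-- monomials -/
def mono (e : F) (a b : ℕ) (x : F) : ℝ := (‖x‖ ^ a * eta e x ^ b)⁻¹

lemma hasFDerivAt_norm {x : F} (hx : x ≠ 0) :
    HasFDerivAt (fun y : F => ‖y‖) ((‖x‖⁻¹) • innerSL ℝ x) x := by
  have h1 : HasFDerivAt (fun y : F => ‖y‖ ^ 2) (2 • innerSL ℝ x) x :=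
    (hasStrictFDerivAt_norm_sq x).hasFDerivAt
  have hx0 : ‖x‖ ≠ 0 := norm_ne_zero_iff.mpr hx
  have h2 := h1.sqrt (by positivity)
  have h3 : (fun y : F => √(‖y‖ ^ 2)) = fun y => ‖y‖ := by
    funext y; exact Real.sqrt_sq (norm_nonneg y)
  rw [h3] at h2
  refine h2.congr_fderiv ?_
  rw [Real.sqrt_sq (norm_nonneg x)]
  ext v
  simp
  field_simp

lemma hasFDerivAt_eta (e : F) {x : F} (hx : x ≠ 0) :
    HasFDerivAt (eta e) ((‖x‖⁻¹) • innerSL ℝ x - innerSL ℝ e) x :=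
  (hasFDerivAt_norm hx).sub (innerSL ℝ e).hasFDerivAt

lemma hasFDerivAt_mono (e : F) (a b : ℕ) {x : F} (hx : x ≠ 0) (he : eta e x ≠ 0) :
    HasFDerivAt (mono e a b)
      ((-(a * mono e (a+2) b x + b * mono e (a+1) (b+1) x)) • innerSL ℝ x +
        (b * mono e a (b+1) x) • innerSL ℝ e) x := by
  have hr : ‖x‖ ≠ 0 := norm_ne_zero_iff.mpr hx
  have h1 := (hasFDerivAt_norm hx).pow a
  have h2 := (hasFDerivAt_eta e hx).pow b
  have h3 := h1.mul h2
  have h4 := (hasDerivAt_inv (mul_ne_zero (pow_ne_zero a hr) (pow_ne_zero b he))).comp_hasFDerivAt x h3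
  have h5 : HasFDerivAt (mono e a b) _ x := h4
  refine h5.congr_fderiv ?_
  ext v
  simp only [mono, add_apply, smul_apply, innerSL_apply_apply,
    smul_eq_mul, sub_apply, nsmul_eq_mul]
  rcases a with _ | a <;> rcases b with _ | b
  · simp
  · simp
    field_simp
    ring
  · simp
    field_simp
    ring
  · simp
    field_simp
    ring

open Laplacian in
lemma laplacian_radial [FiniteDimensional ℝ F] {ι : Type*} [Fintype ι] (bs : OrthonormalBasis ι ℝ F)
    {f A B : F → ℝ} {e x : F} {A1 A2 B1 B2 : ℝ}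
    (hf : ∀ᶠ y in 𝓝 x, HasFDerivAt f (A y • innerSL ℝ y + B y • innerSL ℝ e) y)
    (hA : HasFDerivAt A (A1 • innerSL ℝ x + A2 • innerSL ℝ e) x)
    (hB : HasFDerivAt B (B1 • innerSL ℝ x + B2 • innerSL ℝ e) x) :
    Δ f x = A1 * ‖x‖ ^ 2 + A2 * inner ℝ e x + Fintype.card ι * A x + B1 * inner ℝ e x + B2 * ‖e‖ ^ 2 := by
  have h1 : fderiv ℝ f =ᶠ[𝓝 x] fun y => A y • innerSL ℝ y + B y • innerSL ℝ e := by
    filter_upwards [hf] with y hy using hy.fderiv
  have h2 : HasFDerivAt (fun y : F => (innerSL ℝ y : F →L[ℝ] ℝ)) (innerSL ℝ : F →L[ℝ] F →L[ℝ] ℝ) x :=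
    (innerSL ℝ : F →L[ℝ] F →L[ℝ] ℝ).hasFDerivAt
  have h3 := (hA.smul h2).add (hB.smul_const (innerSL ℝ e : F →L[ℝ] ℝ))
  have h4 : ∀ v, fderiv ℝ (fderiv ℝ f) x v v =
      (A1 * inner ℝ x v + A2 * inner ℝ e v) * inner ℝ x v + A x * inner ℝ v v +
      (B1 * inner ℝ x v + B2 * inner ℝ e v) * inner ℝ e v := by
    intro v
    have h5 : fderiv ℝ (fderiv ℝ f) x = _ := h1.fderiv_eq.trans h3.fderiv
    rw [h5]
    have h6 : ((innerSL ℝ : F →L[ℝ] F →L[ℝ] ℝ) v) v = inner ℝ v v := rfl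
    simp only [add_apply, smul_apply, ContinuousLinearMap.smulRight_apply, innerSL_apply_apply,
      smul_eq_mul, h6]
    ring
  rw [laplacian_eq_iteratedFDeriv_orthonormalBasis f bs]
  simp only [iteratedFDeriv_two_apply, Matrix.cons_val_zero, Matrix.cons_val_one]
  simp only [h4]
  have hs1 : ∑ i, inner ℝ x (bs i) * inner ℝ x (bs i) = ‖x‖ ^ 2 := by
    have := bs.sum_inner_mul_inner x x
    rw [← real_inner_self_eq_norm_sq, ← this]
    apply Finset.sum_congr rfl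
    intro i _
    rw [real_inner_comm x (bs i)]
  have hs2 : ∑ i, inner ℝ e (bs i) * inner ℝ x (bs i) = inner ℝ e x := by
    rw [← bs.sum_inner_mul_inner e x]
    apply Finset.sum_congr rfl
    intro i _
    rw [real_inner_comm x (bs i)]
  have hs3 : ∑ i, inner ℝ e (bs i) * inner ℝ e (bs i) = ‖e‖ ^ 2 := by
    have := bs.sum_inner_mul_inner e e
    rw [← real_inner_self_eq_norm_sq, ← this]
    apply Finset.sum_congr rfl
    intro i _
    rw [real_inner_comm e (bs i)]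
  have hs4 : ∑ i, inner ℝ (bs i) (bs i) = (Fintype.card ι : ℝ) := by
    simp
  calc ∑ i, ((A1 * inner ℝ x (bs i) + A2 * inner ℝ e (bs i)) * inner ℝ x (bs i) +
        A x * inner ℝ (bs i) (bs i) +
        (B1 * inner ℝ x (bs i) + B2 * inner ℝ e (bs i)) * inner ℝ e (bs i))
      = A1 * ∑ i, inner ℝ x (bs i) * inner ℝ x (bs i) +
        A2 * ∑ i, inner ℝ e (bs i) * inner ℝ x (bs i) +
        A x * ∑ i, inner ℝ (bs i) (bs i) + B1 * ∑ i, inner ℝ e (bs i) * inner ℝ x (bs i) +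
        B2 * ∑ i, inner ℝ e (bs i) * inner ℝ e (bs i) := by
        simp only [Finset.mul_sum, ← Finset.sum_add_distrib]
        apply Finset.sum_congr rfl
        intro i _
        ring
    _ = _ := by rw [hs1, hs2, hs3, hs4]; ring

lemma good_open (e : F) : IsOpen {y : F | y ≠ 0 ∧ eta e y ≠ 0} := by
  have h : Continuous (eta e) := by unfold eta; fun_prop
  exact isOpen_ne.inter (isOpen_ne_fun h continuous_const)

open Laplacian in
lemma laplacian_mono [FiniteDimensional ℝ F] {ι : Type*} [Fintype ι] (bs : OrthonormalBasis ι ℝ F)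
    (e : F) (a b : ℕ) {x : F} (hx : x ≠ 0) (he : eta e x ≠ 0) :
    Δ (mono e a b) x =
      (a * (a+2) * mono e (a+4) b x + a * b * mono e (a+3) (b+1) x + b * (a+1) * mono e (a+3) (b+1) x
        + b * (b+1) * mono e (a+2) (b+2) x) * ‖x‖ ^ 2 +
      (-(a * b * mono e (a+2) (b+1) x) - b * (b+1) * mono e (a+1) (b+2) x) * inner ℝ e x +
      Fintype.card ι * (-(a * mono e (a+2) b x + b * mono e (a+1) (b+1) x)) +
      (-(b * (a * mono e (a+2) (b+1) x + (b+1) * mono e (a+1) (b+2) x))) * inner ℝ e x +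
      (b * (b+1) * mono e a (b+2) x) * ‖e‖ ^ 2 := by
  apply laplacian_radial bs (A := fun y => -(a * mono e (a+2) b y + b * mono e (a+1) (b+1) y))
    (B := fun y => b * mono e a (b+1) y)
  · filter_upwards [(good_open e).mem_nhds ⟨hx, he⟩] with y hy
    exact hasFDerivAt_mono e a b hy.1 hy.2
  · have h1 := (hasFDerivAt_mono e (a+2) b hx he).const_mul (a:ℝ)
    have h2 := (hasFDerivAt_mono e (a+1) (b+1) hx he).const_mul (b:ℝ)
    refine (h1.add h2).neg.congr_fderiv ?_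
    ext v
    simp only [add_apply, smul_apply, neg_apply, innerSL_apply_apply, smul_eq_mul]
    push_cast
    ring
  · have h2 := (hasFDerivAt_mono e a (b+1) hx he).const_mul (b:ℝ)
    refine h2.congr_fderiv ?_
    ext v
    simp only [add_apply, smul_apply, innerSL_apply_apply, smul_eq_mul]
    push_cast
    ring

lemma mono_contDiffAt (e : F) (a b : ℕ) {x : F} (hx : x ≠ 0) (he : eta e x ≠ 0) :
    ContDiffAt ℝ 2 (mono e a b) x := by
  have hr : ‖x‖ ≠ 0 := norm_ne_zero_iff.mpr hx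
  have h1 : ContDiffAt ℝ 2 (fun y : F => ‖y‖) x := contDiffAt_norm ℝ hx
  have h2 : ContDiffAt ℝ 2 (eta e) x := h1.sub (innerSL ℝ e).contDiff.contDiffAt
  exact ((h1.pow a).mul (h2.pow b)).inv (mul_ne_zero (pow_ne_zero a hr) (pow_ne_zero b he))

open Laplacian in
lemma mono_harmonic_of [FiniteDimensional ℝ F] (e : F) (a b : ℕ)
    (h : ∀ y : F, y ≠ 0 → eta e y ≠ 0 → Δ (mono e a b) y = 0)
    {x : F} (hx : x ≠ 0) (he : eta e x ≠ 0) : HarmonicAt (mono e a b) x := by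
  refine ⟨mono_contDiffAt e a b hx he, ?_⟩
  filter_upwards [(good_open e).mem_nhds ⟨hx, he⟩] with y hy
  exact h y hy.1 hy.2

lemma inner_eq (e x : F) : inner ℝ e x = ‖x‖ - eta e x := by unfold eta; ring

variable [FiniteDimensional ℝ F]

lemma harmonic_three (bs : OrthonormalBasis (Fin 5) ℝ F) {x : F} (hx : x ≠ 0) :
    HarmonicAt (mono (0:F) 3 0) x := by
  apply mono_harmonic_of _ _ _ _ hx
  · unfold eta
    simpa using hx
  · intro y hy hey
    rw [laplacian_mono bs 0 3 0 hy hey]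
    have hr : ‖y‖ ≠ 0 := norm_ne_zero_iff.mpr hy
    simp [mono]
    field_simp
    ring

lemma harmonic_zero_one (bs : OrthonormalBasis (Fin 5) ℝ F) {e : F} (hn : ‖e‖ = 1) {x : F}
    (hx : x ≠ 0) (he : eta e x ≠ 0) : HarmonicAt (mono e 0 1) x := by
  apply mono_harmonic_of _ _ _ _ hx he
  intro y hy hey
  rw [laplacian_mono bs e 0 1 hy hey, hn, inner_eq]
  have hr : ‖y‖ ≠ 0 := norm_ne_zero_iff.mpr hy
  simp [mono]
  field_simp
  ring

lemma harmonic_one_one (bs : OrthonormalBasis (Fin 5) ℝ F) {e : F} (hn : ‖e‖ = 1) {x : F}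
    (hx : x ≠ 0) (he : eta e x ≠ 0) : HarmonicAt (mono e 1 1) x := by
  apply mono_harmonic_of _ _ _ _ hx he
  intro y hy hey
  rw [laplacian_mono bs e 1 1 hy hey, hn, inner_eq]
  have hr : ‖y‖ ≠ 0 := norm_ne_zero_iff.mpr hy
  simp [mono]
  field_simp
  ring

/-! weak maximum principle -/

lemma second_deriv_nonpos {f : F → ℝ} {x : F} (hf : ContDiffAt ℝ 2 f x) (hmax : IsLocalMax f x)
    (v : F) : fderiv ℝ (fderiv ℝ f) x v v ≤ 0 := by
  set φ : ℝ → ℝ := fun τ => f (x + τ • v) with hφ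
  have hline : Continuous (fun τ : ℝ => x + τ • v) := by fun_prop
  have hline0 : Tendsto (fun τ : ℝ => x + τ • v) (𝓝 0) (𝓝 x) := by
    have := hline.tendsto 0
    simpa using this
  have hlineD : ∀ τ : ℝ, HasDerivAt (fun τ : ℝ => x + τ • v) v τ := by
    intro τ
    have := ((hasDerivAt_id τ).smul_const v).const_add x
    simpa using this
  have hdiff : ∀ᶠ y in 𝓝 x, DifferentiableAt ℝ f y := by
    filter_upwards [hf.eventually (by simp)] with y hy
    exact hy.differentiableAt (by norm_num)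
  have hd1 : ∀ᶠ τ : ℝ in 𝓝 0, deriv φ τ = fderiv ℝ f (x + τ • v) v := by
    filter_upwards [hline0.eventually hdiff] with τ hτ
    exact (hτ.hasFDerivAt.comp_hasDerivAt τ (hlineD τ)).deriv
  have hdd : DifferentiableAt ℝ (fderiv ℝ f) x := by
    have h1 : ContDiffAt ℝ 1 (fderiv ℝ f) x := hf.fderiv_right (by norm_num)
    exact h1.differentiableAt (by norm_num)
  have hd2 : HasDerivAt (fun τ : ℝ => fderiv ℝ f (x + τ • v) v) (fderiv ℝ (fderiv ℝ f) x v v) 0 := by
    have h0 : x + (0:ℝ) • v = x := by simp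
    have h1 : HasFDerivAt (fderiv ℝ f) (fderiv ℝ (fderiv ℝ f) x) (x + (0:ℝ) • v) := by
      rw [h0]; exact hdd.hasFDerivAt
    have h2 := h1.comp_hasDerivAt (0:ℝ) (hlineD 0)
    have h3 := h2.clm_apply (hasDerivAt_const (0:ℝ) v)
    simpa using h3
  have hd3 : deriv (deriv φ) 0 = fderiv ℝ (fderiv ℝ f) x v v := by
    have : deriv φ =ᶠ[𝓝 0] fun τ : ℝ => fderiv ℝ f (x + τ • v) v := hd1
    rw [this.deriv_eq]
    exact hd2.deriv
  have hφmax : IsLocalMax φ 0 := by
    have h1 : ∀ᶠ y in 𝓝 x, f y ≤ f x := hmax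
    have h2 := hline0.eventually h1
    filter_upwards [h2] with τ hτ
    simpa [hφ] using hτ
  by_contra hcon
  push Not at hcon
  rw [← hd3] at hcon
  have hcont : ContinuousAt φ 0 := by
    have h0 : x + (0:ℝ) • v = x := by simp
    have h1 : ContinuousAt f (x + (0:ℝ) • v) := by rw [h0]; exact hf.continuousAt
    exact ContinuousAt.comp (f := fun τ : ℝ => x + τ • v) (g := f) h1 hline.continuousAt
  have hmin := isLocalMin_of_deriv_deriv_pos hcon hφmax.deriv_eq_zero hcont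
  have heq : φ =ᶠ[𝓝 0] fun _ => φ 0 := by
    filter_upwards [hφmax, hmin] with τ h1 h2
    exact le_antisymm h1 h2
  have h1 : deriv φ =ᶠ[𝓝 0] deriv (fun _ => φ 0) := heq.deriv
  have h2 : deriv (deriv φ) 0 = 0 := by
    rw [h1.deriv_eq]
    simp
  linarith

open Laplacian in
lemma laplacian_nonpos_of_isLocalMax {f : F → ℝ} {x : F} (hf : ContDiffAt ℝ 2 f x)
    (hmax : IsLocalMax f x) : Δ f x ≤ 0 := by
  rw [laplacian_eq_iteratedFDeriv_stdOrthonormalBasis f]
  apply Finset.sum_nonpos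
  intro i _
  rw [iteratedFDeriv_two_apply]
  exact second_deriv_nonpos hf hmax _

open Laplacian in
lemma laplacian_norm_sq (bs : OrthonormalBasis (Fin 5) ℝ F) (x : F) :
    Δ (fun y : F => ‖y‖ ^ 2) x = 10 := by
  have := laplacian_radial bs (f := fun y : F => ‖y‖ ^ 2) (A := fun _ => 2) (B := fun _ => 0)
    (e := 0) (x := x) (A1 := 0) (A2 := 0) (B1 := 0) (B2 := 0) ?_ ?_ ?_
  · rw [this]; norm_num
  · apply Eventually.of_forall
    intro y
    have h1 : HasFDerivAt (fun y : F => ‖y‖ ^ 2) (2 • innerSL ℝ y) y :=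
      (hasStrictFDerivAt_norm_sq y).hasFDerivAt
    refine h1.congr_fderiv ?_
    ext v
    simp
  · simpa using hasFDerivAt_const (2:ℝ) x
  · simpa using hasFDerivAt_const (0:ℝ) x

/-- weak maximum principle for harmonic functions on a bounded open set -/
lemma wmp (bs : OrthonormalBasis (Fin 5) ℝ F) {U : Set F} (hUo : IsOpen U)
    (hUb : Bornology.IsBounded U) {f : F → ℝ} (hf : HarmonicOnNhd f U)
    (hbd : ∀ ζ ∈ closure U, ζ ∉ U → ∀ ε > 0, ∀ᶠ y in 𝓝[U] ζ, f y < ε) :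
    ∀ x ∈ U, f x ≤ 0 := by
  by_contra hcon
  push Not at hcon
  obtain ⟨z0, hz0, hpos⟩ := hcon
  obtain ⟨R, hR, hRU⟩ := hUb.subset_closedBall_lt 0 0
  set a := f z0 / 3 with ha
  have ha0 : 0 < a := by positivity
  set K : Set F := {y | y ∈ U ∧ a ≤ f y} with hK
  have hKU : K ⊆ U := fun y hy => hy.1
  have hfc : ContinuousOn f U := hf.continuousOn
  have hKclosed : IsClosed K := by
    rw [← closure_subset_iff_isClosed]
    intro ζ hζ
    have hζU : ζ ∈ closure U := closure_mono hKU hζ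
    have hNe : (𝓝[K] ζ).NeBot := mem_closure_iff_nhdsWithin_neBot.mp hζ
    by_cases hU : ζ ∈ U
    · refine ⟨hU, ?_⟩
      have h1 : Tendsto f (𝓝[K] ζ) (𝓝 (f ζ)) :=
        ((hfc.continuousAt (hUo.mem_nhds hU)).tendsto).mono_left nhdsWithin_le_nhds
      apply ge_of_tendsto h1
      filter_upwards [self_mem_nhdsWithin] with y hy
      exact hy.2
    · exfalso
      have h1 := hbd ζ hζU hU a ha0
      have h2 : ∀ᶠ y in 𝓝[K] ζ, f y < a := h1.filter_mono (nhdsWithin_mono ζ hKU)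
      obtain ⟨y, hy1, hy2⟩ := (h2.and self_mem_nhdsWithin).exists
      exact absurd hy2.2 (not_le.mpr hy1)
  have hKc : IsCompact K := Metric.isCompact_of_isClosed_isBounded hKclosed (hUb.subset hKU)
  set φ : F → ℝ := fun y => f y + (a / R ^ 2) * ‖y‖ ^ 2 with hφ
  have hφc : ContinuousOn φ K := by
    apply ContinuousOn.add (hfc.mono hKU)
    fun_prop
  obtain ⟨y1, hy1, hmax⟩ := hKc.exists_isMaxOn ⟨z0, hz0, by rw [ha]; linarith⟩ hφc
  have hy1U := hKU hy1
  have hz0K : z0 ∈ K := ⟨hz0, by rw [ha]; linarith⟩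
  have h1 : φ z0 ≤ φ y1 := hmax hz0K
  have h2 : ‖y1‖ ^ 2 ≤ R ^ 2 := by
    have : ‖y1‖ ≤ R := by simpa using hRU hy1U
    gcongr
  have h3 : (a / R ^ 2) * ‖y1‖ ^ 2 ≤ a := by
    calc (a / R ^ 2) * ‖y1‖ ^ 2 ≤ (a / R ^ 2) * R ^ 2 := by gcongr
      _ = a := by field_simp
  have h4 : a < f y1 := by
    have h5 : 0 ≤ (a / R ^ 2) * ‖z0‖ ^ 2 := by positivity
    have h6 : f z0 = 3 * a := by rw [ha]; ring
    simp only [hφ] at h1
    linarith
  have hloc : IsLocalMax φ y1 := by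
    have h5 : ∀ᶠ y in 𝓝 y1, a < f y :=
      (hfc.continuousAt (hUo.mem_nhds hy1U)).eventually (lt_mem_nhds h4)
    filter_upwards [h5, hUo.mem_nhds hy1U] with y hy hyU
    exact hmax ⟨hyU, hy.le⟩
  have hcd1 : ContDiffAt ℝ 2 f y1 := (hf y1 hy1U).1
  have hcd2 : ContDiffAt ℝ 2 (fun y : F => ‖y‖ ^ 2) y1 := by
    exact (contDiff_norm_sq ℝ).contDiffAt
  have hcd3 : ContDiffAt ℝ 2 ((a / R ^ 2) • fun y : F => ‖y‖ ^ 2) y1 :=
    ContDiffAt.const_smul (a / R ^ 2) hcd2
  have hlap := laplacian_nonpos_of_isLocalMax (f := f + (a / R ^ 2) • fun y : F => ‖y‖ ^ 2)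
    (hcd1.add hcd3) hloc
  rw [hcd1.laplacian_add hcd3, laplacian_smul _ hcd2, laplacian_norm_sq bs,
    (hf y1 hy1U).2.self_of_nhds] at hlap
  have h7 : 0 < a / R ^ 2 := by positivity
  simp at hlap
  linarith

end

end Pool.Agent.Helper418.G
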