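import Mathlib
import Pool.Agent.Helper418.G1
open Metric Set Filter Topology InnerProductSpace

namespace Pool.Agent.Helper418.G

noncomputable section

variable {F : Type*} [NormedAddCommGroup F] [InnerProductSpace ℝ F]

/-- the small constant -/
def cc : ℝ := 1 / 10 ^ 12

/-- the domain -/
def D5 (e p : F) : Set F := {x | cc * (1 + ‖x‖) * ‖x - p‖ ^ 3 < ‖x‖ * eta e x}

/-- the correction term -/
def P5 (e : F) (x : F) : ℝ := cc * (mono e 1 1 x + mono e 0 1 x)

/-- real-valued Green function off the pole -/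
def G5 (e p : F) (x : F) : ℝ := mono 0 3 0 (x - p) - P5 e x

lemma eta_nonneg {e : F} (he : ‖e‖ = 1) (x : F) : 0 ≤ eta e x := by
  unfold eta
  have := real_inner_le_norm e x
  rw [he] at this
  linarith

lemma Phi_eq (p x : F) : mono (0:F) 3 0 (x - p) = (‖x - p‖ ^ 3)⁻¹ := by
  unfold mono; simp

lemma P5_eq {e : F} {x : F} (hx : 0 < ‖x‖ * eta e x) :
    P5 e x = cc * (1 + ‖x‖) / (‖x‖ * eta e x) := by
  have h1 : ‖x‖ ≠ 0 := left_ne_zero_of_mul hx.ne'
  have h2 : eta e x ≠ 0 := right_ne_zero_of_mul hx.ne'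
  unfold P5 mono
  field_simp

lemma D5_pos {e p : F} {x : F} (hx : x ∈ D5 e p) : 0 < ‖x‖ * eta e x := by
  have h1 : cc * (1 + ‖x‖) * ‖x - p‖ ^ 3 < ‖x‖ * eta e x := hx
  have h2 : 0 ≤ cc * (1 + ‖x‖) * ‖x - p‖ ^ 3 := by unfold cc; positivity
  linarith

lemma ne_of_pos {e : F} {x : F} (hx : 0 < ‖x‖ * eta e x) : x ≠ 0 ∧ eta e x ≠ 0 := by
  have h1 : ‖x‖ ≠ 0 := left_ne_zero_of_mul hx.ne'
  exact ⟨norm_ne_zero_iff.mp h1, right_ne_zero_of_mul hx.ne'⟩

lemma continuous_eta (e : F) : Continuous (eta e) := by unfold eta; fun_prop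

lemma isOpen_D5 (e p : F) : IsOpen (D5 e p) := by
  apply isOpen_lt
  · fun_prop
  · exact continuous_norm.mul (continuous_eta e)

lemma G5_pos_iff {e p x : F} (hx : 0 < ‖x‖ * eta e x) (hxp : x ≠ p) :
    0 < G5 e p x ↔ x ∈ D5 e p := by
  have hq : 0 < ‖x - p‖ ^ 3 := by
    have : 0 < ‖x - p‖ := norm_pos_iff.mpr (sub_ne_zero.mpr hxp)
    positivity
  unfold G5
  rw [Phi_eq, P5_eq hx, sub_pos, div_lt_iff₀ hx, inv_mul_eq_div, lt_div_iff₀ hq]
  rfl

lemma G5_pos {e p x : F} (hx : x ∈ D5 e p) (hxp : x ≠ p) : 0 < G5 e p x :=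
  (G5_pos_iff (D5_pos hx) hxp).mpr hx

lemma continuousAt_P5 {e : F} {x : F} (hx : 0 < ‖x‖ * eta e x) : ContinuousAt (P5 e) x := by
  obtain ⟨h1, h2⟩ := ne_of_pos hx
  have ha := (mono_contDiffAt e 1 1 h1 h2).continuousAt
  have hb := (mono_contDiffAt e 0 1 h1 h2).continuousAt
  exact continuousAt_const.mul (ha.add hb)

lemma continuousAt_Phi {p x : F} (hxp : x ≠ p) :
    ContinuousAt (fun y => mono (0:F) 3 0 (y - p)) x := by
  have h : (fun y : F => mono (0:F) 3 0 (y - p)) = fun y => (‖y - p‖ ^ 3)⁻¹ := by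
    funext y; exact Phi_eq p y
  rw [h]
  have h1 : ‖x - p‖ ^ 3 ≠ 0 := pow_ne_zero 3 (norm_ne_zero_iff.mpr (sub_ne_zero.mpr hxp))
  exact ContinuousAt.inv₀ (by fun_prop) h1

lemma continuousAt_G5 {e p x : F} (hx : 0 < ‖x‖ * eta e x) (hxp : x ≠ p) :
    ContinuousAt (G5 e p) x := (continuousAt_Phi hxp).sub (continuousAt_P5 hx)

variable [FiniteDimensional ℝ F]

open Laplacian in
lemma harmonicAt_comp_sub {f : F → ℝ} {p x : F} (hf : HarmonicAt f (x - p)) :
    HarmonicAt (fun y => f (y - p)) x := by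
  have hc : Continuous (fun y : F => y - p) := by fun_prop
  constructor
  · have h1 : ContDiffAt ℝ 2 (fun y : F => y - p) x := by fun_prop
    exact ContDiffAt.comp (f := fun y : F => y - p) (g := f) x hf.1 h1
  · have h2 : ∀ᶠ y in 𝓝 x, (Δ f) (y - p) = 0 := (hc.tendsto x).eventually hf.2
    filter_upwards [h2] with y hy
    rw [Pi.zero_apply]
    rw [← hy, laplacian_eq_iteratedFDeriv_stdOrthonormalBasis,
      laplacian_eq_iteratedFDeriv_stdOrthonormalBasis]
    simp only [iteratedFDeriv_comp_sub]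

lemma harmonic_Phi (bs : OrthonormalBasis (Fin 5) ℝ F) {p x : F} (hxp : x ≠ p) :
    HarmonicAt (fun y => mono (0:F) 3 0 (y - p)) x :=
  harmonicAt_comp_sub (harmonic_three bs (sub_ne_zero.mpr hxp))

lemma harmonic_P5 (bs : OrthonormalBasis (Fin 5) ℝ F) {e : F} (hn : ‖e‖ = 1) {x : F}
    (hx : 0 < ‖x‖ * eta e x) : HarmonicAt (P5 e) x := by
  obtain ⟨h1, h2⟩ := ne_of_pos hx
  have h3 := ((harmonic_one_one bs hn h1 h2).add (harmonic_zero_one bs hn h1 h2)).const_smul (c := cc)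
  exact h3

lemma harmonic_G5 (bs : OrthonormalBasis (Fin 5) ℝ F) {e : F} (hn : ‖e‖ = 1) {p x : F}
    (hx : 0 < ‖x‖ * eta e x) (hxp : x ≠ p) : HarmonicAt (G5 e p) x :=
  (harmonic_Phi bs hxp).sub (harmonic_P5 bs hn hx)

lemma harmonic_affine (bs : OrthonormalBasis (Fin 5) ℝ F) (v : F) (a b : ℝ) (x : F) :
    HarmonicAt (fun y : F => a * inner ℝ v y + b) x := by
  constructor
  · exact (contDiffAt_const.mul (innerSL ℝ v).contDiff.contDiffAt).add contDiffAt_const
  · apply Eventually.of_forall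
    intro y
    have := laplacian_radial bs (f := fun y : F => a * inner ℝ v y + b) (A := fun _ => 0)
      (B := fun _ => a) (e := v) (x := y) (A1 := 0) (A2 := 0) (B1 := 0) (B2 := 0) ?_ ?_ ?_
    · rw [this]; simp
    · apply Eventually.of_forall
      intro z
      have h1 : HasFDerivAt (fun y : F => a * inner ℝ v y + b) (a • innerSL ℝ v) z :=
        (((innerSL ℝ v).hasFDerivAt (x := z)).const_mul a).add_const b
      refine h1.congr_fderiv ?_
      ext v
      simp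
    · simpa using hasFDerivAt_const (0:ℝ) y
    · simpa using hasFDerivAt_const (a:ℝ) y

end

end Pool.Agent.Helper418.G
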