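import Mathlib
import Pool.Agent.Helper418.G2
open Metric Set Filter Topology InnerProductSpace

namespace Pool.Agent.Helper418.G

noncomputable section

variable {F : Type*} [NormedAddCommGroup F] [InnerProductSpace ℝ F]

lemma eta_le {e : F} (he : ‖e‖ = 1) (x : F) : eta e x ≤ 2 * ‖x‖ := by
  unfold eta
  have := abs_real_inner_le_norm e x
  rw [he] at this
  have := (abs_le.mp this).1
  linarith

lemma D5_bounded {e p : F} (he : ‖e‖ = 1) (hp : ‖p‖ = 3) : D5 e p ⊆ closedBall 0 (10 ^ 7) := by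
  intro x hx
  rw [mem_closedBall, dist_zero_right]
  by_contra hcon
  push Not at hcon
  have h1 : cc * (1 + ‖x‖) * ‖x - p‖ ^ 3 < ‖x‖ * eta e x := hx
  have h2 := eta_le he x
  have h3 : ‖x‖ - ‖p‖ ≤ ‖x - p‖ := norm_sub_norm_le x p
  set r := ‖x‖ with hr
  have h4 : r / 2 ≤ ‖x - p‖ := by rw [hp] at h3; linarith
  have h5 : (r / 2) ^ 3 ≤ ‖x - p‖ ^ 3 := by gcongr
  have h6 : cc * r * (r / 2) ^ 3 ≤ cc * (1 + r) * ‖x - p‖ ^ 3 := by
    unfold cc
    gcongr
    linarith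
  have h7 : r * eta e x ≤ r * (2 * r) := by gcongr
  have h8 : cc * r * (r / 2) ^ 3 < r * (2 * r) := by linarith
  have h9 : (10 ^ 14 : ℝ) < r ^ 2 := by nlinarith
  have h10 : 0 < r ^ 2 := by positivity
  unfold cc at h8
  have h11 : r ^ 2 * r ^ 2 < 16 * 10 ^ 12 * r ^ 2 := by nlinarith
  have h12 : r ^ 2 < 16 * 10 ^ 12 := lt_of_mul_lt_mul_right h11 h10.le
  linarith

lemma Apos_p {e p : F} (hp : ‖p‖ = 3) (hep : inner ℝ e p = 1) :
    0 < ‖p‖ * eta e p := by
  unfold eta; rw [hp, hep]; norm_num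

lemma p_mem {e p : F} (hp : ‖p‖ = 3) (hep : inner ℝ e p = 1) : p ∈ D5 e p := by
  change cc * (1 + ‖p‖) * ‖p - p‖ ^ 3 < ‖p‖ * eta e p
  have := Apos_p hp hep
  simpa using this

lemma tendsto_Phi (p : F) : Tendsto (fun y : F => mono (0:F) 3 0 (y - p)) (𝓝[≠] p) atTop := by
  have h : (fun y : F => mono (0:F) 3 0 (y - p)) = fun y => (‖y - p‖ ^ 3)⁻¹ := by
    funext y; exact Phi_eq p y
  rw [h]
  apply Tendsto.inv_tendsto_nhdsGT_zero
  rw [tendsto_nhdsWithin_iff]
  constructor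
  · have hc : Continuous (fun y : F => ‖y - p‖ ^ 3) := by fun_prop
    have := hc.tendsto p
    simp only [sub_self, norm_zero] at this
    have h0 : (0:ℝ) ^ 3 = 0 := by norm_num
    rw [h0] at this
    exact this.mono_left nhdsWithin_le_nhds
  · filter_upwards [self_mem_nhdsWithin] with y hy
    have : 0 < ‖y - p‖ := norm_pos_iff.mpr (sub_ne_zero.mpr hy)
    simp only [mem_Ioi]
    positivity

lemma tendsto_G5 {e p : F} (hp : ‖p‖ = 3) (hep : inner ℝ e p = 1) :
    Tendsto (G5 e p) (𝓝[≠] p) atTop := by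
  have h1 : Tendsto (P5 e) (𝓝[≠] p) (𝓝 (P5 e p)) :=
    (continuousAt_P5 (Apos_p hp hep)).tendsto.mono_left nhdsWithin_le_nhds
  exact (tendsto_Phi p).atTop_add h1.neg

variable [FiniteDimensional ℝ F]

lemma comparison_G (bs : OrthonormalBasis (Fin 5) ℝ F) {e p : F} (he : ‖e‖ = 1) (hp : ‖p‖ = 3)
    (hep : inner ℝ e p = 1) {c : F} {r : ℝ} (hsub : closedBall c r ⊆ D5 e p)
    {H : F → ℝ} (hHc : ContinuousOn H (closedBall c r)) (hHh : HarmonicOnNhd H (ball c r))
    (hle : ∀ y ∈ sphere c r, y ≠ p → H y ≤ G5 e p y) :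
    ∀ y ∈ closedBall c r, y ≠ p → H y ≤ G5 e p y := by
  set U : Set F := ball c r \ {p} with hU
  have hUo : IsOpen U := isOpen_ball.sdiff isClosed_singleton
  have hUb : Bornology.IsBounded U := isBounded_ball.subset sdiff_subset
  have hUcl : closure U ⊆ closedBall c r :=
    (closure_mono sdiff_subset).trans closure_ball_subset_closedBall
  have hUsub : U ⊆ closedBall c r := sdiff_subset.trans ball_subset_closedBall
  have hharm : HarmonicOnNhd (H - G5 e p) U := by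
    intro y hy
    have hyD : y ∈ D5 e p := hsub (hUsub hy)
    exact (hHh y hy.1).sub (harmonic_G5 bs he (D5_pos hyD) hy.2)
  have hw := wmp bs hUo hUb hharm ?_
  · intro y hy hyp
    rcases eq_or_lt_of_le (mem_closedBall.mp hy) with h | h
    · exact hle y h hyp
    · have := hw y ⟨h, hyp⟩
      simp only [Pi.sub_apply] at this
      linarith
  · intro ζ hζ hζU ε hε
    have hζB : ζ ∈ closedBall c r := hUcl hζ
    have hζD : ζ ∈ D5 e p := hsub hζB
    have hHt : Tendsto H (𝓝[U] ζ) (𝓝 (H ζ)) :=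
      (hHc ζ hζB).mono_left (nhdsWithin_mono ζ hUsub)
    by_cases hζp : ζ = p
    · subst hζp
      have h1 : ∀ᶠ y in 𝓝[U] ζ, H y < H ζ + 1 :=
        hHt.eventually (gt_mem_nhds (by linarith))
      have h2 : ∀ᶠ y in 𝓝[U] ζ, H ζ + 1 < G5 e ζ y := by
        have h3 := (tendsto_G5 (e := e) hp hep).eventually (eventually_gt_atTop (H ζ + 1))
        exact h3.filter_mono (nhdsWithin_mono ζ (fun y hy => hy.2))
      filter_upwards [h1, h2] with y h3 h4
      simp only [Pi.sub_apply]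
      linarith
    · have hsph : ζ ∈ sphere c r := by
        rcases eq_or_lt_of_le (mem_closedBall.mp hζB) with h | h
        · exact h
        · exact absurd ⟨h, hζp⟩ hζU
      have h1 := hle ζ hsph hζp
      have h2 : Tendsto (G5 e p) (𝓝[U] ζ) (𝓝 (G5 e p ζ)) :=
        (continuousAt_G5 (D5_pos hζD) hζp).tendsto.mono_left nhdsWithin_le_nhds
      have h3 := hHt.sub h2
      exact h3.eventually (gt_mem_nhds (by linarith))

lemma isPreconnected_D5 (bs : OrthonormalBasis (Fin 5) ℝ F) {e p : F} (he : ‖e‖ = 1)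
    (hp : ‖p‖ = 3) (hep : inner ℝ e p = 1) : IsPreconnected (D5 e p) := by
  have key : ∀ u v : Set F, IsOpen u → IsOpen v → D5 e p ⊆ u ∪ v → p ∈ u →
      (D5 e p ∩ v).Nonempty → (D5 e p ∩ (u ∩ v)).Nonempty := by
    intro u v hu hv huv hpu hne
    by_contra hcon
    rw [not_nonempty_iff_eq_empty] at hcon
    set B : Set F := D5 e p ∩ v with hB
    have hBo : IsOpen B := (isOpen_D5 e p).inter hv
    have hBb : Bornology.IsBounded B :=
      isBounded_closedBall.subset (inter_subset_left.trans (D5_bounded he hp))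
    have hpB : ∀ y ∈ B, y ≠ p := by
      rintro y hy rfl
      have : y ∈ D5 e y ∩ (u ∩ v) := ⟨hy.1, hpu, hy.2⟩
      rw [hcon] at this
      exact this
    have hharm : HarmonicOnNhd (G5 e p) B := fun y hy => harmonic_G5 bs he (D5_pos hy.1) (hpB y hy)
    have hw := wmp bs hBo hBb hharm ?_
    · obtain ⟨y, hy⟩ := hne
      have h1 := hw y hy
      have h2 := G5_pos hy.1 (hpB y hy)
      linarith
    · intro ζ hζ hζB ε hε
      have hζD : ζ ∉ D5 e p := by
        intro hζD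
        rcases huv hζD with h | h
        · have h1 := mem_closure_iff.mp hζ u hu h
          obtain ⟨y, hy1, hy2⟩ := h1
          have : y ∈ D5 e p ∩ (u ∩ v) := ⟨hy2.1, hy1, hy2.2⟩
          rw [hcon] at this
          exact this
        · exact hζB ⟨hζD, h⟩
      have h1 : ‖ζ‖ * eta e ζ ≤ cc * (1 + ‖ζ‖) * ‖ζ - p‖ ^ 3 := not_lt.mp hζD
      have h2 : cc * (1 + ‖ζ‖) * ‖ζ - p‖ ^ 3 ≤ ‖ζ‖ * eta e ζ := by
        have h3 : ζ ∈ closure (D5 e p) := closure_mono inter_subset_left hζ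
        have h4 : closure (D5 e p) ⊆ {x | cc * (1 + ‖x‖) * ‖x - p‖ ^ 3 ≤ ‖x‖ * eta e x} := by
          apply closure_minimal
          · intro x hx
            have hx' : cc * (1 + ‖x‖) * ‖x - p‖ ^ 3 < ‖x‖ * eta e x := hx
            exact hx'.le
          · apply isClosed_le
            · fun_prop
            · exact continuous_norm.mul (continuous_eta e)
        exact h4 h3
      have hζp : ζ ≠ p := by
        rintro rfl
        exact hζD (p_mem hp hep)
      have h3 : 0 < ‖ζ - p‖ := norm_pos_iff.mpr (sub_ne_zero.mpr hζp)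
      have h4 : 0 < ‖ζ‖ * eta e ζ := by
        refine lt_of_lt_of_le ?_ h2
        unfold cc
        positivity
      have h5 : G5 e p ζ = 0 := by
        unfold G5
        rw [Phi_eq, P5_eq h4, sub_eq_zero, eq_div_iff h4.ne', inv_mul_eq_div,
          div_eq_iff (by positivity)]
        linarith
      have h6 : Tendsto (G5 e p) (𝓝[B] ζ) (𝓝 (G5 e p ζ)) :=
        (continuousAt_G5 h4 hζp).tendsto.mono_left nhdsWithin_le_nhds
      rw [h5] at h6
      exact h6.eventually (gt_mem_nhds hε)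
  intro u v hu hv huv hneu hnev
  rcases huv (p_mem (e := e) hp hep) with h | h
  · exact key u v hu hv huv h hnev
  · rw [inter_comm u v]
    exact key v u hv hu (by rwa [union_comm]) h hneu

/-- minimality: real-valued core -/
lemma minimality (bs : OrthonormalBasis (Fin 5) ℝ F) {e p : F} (he : ‖e‖ = 1) (hp : ‖p‖ = 3)
    (hep : inner ℝ e p = 1) {h : F → EReal} (hlsc : LowerSemicontinuousOn h (D5 e p))
    (hpos : ∀ x ∈ D5 e p, 0 < h x)
    (hcomp : ∀ (c : F) (r : ℝ), 0 < r → closedBall c r ⊆ D5 e p → ∀ H : F → ℝ,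
      ContinuousOn H (closedBall c r) → HarmonicOnNhd H (ball c r) →
      (∀ y ∈ sphere c r, (H y : EReal) ≤ h y) → ∀ y ∈ closedBall c r, (H y : EReal) ≤ h y)
    {K : F → ℝ} (hK : HarmonicAt K p)
    (hpole : ∀ᶠ y in 𝓝[≠] p, h y = ((mono (0:F) 3 0 (y - p) + K y : ℝ) : EReal)) :
    ∀ x ∈ D5 e p, x ≠ p → (G5 e p x : EReal) ≤ h x := by
  intro x₁ hx₁ hx₁p
  by_contra hcon
  push Not at hcon
  have hG1 := G5_pos hx₁ hx₁p
  -- h x₁ is real
  have hbot : ∀ y ∈ D5 e p, h y ≠ ⊥ := fun y hy hb => by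
    have := hpos y hy
    rw [hb] at this
    exact absurd this (by simp)
  have hx₁top : h x₁ ≠ ⊤ := ne_top_of_lt hcon
  obtain ⟨h₁, hh₁⟩ : ∃ a : ℝ, h x₁ = (a : EReal) :=
    ⟨(h x₁).toReal, (EReal.coe_toReal hx₁top (hbot x₁ hx₁)).symm⟩
  rw [hh₁, EReal.coe_lt_coe_iff] at hcon
  have hh₁pos : 0 < h₁ := by
    have := hpos x₁ hx₁
    rw [hh₁] at this
    exact_mod_cast this
  -- choose ε
  set ε : ℝ := (G5 e p x₁ - h₁) / (2 * G5 e p x₁) with hε
  have hε0 : 0 < ε := by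
    apply div_pos <;> linarith
  have hε1 : ε < 1 := by
    rw [hε, div_lt_one (by linarith)]
    linarith
  have hεG : ε * G5 e p x₁ = (G5 e p x₁ - h₁) / 2 := by
    rw [hε]; field_simp
  set a : ℝ := (1 - ε) * G5 e p x₁ - h₁ with ha
  have ha0 : 0 < a := by
    rw [ha]; nlinarith
  set κ : ℝ := a / (4 * 10 ^ 14) with hκ
  have hκ0 : 0 < κ := by positivity
  have hκD : ∀ y ∈ D5 e p, κ * ‖y‖ ^ 2 ≤ a / 4 := by
    intro y hy
    have h1 : ‖y‖ ≤ 10 ^ 7 := by simpa using D5_bounded he hp hy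
    have h2 : ‖y‖ ^ 2 ≤ (10 ^ 7) ^ 2 := by gcongr
    calc κ * ‖y‖ ^ 2 ≤ κ * (10 ^ 7) ^ 2 := by gcongr
      _ = a / 4 := by rw [hκ]; ring
  -- near the pole
  obtain ⟨ρ, hρ0, hρ⟩ : ∃ ρ > 0, ∀ y, y ≠ p → dist y p < ρ →
      (((1 - ε) * G5 e p y : ℝ) : EReal) ≤ h y := by
    have h1 : ∀ᶠ y in 𝓝[≠] p, K y > K p - 1 := by
      have := hK.1.continuousAt.tendsto.mono_left (nhdsWithin_le_nhds (s := {p}ᶜ))
      exact this.eventually (lt_mem_nhds (by linarith))
    have h2 : ∀ᶠ y in 𝓝[≠] p, -(1 - ε) * P5 e y < -(1 - ε) * P5 e p + 1 := by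
      have := (continuousAt_P5 (Apos_p hp hep)).tendsto.mono_left (nhdsWithin_le_nhds (s := {p}ᶜ))
      exact (this.const_mul (-(1 - ε))).eventually (gt_mem_nhds (by linarith))
    have h3 : ∀ᶠ y in 𝓝[≠] p, (2 - K p + -(1 - ε) * P5 e p) / ε < mono (0:F) 3 0 (y - p) :=
      (tendsto_Phi p).eventually (eventually_gt_atTop _)
    have h4 : ∀ᶠ y in 𝓝[≠] p, (((1 - ε) * G5 e p y : ℝ) : EReal) ≤ h y := by
      filter_upwards [h1, h2, h3, hpole] with y h1 h2 h3 h4
      rw [h4, EReal.coe_le_coe_iff]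
      unfold G5
      rw [div_lt_iff₀ hε0] at h3
      nlinarith
    rw [eventually_nhdsWithin_iff, Metric.eventually_nhds_iff] at h4
    obtain ⟨ρ, hρ0, h5⟩ := h4
    exact ⟨ρ, hρ0, fun y hyp hy => h5 hy hyp⟩
  -- compact set
  set C : Set F := {y | ρ ≤ dist y p ∧
    ‖y - p‖ ^ 3 * ((a / 2) * (‖y‖ * eta e y) + cc * (1 + ‖y‖)) ≤ ‖y‖ * eta e y} with hC
  have hCp : ∀ y ∈ C, y ≠ p := by
    rintro y hy rfl
    have := hy.1
    rw [dist_self] at this
    linarith
  have hCD : C ⊆ D5 e p := by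
    intro y hy
    have hyp := hCp y hy
    have h1 : 0 < ‖y - p‖ := norm_pos_iff.mpr (sub_ne_zero.mpr hyp)
    have h2 := hy.2
    have h3 : 0 ≤ ‖y‖ * eta e y := mul_nonneg (norm_nonneg y) (eta_nonneg he y)
    have h4 : 0 < ‖y - p‖ ^ 3 * (cc * (1 + ‖y‖)) := by unfold cc; positivity
    have h5 : 0 ≤ ‖y - p‖ ^ 3 * ((a / 2) * (‖y‖ * eta e y)) := by positivity
    have h6 : 0 < ‖y‖ * eta e y := by nlinarith
    have h7 : 0 < ‖y - p‖ ^ 3 * ((a / 2) * (‖y‖ * eta e y)) := by positivity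
    change cc * (1 + ‖y‖) * ‖y - p‖ ^ 3 < ‖y‖ * eta e y
    nlinarith
  have hCclosed : IsClosed C := by
    have hce := continuous_eta e
    have h1 : IsClosed {y : F | ρ ≤ dist y p} := isClosed_le continuous_const (by fun_prop)
    have h2 : IsClosed {y : F | ‖y - p‖ ^ 3 * ((a / 2) * (‖y‖ * eta e y) + cc * (1 + ‖y‖)) ≤
        ‖y‖ * eta e y} := isClosed_le (by fun_prop) (by fun_prop)
    exact h1.inter h2
  have hCc : IsCompact C := Metric.isCompact_of_isClosed_isBounded hCclosed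
    (isBounded_closedBall.subset (hCD.trans (D5_bounded he hp)))
  -- characterisation of the complement of C
  have hnotC : ∀ y ∈ D5 e p, y ≠ p → y ∉ C → dist y p < ρ ∨ G5 e p y < a / 2 := by
    intro y hy hyp hyC
    by_contra hcon2
    push Not at hcon2
    apply hyC
    refine ⟨hcon2.1, ?_⟩
    have hA := D5_pos hy
    have h1 : 0 < ‖y - p‖ := norm_pos_iff.mpr (sub_ne_zero.mpr hyp)
    have h2 := hcon2.2
    unfold G5 at h2
    rw [Phi_eq, P5_eq hA] at h2
    have h3 : a / 2 + cc * (1 + ‖y‖) / (‖y‖ * eta e y) ≤ (‖y - p‖ ^ 3)⁻¹ := by linarith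
    rw [le_inv_comm₀ (by unfold cc; positivity) (by positivity)] at h3
    have h4 : (a / 2 + cc * (1 + ‖y‖) / (‖y‖ * eta e y)) * (‖y‖ * eta e y) =
        (a / 2) * (‖y‖ * eta e y) + cc * (1 + ‖y‖) := by
      obtain ⟨h5, h6⟩ := ne_of_pos hA
      field_simp
    have h5 : 0 < a / 2 + cc * (1 + ‖y‖) / (‖y‖ * eta e y) := by unfold cc; positivity
    rw [← h4]
    calc ‖y - p‖ ^ 3 * ((a / 2 + cc * (1 + ‖y‖) / (‖y‖ * eta e y)) * (‖y‖ * eta e y))
        ≤ (a / 2 + cc * (1 + ‖y‖) / (‖y‖ * eta e y))⁻¹ *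
          ((a / 2 + cc * (1 + ‖y‖) / (‖y‖ * eta e y)) * (‖y‖ * eta e y)) := by gcongr
      _ = ‖y‖ * eta e y := by rw [← mul_assoc, inv_mul_cancel₀ h5.ne', one_mul]
  have hx₁C : x₁ ∈ C := by
    by_contra hx₁C
    rcases hnotC x₁ hx₁ hx₁p hx₁C with h1 | h1
    · have := hρ x₁ hx₁p h1
      rw [hh₁, EReal.coe_le_coe_iff] at this
      linarith
    · nlinarith
  -- minimise
  set KK : F → ℝ := fun y => (1 - ε) * G5 e p y + κ * ‖y‖ ^ 2 with hKK
  have hKKc : ∀ y ∈ D5 e p, y ≠ p → ContinuousAt KK y := by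
    intro y hy hyp
    exact (continuousAt_const.mul (continuousAt_G5 (D5_pos hy) hyp)).add (by fun_prop)
  set V : F → EReal := fun y => h y + ((-KK y : ℝ) : EReal) with hV
  have hVlsc : LowerSemicontinuousOn V C := by
    apply LowerSemicontinuousOn.add'
    · exact hlsc.mono hCD
    · apply ContinuousOn.lowerSemicontinuousOn
      intro y hy
      have h1 := (hKKc y (hCD hy) (hCp y hy)).neg
      exact (continuous_coe_real_ereal.continuousAt.comp h1).continuousWithinAt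
    · intro y hy
      apply EReal.continuousAt_add
      · right; exact EReal.coe_ne_bot _
      · right; exact EReal.coe_ne_top _
  obtain ⟨x₃, hx₃C, hmin⟩ := hVlsc.exists_isMinOn ⟨x₁, hx₁C⟩ hCc
  have hx₃D := hCD hx₃C
  have hx₃p := hCp x₃ hx₃C
  have hV31 : V x₃ ≤ V x₁ := hmin hx₁C
  have hx₃top : h x₃ ≠ ⊤ := by
    intro htop
    have h1 : V x₃ = ⊤ := by
      simp only [hV, htop]
      exact EReal.top_add_coe _
    have h2 : V x₁ = ((h₁ + -KK x₁ : ℝ) : EReal) := by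
      simp only [hV, hh₁]
      rw [← EReal.coe_add]
    rw [h1, h2] at hV31
    exact absurd hV31 (not_le.mpr (EReal.coe_lt_top _))
  obtain ⟨h₃, hh₃⟩ : ∃ a : ℝ, h x₃ = (a : EReal) :=
    ⟨(h x₃).toReal, (EReal.coe_toReal hx₃top (hbot x₃ hx₃D)).symm⟩
  have h31 : h₃ - KK x₃ ≤ h₁ - KK x₁ := by
    simp only [hV, hh₁, hh₃] at hV31
    rw [← EReal.coe_add, ← EReal.coe_add, EReal.coe_le_coe_iff] at hV31
    linarith
  have hglob : ∀ y ∈ D5 e p, y ≠ p → ((h₃ - KK x₃ + KK y : ℝ) : EReal) ≤ h y := by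
    intro y hy hyp
    by_cases hytop : h y = ⊤
    · rw [hytop]; exact le_top
    obtain ⟨hy', hhy⟩ : ∃ a : ℝ, h y = (a : EReal) :=
      ⟨(h y).toReal, (EReal.coe_toReal hytop (hbot y hy)).symm⟩
    rw [hhy, EReal.coe_le_coe_iff]
    have hyD := hκD y hy
    have hypos : 0 < hy' := by
      have := hpos y hy
      rw [hhy] at this
      exact_mod_cast this
    have hKK1 : KK x₁ ≥ (1 - ε) * G5 e p x₁ := by
      simp only [hKK]
      have : 0 ≤ κ * ‖x₁‖ ^ 2 := by positivity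
      linarith
    by_cases hyC : y ∈ C
    · have h1 : V x₃ ≤ V y := hmin hyC
      simp only [hV, hhy, hh₃] at h1
      rw [← EReal.coe_add, ← EReal.coe_add, EReal.coe_le_coe_iff] at h1
      linarith
    · rcases hnotC y hy hyp hyC with h1 | h1
      · have h2 := hρ y hyp h1
        rw [hhy, EReal.coe_le_coe_iff] at h2
        simp only [hKK] at h31 hKK1 ⊢
        linarith
      · have hGy := G5_pos hy hyp
        simp only [hKK] at h31 hKK1 ⊢
        nlinarith
  -- the small ball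
  have hopen : IsOpen (D5 e p \ {p}) := (isOpen_D5 e p).sdiff isClosed_singleton
  obtain ⟨R, hR0, hR⟩ := Metric.nhds_basis_closedBall.mem_iff.mp (hopen.mem_nhds ⟨hx₃D, hx₃p⟩)
  set Hc : F → ℝ := fun y => (1 - ε) * G5 e p y +
    ((2 * κ) * inner ℝ x₃ y + (κ * (R ^ 2 - ‖x₃‖ ^ 2) + (h₃ - KK x₃))) with hHc
  have hHharm : HarmonicOnNhd Hc (closedBall x₃ R) := by
    intro y hy
    have hyD := hR hy
    have h1 : HarmonicAt ((1 - ε) • G5 e p) y :=
      (harmonic_G5 bs he (D5_pos hyD.1) hyD.2).const_smul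
    exact h1.add (harmonic_affine bs x₃ (2 * κ) (κ * (R ^ 2 - ‖x₃‖ ^ 2) + (h₃ - KK x₃)) y)
  have hfin := hcomp x₃ R hR0 (hR.trans sdiff_subset) Hc hHharm.continuousOn
    (hHharm.mono ball_subset_closedBall) ?_ x₃ (mem_closedBall_self hR0.le)
  · rw [hh₃, EReal.coe_le_coe_iff] at hfin
    simp only [hHc, hKK, real_inner_self_eq_norm_sq] at hfin
    have : 0 < κ * R ^ 2 := by positivity
    nlinarith
  · intro y hy
    have hyD := hR (sphere_subset_closedBall hy)
    have h1 := hglob y hyD.1 hyD.2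
    refine le_trans (le_of_eq ?_) h1
    congr 1
    have h2 : ‖y - x₃‖ = R := by
      have := mem_sphere.mp hy
      rwa [dist_eq_norm] at this
    have h3 : ‖y - x₃‖ ^ 2 = ‖y‖ ^ 2 - 2 * inner ℝ x₃ y + ‖x₃‖ ^ 2 := by
      rw [norm_sub_sq_real, real_inner_comm]
    rw [h2] at h3
    simp only [hHc, hKK]
    have h4 : ‖y‖ ^ 2 = R ^ 2 + 2 * inner ℝ x₃ y - ‖x₃‖ ^ 2 := by linarith
    rw [h4]
    ring

end

end Pool.Agent.Helper418.G
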