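import Mathlib
import Pool.Agent.Helper418.G3
open Metric Set Filter Topology InnerProductSpace

namespace Pool.Agent.Helper418.G

noncomputable section

variable {F : Type*} [NormedAddCommGroup F] [InnerProductSpace ℝ F]

lemma norm_sub_lower {p x : F} (hp : ‖p‖ = 3) : ‖x‖ - 3 ≤ ‖x - p‖ := by
  have := norm_sub_norm_le x p
  rwa [hp] at this

lemma acc_far {e p y : F} (hp : ‖p‖ = 3) (hy : y ∉ D5 e p)
    (hr : 10 ≤ ‖y‖) {s : ℝ} (hs : 0 ≤ s) : y + s • (‖y‖⁻¹ • y) ∉ D5 e p := by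
  have hr0 : 0 < ‖y‖ := by linarith
  have h1 : ‖y‖ * eta e y ≤ cc * (1 + ‖y‖) * ‖y - p‖ ^ 3 := not_lt.mp hy
  set μ : ℝ := s * ‖y‖⁻¹ with hμ
  have hμ0 : 0 ≤ μ := by positivity
  have h2 : y + s • (‖y‖⁻¹ • y) = (1 + μ) • y := by
    rw [smul_smul, add_smul, one_smul]
  rw [h2]
  intro hmem
  have h3 : cc * (1 + ‖(1 + μ) • y‖) * ‖(1 + μ) • y - p‖ ^ 3 <
    ‖(1 + μ) • y‖ * eta e ((1 + μ) • y) := hmem
  have h4 : ‖(1 + μ) • y‖ = (1 + μ) * ‖y‖ := by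
    rw [norm_smul, Real.norm_of_nonneg (by linarith)]
  have h5 : eta e ((1 + μ) • y) = (1 + μ) * eta e y := by
    unfold eta; rw [h4, inner_smul_right]; ring
  rw [h4, h5] at h3
  have hq := norm_sub_lower (x := y) hp
  set r := ‖y‖ with hrdef
  set q := ‖y - p‖ with hqdef
  have hq7 : 7 ≤ q := by linarith
  -- lower bound for the distance
  have h6 : (1 + μ) * q - 3 * μ ≤ ‖(1 + μ) • y - p‖ := by
    have h7 : (1 + μ) • (y - p) = ((1 + μ) • y - p) - μ • p := by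
      rw [smul_sub, add_smul 1 μ p, one_smul]; abel
    have h8 : ‖(1 + μ) • (y - p)‖ ≤ ‖(1 + μ) • y - p‖ + ‖μ • p‖ := by
      rw [h7]; exact norm_sub_le _ _
    rw [norm_smul, norm_smul, Real.norm_of_nonneg hμ0, Real.norm_of_nonneg (by linarith : 0 ≤ 1 + μ),
      hp] at h8
    linarith
  have h7 : q * (1 + 4 / 7 * μ) ≤ ‖(1 + μ) • y - p‖ := by nlinarith
  have h8 : (q * (1 + 4 / 7 * μ)) ^ 3 ≤ ‖(1 + μ) • y - p‖ ^ 3 := by
    have : 0 ≤ q * (1 + 4 / 7 * μ) := by positivity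
    gcongr
  have h9 : (1 + μ) ^ 2 ≤ (1 + 10 / 11 * μ) * (1 + 4 / 7 * μ) ^ 3 := by
    have h10 : 1 + 12 / 7 * μ ≤ (1 + 4 / 7 * μ) ^ 3 := by
      have h11 : 0 ≤ μ ^ 2 := by positivity
      have h12 : 0 ≤ μ ^ 3 := by positivity
      nlinarith
    calc (1 + μ) ^ 2 ≤ (1 + 10 / 11 * μ) * (1 + 12 / 7 * μ) := by nlinarith
      _ ≤ _ := by gcongr
  have h10 : (1 + r) * (1 + 10 / 11 * μ) ≤ 1 + (1 + μ) * r := by nlinarith
  have h11 : (1 + μ) ^ 2 * (cc * (1 + r) * q ^ 3) ≤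
      cc * (1 + (1 + μ) * r) * ‖(1 + μ) • y - p‖ ^ 3 := by
    have hcc : 0 < cc := by unfold cc; positivity
    calc (1 + μ) ^ 2 * (cc * (1 + r) * q ^ 3)
        ≤ ((1 + 10 / 11 * μ) * (1 + 4 / 7 * μ) ^ 3) * (cc * (1 + r) * q ^ 3) := by gcongr
      _ = cc * ((1 + r) * (1 + 10 / 11 * μ)) * (q * (1 + 4 / 7 * μ)) ^ 3 := by ring
      _ ≤ cc * (1 + (1 + μ) * r) * ‖(1 + μ) • y - p‖ ^ 3 := by gcongr
  have h12 : (1 + μ) ^ 2 * (r * eta e y) ≤ (1 + μ) ^ 2 * (cc * (1 + r) * q ^ 3) := by gcongr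
  have h13 : (1 + μ) * r * ((1 + μ) * eta e y) = (1 + μ) ^ 2 * (r * eta e y) := by ring
  linarith

/-- transverse part -/
lemma dist_axis {e p x : F} (he : ‖e‖ = 1) (hp : ‖p‖ = 3) (hep : inner ℝ e p = 1) :
    |‖x - p‖ - √((inner ℝ e x) ^ 2 - 2 * inner ℝ e x + 9)| ≤ ‖x - (inner ℝ e x : ℝ) • e‖ := by
  set s : ℝ := inner ℝ e x with hs
  have h1 : ‖s • e - p‖ = √(s ^ 2 - 2 * s + 9) := by
    have h2 : ‖s • e - p‖ ^ 2 = s ^ 2 - 2 * s + 9 := by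
      rw [norm_sub_sq_real, norm_smul, he, hp, inner_smul_left, hep]
      simp
      ring
    rw [← h2, Real.sqrt_sq (norm_nonneg _)]
  rw [← h1]
  have h3 := abs_norm_sub_norm_le (x - p) (s • e - p)
  have h4 : x - p - (s • e - p) = x - s • e := by abel
  rwa [h4] at h3

lemma rho_sq {e x : F} (he : ‖e‖ = 1) :
    ‖x - (inner ℝ e x : ℝ) • e‖ ^ 2 = ‖x‖ ^ 2 - (inner ℝ e x) ^ 2 := by
  rw [norm_sub_sq_real, norm_smul, he, inner_smul_right, real_inner_comm]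
  simp
  ring

lemma key_A {r1 r2 s τ : ℝ} (hr20 : 0 ≤ r2) (hr2 : s + τ ≤ r2) (hr3 : r2 ≤ r1 + τ)
    (hrz : r2 ^ 2 = r1 ^ 2 + 2 * s * τ + τ ^ 2) :
    r2 * (r2 - (s + τ)) * (1 + r1 + τ) ≤ r1 * (r1 - s) * (1 + r2) := by
  have h2 : (r1 + τ) * (r2 - (s + τ)) ≤ r1 * (r1 - s) := by
    nlinarith [sq_nonneg (r2 - r1 - τ)]
  have h3 : r2 * (r2 - (s + τ)) ≤ (r1 + τ) * (r2 - (s + τ)) := by
    have : 0 ≤ r2 - (s + τ) := by linarith
    gcongr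
  have h4 : r2 * ((r1 + τ) * (r2 - (s + τ))) ≤ r2 * (r1 * (r1 - s)) := by gcongr
  linarith

lemma key_d {d : ℝ} (hd0 : 0 ≤ d) (h7 : d ≤ 0.063) : (1 + d) ^ 3 ≤ 1 + 3.2 * d := by
  have h9 : (1 + d) ^ 3 = 1 + 3 * d + 3 * d ^ 2 + d ^ 3 := by ring
  rw [h9]
  have h10 : d ^ 2 ≤ 0.063 * d := by nlinarith
  have h11 : d ^ 3 ≤ 0.063 * 0.063 * d := by
    have : d ^ 3 = d * d ^ 2 := by ring
    rw [this]
    nlinarith
  linarith

lemma key_q {r1 q1 q2 s τ : ℝ} (hτ : 0 ≤ τ) (hr10 : 0 ≤ r1) (hr1le : r1 ≤ 1.01)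
    (hq2le : 2.82 ≤ q2) (hlt : q2 < q1) (hs1 : s < 1) (hs0 : -(2 / 10 ^ 4) ≤ s)
    (hqz : q2 ^ 2 = q1 ^ 2 - τ * (2 - 2 * s - τ)) :
    (1 + r1) * q1 ^ 3 ≤ (1 + r1 + τ) * q2 ^ 3 := by
  set d := (q1 - q2) / q2 with hd
  have hq2pos : 0 < q2 := by linarith
  have hdq : q1 = q2 * (1 + d) := by
    rw [hd]; field_simp; ring
  have hd0 : 0 ≤ d := by
    rw [hd]; apply div_nonneg <;> linarith
  have hsum : (q1 - q2) * (q1 + q2) = τ * (2 - 2 * s - τ) := by linarith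
  have h2 : (q1 - q2) * 5.64 ≤ (q1 - q2) * (q1 + q2) := by
    have : 0 ≤ q1 - q2 := by linarith
    gcongr
    linarith
  have h3 : τ * (2 - 2 * s - τ) ≤ 2.001 * τ := by nlinarith
  have h4 : τ * (2 - 2 * s - τ) ≤ 1.001 := by nlinarith [sq_nonneg (τ - (1 - s))]
  have h5 : d * 2.82 ≤ q1 - q2 := by
    rw [hd, div_mul_eq_mul_div, div_le_iff₀ hq2pos]
    have : 0 ≤ q1 - q2 := by linarith
    gcongr
  have h6 : d ≤ 0.126 * τ := by linarith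
  have h7 : d ≤ 0.063 := by linarith
  have h8 := key_d hd0 h7
  have h9 : (1 + r1) * (1 + d) ^ 3 ≤ 1 + r1 + τ := by
    have h10 : (1 + r1) * (1 + d) ^ 3 ≤ (1 + r1) * (1 + 3.2 * d) := by gcongr
    have h11 : (1 + r1) * (3.2 * d) ≤ 2.01 * (3.2 * d) := by
      gcongr
      linarith
    linarith
  calc (1 + r1) * q1 ^ 3 = ((1 + r1) * (1 + d) ^ 3) * q2 ^ 3 := by rw [hdq]; ring
    _ ≤ (1 + r1 + τ) * q2 ^ 3 := by gcongr

lemma s_lower {r s : ℝ} (hr : 0 ≤ r) (hA : r * (r - s) ≤ 25 / 10 ^ 9) (habs : -r ≤ s) :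
    -(2 / 10 ^ 4) ≤ s := by
  by_contra hcon
  push Not at hcon
  have h1 : 2 / 10 ^ 4 < r := by linarith
  have h2 : (2 / 10 ^ 4) * (2 / 10 ^ 4) ≤ r * (r - s) := by
    gcongr
    linarith
  norm_num at h2 hA
  linarith

lemma rho_small {r s : ℝ} (hr : 0 ≤ r) (hs : s ≤ r) (hA : r * (r - s) ≤ 25 / 10 ^ 9) :
    r ^ 2 - s ^ 2 ≤ (3 / 10 ^ 4) ^ 2 := by
  have h1 : r ^ 2 - s ^ 2 = (r - s) * (r + s) := by ring
  have h2 : (r - s) * (r + s) ≤ (r - s) * (2 * r) := by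
    have : 0 ≤ r - s := by linarith
    gcongr
    linarith
  rw [h1]
  norm_num at hA ⊢
  linarith

lemma acc_near {e p y : F} (he : ‖e‖ = 1) (hp : ‖p‖ = 3) (hep : inner ℝ e p = 1)
    (hy : y ∉ D5 e p) (hr : ‖y‖ < 10) {τ : ℝ} (hτ : 0 ≤ τ) : y + τ • e ∉ D5 e p := by
  have h1 : ‖y‖ * eta e y ≤ cc * (1 + ‖y‖) * ‖y - p‖ ^ 3 := not_lt.mp hy
  set z := y + τ • e with hz
  have hsz : inner ℝ e z = inner ℝ e y + τ := by
    rw [hz, inner_add_right, inner_smul_right, real_inner_self_eq_norm_sq, he]; ring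
  set s : ℝ := inner ℝ e y with hs
  have hr1 : s ≤ ‖y‖ := by
    have := real_inner_le_norm e y
    rwa [he, one_mul] at this
  have hr2 : s + τ ≤ ‖z‖ := by
    have := real_inner_le_norm e z
    rwa [he, one_mul, hsz] at this
  have hr3 : ‖z‖ ≤ ‖y‖ + τ := by
    have := norm_add_le y (τ • e)
    rwa [norm_smul, he, mul_one, Real.norm_of_nonneg hτ] at this
  have hrz : ‖z‖ ^ 2 = ‖y‖ ^ 2 + 2 * s * τ + τ ^ 2 := by
    rw [hz, norm_add_sq_real, norm_smul, he, inner_smul_right, real_inner_comm]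
    simp
    ring
  have hqz : ‖z - p‖ ^ 2 = ‖y - p‖ ^ 2 - τ * (2 - 2 * s - τ) := by
    have h2 : z - p = (y - p) + τ • e := by rw [hz]; abel
    rw [h2, norm_add_sq_real, norm_smul, he, inner_smul_right, real_inner_comm, inner_sub_right, hep]
    simp
    ring
  have hetay : eta e y = ‖y‖ - s := rfl
  have hetaz : eta e z = ‖z‖ - (s + τ) := by unfold eta; rw [hsz]
  have hrho : ‖y - s • e‖ ^ 2 = ‖y‖ ^ 2 - s ^ 2 := rho_sq he
  have hrhoz : ‖z - (s + τ) • e‖ = ‖y - s • e‖ := by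
    congr 1
    rw [hz, add_smul]; abel
  have hq1 : ‖y - p‖ ≤ 13 := by
    have := norm_sub_le y p
    rw [hp] at this
    linarith
  have hr10 : 0 ≤ ‖y‖ := norm_nonneg _
  have hr20 : 0 ≤ ‖z‖ := norm_nonneg _
  have hq10 : 0 ≤ ‖y - p‖ := norm_nonneg _
  have hq20 : 0 ≤ ‖z - p‖ := norm_nonneg _
  have hA1 : ‖y‖ * (‖y‖ - s) ≤ 25 / 10 ^ 9 := by
    have h2 : ‖y - p‖ ^ 3 ≤ 13 ^ 3 := by gcongr
    have h3 : cc * (1 + ‖y‖) * ‖y - p‖ ^ 3 ≤ cc * (1 + 10) * 13 ^ 3 := by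
      unfold cc
      gcongr
    rw [hetay] at h1
    have h4 : cc * (1 + 10) * 13 ^ 3 ≤ 25 / 10 ^ 9 := by unfold cc; norm_num
    linarith
  -- the key inequality for A
  have hkey := key_A hr20 hr2 hr3 hrz
  -- the key inequality for q
  have hq : (1 + ‖y‖) * ‖y - p‖ ^ 3 ≤ (1 + ‖y‖ + τ) * ‖z - p‖ ^ 3 := by
    by_cases hle : ‖y - p‖ ≤ ‖z - p‖
    · calc (1 + ‖y‖) * ‖y - p‖ ^ 3 ≤ (1 + ‖y‖) * ‖z - p‖ ^ 3 := by gcongr
        _ ≤ (1 + ‖y‖ + τ) * ‖z - p‖ ^ 3 :=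
          mul_le_mul_of_nonneg_right (by linarith) (by positivity)
    · push Not at hle
      have hs1 : s < 1 := by
        by_contra hcon
        push Not at hcon
        have h2 : ‖y - p‖ ^ 2 ≤ ‖z - p‖ ^ 2 := by nlinarith
        have h3 : ‖z - p‖ ^ 2 < ‖y - p‖ ^ 2 := by gcongr
        linarith
      have hs0 : -(2 / 10 ^ 4) ≤ s := by
        apply s_lower hr10 hA1
        have := abs_real_inner_le_norm e y
        rw [he, one_mul] at this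
        exact (abs_le.mp this).1
      have hrhole : ‖y - s • e‖ ≤ 3 / 10 ^ 4 := by
        have h2 : ‖y - s • e‖ ^ 2 ≤ (3 / 10 ^ 4) ^ 2 := by
          rw [hrho]
          exact rho_small hr10 hr1 hA1
        exact (pow_le_pow_iff_left₀ (norm_nonneg _) (by norm_num) (by norm_num)).mp h2
      have hr1le : ‖y‖ ≤ 1.01 := by
        have h2 : ‖y‖ ≤ ‖y - s • e‖ + ‖s • e‖ := by
          have := norm_add_le (y - s • e) (s • e)
          rwa [sub_add_cancel] at this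
        rw [norm_smul, he, mul_one, Real.norm_eq_abs] at h2
        have h3 : |s| ≤ 1 := by
          rw [abs_le]; constructor <;> linarith
        linarith
      have hq2le : 2.82 ≤ ‖z - p‖ := by
        have h2 := dist_axis (x := z) he hp hep
        rw [hsz, hrhoz, abs_le] at h2
        have h3 : 2.8284 ≤ √((s + τ) ^ 2 - 2 * (s + τ) + 9) := by
          apply Real.le_sqrt_of_sq_le
          nlinarith [sq_nonneg (s + τ - 1)]
        have h4 := h2.1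
        linarith
      exact key_q hτ hr10 hr1le hq2le hle hs1 hs0 hqz
  intro hmem
  have h2 : cc * (1 + ‖z‖) * ‖z - p‖ ^ 3 < ‖z‖ * eta e z := hmem
  rw [hetaz] at h2
  rw [hetay] at h1
  have h3 : (‖z‖ * (‖z‖ - (s + τ))) * (1 + ‖y‖ + τ) ≤
      (cc * (1 + ‖z‖) * ‖z - p‖ ^ 3) * (1 + ‖y‖ + τ) := by
    have hcc : 0 < cc := by unfold cc; positivity
    calc (‖z‖ * (‖z‖ - (s + τ))) * (1 + ‖y‖ + τ) ≤ ‖y‖ * (‖y‖ - s) * (1 + ‖z‖) := hkey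
      _ ≤ (cc * (1 + ‖y‖) * ‖y - p‖ ^ 3) * (1 + ‖z‖) := by gcongr
      _ = cc * (1 + ‖z‖) * ((1 + ‖y‖) * ‖y - p‖ ^ 3) := by ring
      _ ≤ cc * (1 + ‖z‖) * ((1 + ‖y‖ + τ) * ‖z - p‖ ^ 3) := by gcongr
      _ = _ := by ring
  have h4 : 0 < 1 + ‖y‖ + τ := by linarith
  have h5 := le_of_mul_le_mul_right h3 h4
  linarith

end

end Pool.Agent.Helper418.G
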