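import Mathlib
import Pool.Agent.Helper418.G4
open Metric Set Filter Topology InnerProductSpace

namespace Pool.Agent.Helper418.G

noncomputable section

variable {F : Type*} [NormedAddCommGroup F] [InnerProductSpace ℝ F]

/-- the level -/
def tt : ℝ := 1 / 27 - 1 / 10 ^ 4

/-- sufficient condition for lying in the superlevel set -/
def InOm (e p x : F) : Prop := x ∈ D5 e p ∧ (x = p ∨ tt < G5 e p x)

lemma inOm_of {e p x : F} (hA : 0 < ‖x‖ * eta e x)
    (h : (tt + cc * (1 + ‖x‖) / (‖x‖ * eta e x)) * ‖x - p‖ ^ 3 < 1) : InOm e p x := by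
  have htt : 0 < tt := by unfold tt; norm_num
  have hcc : 0 < cc := by unfold cc; norm_num
  have h0 : 0 ≤ ‖x - p‖ ^ 3 := by positivity
  constructor
  · change cc * (1 + ‖x‖) * ‖x - p‖ ^ 3 < ‖x‖ * eta e x
    have h1 : cc * (1 + ‖x‖) / (‖x‖ * eta e x) * ‖x - p‖ ^ 3 < 1 := by
      refine lt_of_le_of_lt ?_ h
      gcongr
      linarith
    rw [div_mul_eq_mul_div, div_lt_one hA] at h1
    exact h1
  · by_cases hxp : x = p
    · left; exact hxp
    · right
      have h1 : 0 < ‖x - p‖ := norm_pos_iff.mpr (sub_ne_zero.mpr hxp)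
      unfold G5
      rw [Phi_eq, P5_eq hA]
      have h2 : tt + cc * (1 + ‖x‖) / (‖x‖ * eta e x) < (‖x - p‖ ^ 3)⁻¹ := by
        rw [lt_inv_comm₀ (by positivity) (by positivity)]
        rw [inv_eq_one_div, lt_div_iff₀ (by positivity)]
        linarith
      linarith

/-- membership from bounds -/
lemma inOm_bounds {e p x : F} {T Q A : ℝ} (hA0 : 0 < A) (hA : A ≤ ‖x‖ * eta e x)
    (hr : ‖x‖ ≤ 2) (hT : tt + cc * (1 + ‖x‖) / A ≤ T) (hQ : ‖x - p‖ ≤ Q) (hTQ : T * Q ^ 3 < 1) :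
    InOm e p x := by
  have htt : 0 < tt := by unfold tt; norm_num
  have hcc : 0 < cc := by unfold cc; norm_num
  apply inOm_of (lt_of_lt_of_le hA0 hA)
  refine lt_of_le_of_lt ?_ hTQ
  have h1 : cc * (1 + ‖x‖) / (‖x‖ * eta e x) ≤ cc * (1 + ‖x‖) / A := by gcongr
  have h2 : 0 < cc * (1 + ‖x‖) / A := by positivity
  have h3 : 0 < T := by linarith
  gcongr
  linarith

lemma A_lower {e x : F} (he : ‖e‖ = 1) :
    ‖x - (inner ℝ e x : ℝ) • e‖ ^ 2 / 2 ≤ ‖x‖ * eta e x := by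
  rw [rho_sq he]
  unfold eta
  have h1 := real_inner_le_norm e x
  rw [he, one_mul] at h1
  nlinarith [norm_nonneg x]

lemma norm_le_of {e x : F} (he : ‖e‖ = 1) :
    ‖x‖ ≤ |inner ℝ e x| + ‖x - (inner ℝ e x : ℝ) • e‖ := by
  have h := norm_add_le ((inner ℝ e x : ℝ) • e) (x - (inner ℝ e x : ℝ) • e)
  rw [add_sub_cancel, norm_smul, he, mul_one, Real.norm_eq_abs] at h
  exact h

/-- lateral boundary -/
lemma claimA {e p x : F} (he : ‖e‖ = 1) (hp : ‖p‖ = 3) (hep : inner ℝ e p = 1)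
    (hs1 : -(5 / 10 ^ 4) ≤ (inner ℝ e x : ℝ)) (hs2 : (inner ℝ e x : ℝ) ≤ 1)
    (hρ : ‖x - (inner ℝ e x : ℝ) • e‖ = 5 / 10 ^ 4) : InOm e p x := by
  have h1 := norm_le_of (x := x) he
  have h2 := A_lower (x := x) he
  have h3 := dist_axis (x := x) he hp hep
  rw [hρ] at h1 h2 h3
  have h4 : |(inner ℝ e x : ℝ)| ≤ 1 := by rw [abs_le]; constructor <;> linarith
  have h5 : √((inner ℝ e x : ℝ) ^ 2 - 2 * inner ℝ e x + 9) ≤ 3.0002 := by
    rw [Real.sqrt_le_left (by norm_num)]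
    nlinarith
  have h6 : ‖x - p‖ ≤ 3.0007 := by
    have := (abs_le.mp h3).2
    linarith
  refine inOm_bounds (T := 0.036955) (Q := 3.0007) (A := (5 / 10 ^ 4) ^ 2 / 2) (by norm_num) h2
    (by linarith) ?_ h6 (by norm_num)
  have h7 : cc * (1 + ‖x‖) / ((5 / 10 ^ 4) ^ 2 / 2) ≤ cc * (1 + 1.0005) / ((5 / 10 ^ 4) ^ 2 / 2) := by
    unfold cc
    gcongr
    linarith
  refine le_trans (add_le_add_right h7 _) ?_
  unfold tt cc
  norm_num

/-- back face -/
lemma claimB {e p x : F} (he : ‖e‖ = 1) (hp : ‖p‖ = 3) (hep : inner ℝ e p = 1)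
    (hs : (inner ℝ e x : ℝ) = -(5 / 10 ^ 4))
    (hρ : ‖x - (inner ℝ e x : ℝ) • e‖ ≤ 5 / 10 ^ 4) : InOm e p x := by
  have h1 := norm_le_of (x := x) he
  have h3 := dist_axis (x := x) he hp hep
  have h4 : |(inner ℝ e x : ℝ)| ≤ 1 := by rw [hs, abs_le]; constructor <;> norm_num
  have h5 : √((inner ℝ e x : ℝ) ^ 2 - 2 * inner ℝ e x + 9) ≤ 3.0002 := by
    rw [Real.sqrt_le_left (by norm_num)]
    rw [hs]
    norm_num
  have h6 : ‖x - p‖ ≤ 3.0007 := by
    have := (abs_le.mp h3).2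
    linarith
  have h8 : 5 / 10 ^ 4 ≤ ‖x‖ := by
    have := (abs_le.mp (abs_real_inner_le_norm e x)).1
    rw [he, hs] at this
    linarith
  have h9 : (5 / 10 ^ 4) ^ 2 / 2 ≤ ‖x‖ * eta e x := by
    unfold eta
    rw [hs]
    nlinarith
  refine inOm_bounds (T := 0.036955) (Q := 3.0007) (A := (5 / 10 ^ 4) ^ 2 / 2) (by norm_num) h9
    (by linarith) ?_ h6 (by norm_num)
  have h7 : cc * (1 + ‖x‖) / ((5 / 10 ^ 4) ^ 2 / 2) ≤ cc * (1 + 1.0005) / ((5 / 10 ^ 4) ^ 2 / 2) := by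
    unfold cc
    gcongr
    have : |(inner ℝ e x : ℝ)| ≤ 5 / 10 ^ 4 := by rw [hs, abs_neg, abs_of_pos (by norm_num)]
    linarith
  refine le_trans (add_le_add_right h7 _) ?_
  unfold tt cc
  norm_num

/-- middle window -/
lemma claimC {e p x : F} (he : ‖e‖ = 1) (hp : ‖p‖ = 3) (hep : inner ℝ e p = 1)
    (hs : (inner ℝ e x : ℝ) = 1 / 2)
    (hρ1 : 25 / 10 ^ 6 ≤ ‖x - (inner ℝ e x : ℝ) • e‖)
    (hρ : ‖x - (inner ℝ e x : ℝ) • e‖ ≤ 5 / 10 ^ 4) : InOm e p x := by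
  have h1 := norm_le_of (x := x) he
  have h2 := A_lower (x := x) he
  have h3 := dist_axis (x := x) he hp hep
  have h4 : |(inner ℝ e x : ℝ)| = 1 / 2 := by rw [hs, abs_of_pos (by norm_num)]
  have h5 : √((inner ℝ e x : ℝ) ^ 2 - 2 * inner ℝ e x + 9) ≤ 2.8723 := by
    rw [Real.sqrt_le_left (by norm_num)]
    rw [hs]
    norm_num
  have h6 : ‖x - p‖ ≤ 2.8728 := by
    have := (abs_le.mp h3).2
    linarith
  have h9 : (25 / 10 ^ 6) ^ 2 / 2 ≤ ‖x‖ * eta e x := by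
    refine le_trans ?_ h2
    gcongr
  refine inOm_bounds (T := 0.041742) (Q := 2.8728) (A := (25 / 10 ^ 6) ^ 2 / 2) (by norm_num) h9
    (by linarith) ?_ h6 (by norm_num)
  have h7 : cc * (1 + ‖x‖) / ((25 / 10 ^ 6) ^ 2 / 2) ≤
      cc * (1 + 0.5005) / ((25 / 10 ^ 6) ^ 2 / 2) := by
    unfold cc
    gcongr
    linarith
  refine le_trans (add_le_add_right h7 _) ?_
  unfold tt cc
  norm_num

/-- front window -/
lemma claimD {e p x : F} (he : ‖e‖ = 1) (hp : ‖p‖ = 3) (hep : inner ℝ e p = 1)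
    (hs : (inner ℝ e x : ℝ) = 1)
    (hρ1 : 24 / 10 ^ 6 ≤ ‖x - (inner ℝ e x : ℝ) • e‖)
    (hρ : ‖x - (inner ℝ e x : ℝ) • e‖ ≤ 5 / 10 ^ 4) : InOm e p x := by
  have h1 := norm_le_of (x := x) he
  have h2 := A_lower (x := x) he
  have h3 := dist_axis (x := x) he hp hep
  have h4 : |(inner ℝ e x : ℝ)| = 1 := by rw [hs, abs_of_pos (by norm_num)]
  have h5 : √((inner ℝ e x : ℝ) ^ 2 - 2 * inner ℝ e x + 9) ≤ 2.8285 := by
    rw [Real.sqrt_le_left (by norm_num)]
    rw [hs]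
    norm_num
  have h6 : ‖x - p‖ ≤ 2.829 := by
    have := (abs_le.mp h3).2
    linarith
  have h9 : (24 / 10 ^ 6) ^ 2 / 2 ≤ ‖x‖ * eta e x := by
    refine le_trans ?_ h2
    gcongr
  refine inOm_bounds (T := 0.04389) (Q := 2.829) (A := (24 / 10 ^ 6) ^ 2 / 2) (by norm_num) h9
    (by linarith) ?_ h6 (by norm_num)
  have h7 : cc * (1 + ‖x‖) / ((24 / 10 ^ 6) ^ 2 / 2) ≤
      cc * (1 + 1.0005) / ((24 / 10 ^ 6) ^ 2 / 2) := by
    unfold cc
    gcongr
    linarith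
  refine le_trans (add_le_add_right h7 _) ?_
  unfold tt cc
  norm_num

lemma alg_id (y v e : F) (A : ℝ) :
    y = (2:ℝ) • ((y + A • v) - (1 / 2 : ℝ) • e) - ((y + (2 * A) • v) - (1:ℝ) • e) := by
  module

/-- every ray from `w / 10^4` meets the superlevel set -/
lemma ray_meets {e p w : F} (he : ‖e‖ = 1) (hp : ‖p‖ = 3) (hep : inner ℝ e p = 1)
    (hw : ‖w‖ = 1) (hew : inner ℝ e w = 0) {v : F} (hv : ‖v‖ = 1) :
    ∃ l : ℝ, 0 ≤ l ∧ InOm e p ((1 / 10 ^ 4 : ℝ) • w + l • v) := by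
  by_contra hcon
  push Not at hcon
  set y : F := (1 / 10 ^ 4 : ℝ) • w with hy
  have hyn : ‖y‖ = 1 / 10 ^ 4 := by
    rw [hy, norm_smul, hw, mul_one, Real.norm_of_nonneg (by norm_num)]
  have hey : inner ℝ e y = 0 := by rw [hy, inner_smul_right, hew, mul_zero]
  set a : ℝ := inner ℝ e v with ha
  have hs : ∀ l : ℝ, inner ℝ e (y + l • v) = l * a := by
    intro l
    rw [inner_add_right, hey, inner_smul_right, zero_add]
  set ρ : ℝ → ℝ := fun l => ‖(y + l • v) - (inner ℝ e (y + l • v) : ℝ) • e‖ with hρ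
  have hρc : Continuous ρ := by
    have : ρ = fun l => ‖(y + l • v) - (l * a) • e‖ := by
      funext l; simp only [hρ, hs]
    rw [this]
    fun_prop
  have hρ0 : ρ 0 = 1 / 10 ^ 4 := by
    simp only [hρ, zero_smul, add_zero, hey, sub_zero, hyn]
  rcases le_or_gt a 0 with ha0 | ha0
  · -- going backwards
    set M : ℝ → ℝ := fun l => max (ρ l) (-(l * a)) with hM
    have hMc : Continuous M := by
      apply Continuous.max hρc
      fun_prop
    have hM0 : M 0 ≤ 5 / 10 ^ 4 := by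
      simp only [hM, hρ0]
      norm_num
    have hM1 : 5 / 10 ^ 4 ≤ M 1 := by
      by_contra hlt
      push Not at hlt
      have h1 : ρ 1 < 5 / 10 ^ 4 := lt_of_le_of_lt (le_max_left _ _) hlt
      have h2 : -(1 * a) < 5 / 10 ^ 4 := lt_of_le_of_lt (le_max_right _ _) hlt
      have h3 := norm_le_of (x := y + (1:ℝ) • v) he
      rw [hs] at h3
      simp only [hρ, hs] at h1
      have h4 : |1 * a| < 5 / 10 ^ 4 := by
        rw [abs_lt]; constructor <;> linarith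
      have h5 : ‖(1:ℝ) • v‖ ≤ ‖y + (1:ℝ) • v‖ + ‖y‖ := by
        have := norm_sub_le (y + (1:ℝ) • v) y
        rwa [add_sub_cancel_left] at this
      rw [one_smul, hv, hyn] at h5
      rw [one_smul] at h3 h1
      linarith
    obtain ⟨l, hl, hlM⟩ := intermediate_value_Icc (zero_le_one) hMc.continuousOn ⟨hM0, hM1⟩
    have hl0 := hl.1
    have h1 : ρ l ≤ 5 / 10 ^ 4 := by rw [← hlM]; exact le_max_left _ _
    have h2 : -(l * a) ≤ 5 / 10 ^ 4 := by rw [← hlM]; exact le_max_right _ _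
    have h3 : l * a ≤ 0 := mul_nonpos_of_nonneg_of_nonpos hl0 ha0
    rcases le_total (ρ l) (-(l * a)) with h4 | h4
    · have h5 : -(l * a) = 5 / 10 ^ 4 := by rw [← hlM]; exact (max_eq_right h4).symm
      exact hcon l hl0 (claimB he hp hep (by rw [hs]; linarith) h1)
    · have h5 : ρ l = 5 / 10 ^ 4 := by rw [← hlM]; exact (max_eq_left h4).symm
      exact hcon l hl0 (claimA he hp hep (by rw [hs]; linarith) (by rw [hs]; linarith) h5)
  · -- going forwards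
    have hlt : ∀ l, 0 ≤ l → l ≤ 1 / a → ρ l ≤ 5 / 10 ^ 4 := by
      intro l hl hla
      by_contra hgt
      push Not at hgt
      obtain ⟨l', hl', hlρ⟩ := intermediate_value_Icc hl hρc.continuousOn
        (⟨by rw [hρ0]; norm_num, hgt.le⟩ : (5 / 10 ^ 4 : ℝ) ∈ Icc (ρ 0) (ρ l))
      have h1 : 0 ≤ l' * a := mul_nonneg hl'.1 ha0.le
      have h2 : l' * a ≤ 1 := by
        have : l' ≤ 1 / a := hl'.2.trans hla
        rwa [le_div_iff₀ ha0] at this
      exact hcon l' hl'.1 (claimA he hp hep (by rw [hs]; linarith) (by rw [hs]; linarith) hlρ)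
    have hl1 : 0 ≤ 1 / a := by positivity
    have hl2 : 0 ≤ 1 / (2 * a) := by positivity
    have hl3 : 1 / (2 * a) ≤ 1 / a := by
      apply one_div_le_one_div_of_le ha0; linarith
    have hC : ρ (1 / (2 * a)) < 25 / 10 ^ 6 := by
      by_contra hge
      push Not at hge
      exact hcon _ hl2 (claimC he hp hep (by rw [hs]; field_simp) hge (hlt _ hl2 hl3))
    have hD : ρ (1 / a) < 24 / 10 ^ 6 := by
      by_contra hge
      push Not at hge
      exact hcon _ hl1 (claimD he hp hep (by rw [hs]; field_simp) hge (hlt _ hl1 le_rfl))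
    have hyeq : y = (2:ℝ) • ((y + (1 / (2 * a)) • v) - ((1 / (2 * a)) * a) • e) -
        ((y + (1 / a) • v) - ((1 / a) * a) • e) := by
      have h1 : (1 / (2 * a)) * a = 1 / 2 := by field_simp
      have h2 : (1 / a) * a = 1 := by field_simp
      have h3 : (2:ℝ) * (1 / (2 * a)) = 1 / a := by field_simp
      rw [h1, h2, ← h3]
      exact alg_id y v e (1 / (2 * a))
    have hfin : ‖y‖ ≤ 2 * ρ (1 / (2 * a)) + ρ (1 / a) := by
      simp only [hρ, hs]
      calc ‖y‖ = ‖(2:ℝ) • ((y + (1 / (2 * a)) • v) - ((1 / (2 * a)) * a) • e) -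
        ((y + (1 / a) • v) - ((1 / a) * a) • e)‖ := by rw [← hyeq]
        _ ≤ _ := by
          refine (norm_sub_le _ _).trans ?_
          rw [norm_smul, Real.norm_of_nonneg (by norm_num : (0:ℝ) ≤ 2)]
    rw [hyn] at hfin
    norm_num at hfin hC hD
    linarith

/-- the base point is outside the superlevel set -/
lemma base_point {e p w : F} (hp : ‖p‖ = 3)
    (hw : ‖w‖ = 1) (hew : inner ℝ e w = 0) (hpw : inner ℝ p w = 0) :
    ¬ InOm e p ((1 / 10 ^ 4 : ℝ) • w) := by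
  set y : F := (1 / 10 ^ 4 : ℝ) • w with hy
  have hyn : ‖y‖ = 1 / 10 ^ 4 := by
    rw [hy, norm_smul, hw, mul_one, Real.norm_of_nonneg (by norm_num)]
  have hey : inner ℝ e y = 0 := by rw [hy, inner_smul_right, hew, mul_zero]
  have hpy : inner ℝ y p = 0 := by rw [real_inner_comm, hy, inner_smul_right, hpw, mul_zero]
  have hq : 9 ≤ ‖y - p‖ ^ 2 := by
    rw [norm_sub_sq_real, hpy, hp]
    nlinarith [norm_nonneg y]
  have hq3 : 3 ≤ ‖y - p‖ := by
    have h1 : (3:ℝ) ^ 2 ≤ ‖y - p‖ ^ 2 := by linarith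
    exact (pow_le_pow_iff_left₀ (by norm_num) (norm_nonneg _) (by norm_num)).mp h1
  rintro ⟨h1, h2 | h2⟩
  · rw [h2] at hyn
    rw [hyn] at hp
    norm_num at hp
  · have hA := D5_pos h1
    unfold G5 at h2
    rw [Phi_eq, P5_eq hA] at h2
    unfold eta at h2
    rw [hyn, hey] at h2
    have h3 : (‖y - p‖ ^ 3)⁻¹ ≤ (3 ^ 3)⁻¹ := by gcongr
    unfold tt cc at h2
    norm_num at h2 h3
    linarith

end

end Pool.Agent.Helper418.G
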