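import Mathlib

set_option autoImplicit false
open Real Filter Topology MeasureTheory

namespace Pool.Agent.Helper418.QA

/-- the exponential `x ↦ e^{ikx}` -/
noncomputable def ek (k : ℤ) : ℝ → ℂ := fun x => Complex.exp ((k:ℂ) * Complex.I * (x:ℂ))

lemma ek_mul (j k : ℤ) : ek j * ek k = ek (j + k) := by
  funext x
  simp only [ek, Pi.mul_apply]
  rw [← Complex.exp_add]
  congr 1
  push_cast
  ring

lemma norm_ek (k : ℤ) (x : ℝ) : ‖ek k x‖ = 1 := by
  unfold ek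
  have : (k:ℂ) * Complex.I * (x:ℂ) = ((k * x : ℝ) : ℂ) * Complex.I := by push_cast; ring
  rw [this, Complex.norm_exp_ofReal_mul_I]

lemma continuous_ek (k : ℤ) : Continuous (ek k) := by
  unfold ek
  fun_prop

lemma periodic_ek (k : ℤ) : Function.Periodic (ek k) (2 * π) := by
  intro x
  unfold ek
  have : (k:ℂ) * Complex.I * ((x + 2 * π : ℝ):ℂ) = (k:ℂ) * Complex.I * (x:ℂ) + k * (2 * π * Complex.I) := by
    push_cast; ring
  rw [this, Complex.exp_add, Complex.exp_int_mul_two_pi_mul_I, mul_one]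

/-- trigonometric polynomials with spectrum in `[a,b]` -/
noncomputable def V (a b : ℤ) : Submodule ℂ (ℝ → ℂ) := Submodule.span ℂ (ek '' Set.Icc a b)

lemma V_mono {a b a' b' : ℤ} (ha : a' ≤ a) (hb : b ≤ b') : V a b ≤ V a' b' :=
  Submodule.span_mono (Set.image_mono (Set.Icc_subset_Icc ha hb))

lemma ek_mem {a b k : ℤ} (h1 : a ≤ k) (h2 : k ≤ b) : ek k ∈ V a b :=
  Submodule.subset_span ⟨k, ⟨h1, h2⟩, rfl⟩

lemma V_mul {a b a' b' : ℤ} {F G : ℝ → ℂ} (hF : F ∈ V a b) (hG : G ∈ V a' b') :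
    F * G ∈ V (a + a') (b + b') := by
  have h := Submodule.mul_mem_mul hF hG
  unfold V at h
  rw [Submodule.span_mul_span] at h
  refine Submodule.span_mono ?_ h
  rintro _ ⟨_, ⟨j, hj, rfl⟩, _, ⟨k, hk, rfl⟩, rfl⟩
  refine ⟨j + k, ⟨by linarith [hj.1, hk.1], by linarith [hj.2, hk.2]⟩, ?_⟩
  exact (ek_mul j k).symm

lemma one_mem_V {a b : ℤ} (ha : a ≤ 0) (hb : 0 ≤ b) : (1 : ℝ → ℂ) ∈ V a b := by
  have : (1 : ℝ → ℂ) = ek 0 := by
    funext x
    simp [ek]
  rw [this]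
  exact ek_mem ha hb

lemma V_pow {a b : ℤ} {F : ℝ → ℂ} (hF : F ∈ V a b) (n : ℕ) : F ^ n ∈ V (n * a) (n * b) := by
  induction n with
  | zero => simpa using one_mem_V (le_refl 0) (le_refl 0)
  | succ n ih =>
    rw [pow_succ]
    have := V_mul ih hF
    refine V_mono ?_ ?_ this
    · push_cast; linarith
    · push_cast; linarith

lemma V_continuous {a b : ℤ} {F : ℝ → ℂ} (hF : F ∈ V a b) : Continuous F := by
  unfold V at hF
  refine Submodule.span_induction (p := fun F _ => Continuous F) ?_ ?_ ?_ ?_ hF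
  · rintro _ ⟨k, _, rfl⟩
    exact continuous_ek k
  · exact continuous_const
  · intro F G _ _ h1 h2
    exact h1.add h2
  · intro c F _ h
    exact h.const_smul c

lemma V_periodic {a b : ℤ} {F : ℝ → ℂ} (hF : F ∈ V a b) : Function.Periodic F (2 * π) := by
  unfold V at hF
  refine Submodule.span_induction (p := fun F _ => Function.Periodic F (2*π)) ?_ ?_ ?_ ?_ hF
  · rintro _ ⟨k, _, rfl⟩
    exact periodic_ek k
  · intro x; rfl
  · intro F G _ _ h1 h2
    exact h1.add h2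
  · intro c F _ h x
    simp [h x]

lemma V_bounded {a b : ℤ} {F : ℝ → ℂ} (hF : F ∈ V a b) : ∃ B : ℝ, 0 ≤ B ∧ ∀ x, ‖F x‖ ≤ B := by
  unfold V at hF
  refine Submodule.span_induction (p := fun F _ => ∃ B : ℝ, 0 ≤ B ∧ ∀ x, ‖F x‖ ≤ B) ?_ ?_ ?_ ?_ hF
  · rintro _ ⟨k, _, rfl⟩
    exact ⟨1, zero_le_one, fun x => (norm_ek k x).le⟩
  · exact ⟨0, le_rfl, fun x => by simp⟩
  · rintro F G _ _ ⟨B1, h1, h1'⟩ ⟨B2, h2, h2'⟩
    exact ⟨B1 + B2, by positivity, fun x => (norm_add_le _ _).trans (add_le_add (h1' x) (h2' x))⟩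
  · rintro c F _ ⟨B, h, h'⟩
    refine ⟨‖c‖ * B, by positivity, fun x => ?_⟩
    simp only [Pi.smul_apply, norm_smul]
    exact mul_le_mul_of_nonneg_left (h' x) (norm_nonneg _)

/-- unnormalised Fourier coefficient -/
noncomputable def co (F : ℝ → ℂ) (n : ℤ) : ℂ :=
  ∫ x in (0:ℝ)..2 * π, Complex.exp (-(n : ℂ) * Complex.I * (x : ℂ)) * F x

lemma co_ek (k n : ℤ) : co (ek k) n = if k = n then ((2 * π : ℝ) : ℂ) else 0 := by
  unfold co ek
  have h1 : ∀ x : ℝ, Complex.exp (-(n : ℂ) * Complex.I * (x : ℂ)) * Complex.exp ((k:ℂ) * Complex.I * (x:ℂ))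
      = Complex.exp (((k - n : ℤ) : ℂ) * Complex.I * x) := by
    intro x
    rw [← Complex.exp_add]
    congr 1
    push_cast; ring
  simp_rw [h1]
  split_ifs with h
  · subst h
    simp
  · have hc : (((k - n : ℤ) : ℂ) * Complex.I) ≠ 0 := by
      refine mul_ne_zero ?_ Complex.I_ne_zero
      exact_mod_cast sub_ne_zero.mpr h
    rw [integral_exp_mul_complex hc]
    have : ((k - n : ℤ) : ℂ) * Complex.I * ((2 * π : ℝ) : ℂ) = ((k - n : ℤ) : ℂ) * (2 * π * Complex.I) := by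
      push_cast; ring
    rw [this, Complex.exp_int_mul_two_pi_mul_I]
    simp

lemma co_integrand_continuous {F : ℝ → ℂ} (hF : Continuous F) (n : ℤ) :
    Continuous (fun x : ℝ => Complex.exp (-(n : ℂ) * Complex.I * (x : ℂ)) * F x) := by
  fun_prop

lemma co_add {F G : ℝ → ℂ} (hF : Continuous F) (hG : Continuous G) (n : ℤ) :
    co (F + G) n = co F n + co G n := by
  unfold co
  rw [← intervalIntegral.integral_add ((co_integrand_continuous hF n).intervalIntegrable _ _)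
    ((co_integrand_continuous hG n).intervalIntegrable _ _)]
  congr 1
  funext x
  simp only [Pi.add_apply]
  ring

lemma co_smul {F : ℝ → ℂ} (c : ℂ) (n : ℤ) :
    co (c • F) n = c * co F n := by
  unfold co
  rw [← intervalIntegral.integral_const_mul]
  congr 1
  funext x
  simp only [Pi.smul_apply, smul_eq_mul]
  ring

lemma norm_exp_aux (n : ℤ) (x : ℝ) : ‖Complex.exp (-(n : ℂ) * Complex.I * (x : ℂ))‖ = 1 := by
  have := norm_ek (-n) x
  unfold ek at this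
  push_cast at this
  exact this

lemma norm_co_le (F : ℝ → ℂ) (n : ℤ) : ‖co F n‖ ≤ ∫ x in (0:ℝ)..2 * π, ‖F x‖ := by
  unfold co
  refine (intervalIntegral.norm_integral_le_integral_norm (by positivity)).trans (le_of_eq ?_)
  congr 1
  funext x
  rw [norm_mul, norm_exp_aux, one_mul]

lemma co_zero (n : ℤ) : co 0 n = 0 := by
  unfold co
  simp

lemma co_eq_zero {a b : ℤ} {F : ℝ → ℂ} (hF : F ∈ V a b) {n : ℤ} (hn : ¬ (a ≤ n ∧ n ≤ b)) :
    co F n = 0 := by
  have key : ∀ G ∈ V a b, Continuous G ∧ co G n = 0 := by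
    intro G hG
    unfold V at hG
    refine Submodule.span_induction (p := fun F _ => Continuous F ∧ co F n = 0) ?_ ?_ ?_ ?_ hG
    · rintro _ ⟨k, hk, rfl⟩
      refine ⟨continuous_ek k, ?_⟩
      rw [co_ek, if_neg]
      rintro rfl
      exact hn hk
    · exact ⟨continuous_const, co_zero n⟩
    · rintro F G _ _ ⟨h1, h1'⟩ ⟨h2, h2'⟩
      exact ⟨h1.add h2, by rw [co_add h1 h2, h1', h2', add_zero]⟩
    · rintro c F _ ⟨h, h'⟩
      exact ⟨h.const_smul c, by rw [co_smul, h', mul_zero]⟩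
  exact (key F hF).2

/-- `w(x) = (1+e^{ix})/2` -/
noncomputable def w : ℝ → ℂ := (1/2 : ℂ) • (1 + ek 1)

lemma w_mem : w ∈ V 0 1 := by
  unfold w
  exact Submodule.smul_mem _ _ (Submodule.add_mem _ (one_mem_V le_rfl zero_le_one) (ek_mem zero_le_one le_rfl))

lemma w_apply (x : ℝ) : w x = (1 + Complex.exp (x * Complex.I)) / 2 := by
  simp [w, ek]
  rw [mul_comm Complex.I]
  ring

lemma normSq_w (x : ℝ) : ‖w x‖ ^ 2 = (1 + cos x) / 2 := by
  rw [← Complex.normSq_eq_norm_sq, w_apply, Complex.exp_mul_I]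
  rw [← Complex.ofReal_cos, ← Complex.ofReal_sin]
  rw [Complex.normSq_apply]
  have h1 : (Complex.cos x).re = cos x := Complex.cos_ofReal_re x
  have h2 : (Complex.sin x).re = sin x := Complex.sin_ofReal_re x
  simp
  rw [h1, h2]
  nlinarith [Real.sin_sq_add_cos_sq x]

lemma normSq_one_sub_w (x : ℝ) : ‖1 - w x‖ ^ 2 = (1 - cos x) / 2 := by
  rw [← Complex.normSq_eq_norm_sq, w_apply, Complex.exp_mul_I]
  rw [← Complex.ofReal_cos, ← Complex.ofReal_sin]
  rw [Complex.normSq_apply]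
  have h1 : (Complex.cos x).re = cos x := Complex.cos_ofReal_re x
  have h2 : (Complex.sin x).re = sin x := Complex.sin_ofReal_re x
  simp
  rw [h1, h2]
  nlinarith [Real.sin_sq_add_cos_sq x]

lemma norm_w_le (x : ℝ) : ‖w x‖ ≤ 1 := by
  have h := normSq_w x
  have h2 := Real.cos_le_one x
  nlinarith [norm_nonneg (w x)]

lemma norm_w_lt {x : ℝ} (h0 : 0 < x) (h1 : x < 2 * π) : ‖w x‖ < 1 := by
  have h := normSq_w x
  have h2 : cos x < 1 := by
    rcases lt_or_eq_of_le (Real.cos_le_one x) with h2 | h2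
    · exact h2
    · exfalso
      rw [Real.cos_eq_one_iff_of_lt_of_lt (by linarith [Real.pi_pos]) h1] at h2
      linarith
  nlinarith [norm_nonneg (w x)]

lemma norm_one_sub_w_pow (x : ℝ) (n : ℕ) : ‖1 - w x ^ n‖ ≤ n * ‖1 - w x‖ := by
  have h : 1 - w x ^ n = (1 - w x) * ∑ i ∈ Finset.range n, w x ^ i := by
    rw [mul_comm, geom_sum_mul_neg]
  rw [h, norm_mul, mul_comm]
  refine mul_le_mul_of_nonneg_right ?_ (norm_nonneg _)
  refine (norm_sum_le _ _).trans ?_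
  calc ∑ i ∈ Finset.range n, ‖w x ^ i‖ ≤ ∑ i ∈ Finset.range n, (1:ℝ) := by
        refine Finset.sum_le_sum fun i _ => ?_
        rw [norm_pow]
        exact pow_le_one₀ (norm_nonneg _) (norm_w_le x)
    _ = n := by simp

/-- `(1 - w^n)^M - 1` tends to 0 in L¹ -/
lemma tendsto_W {P : ℝ → ℂ} (hP : Continuous P) {B : ℝ} (hB : ∀ x, ‖P x‖ ≤ B) (M : ℕ) :
    Tendsto (fun n : ℕ => ∫ x in (0:ℝ)..2 * π, ‖P x * (1 - w x ^ n) ^ M - P x‖) atTop (𝓝 0) := by
  have hwc : Continuous w := V_continuous w_mem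
  have h0 : (0:ℝ) = ∫ x in (0:ℝ)..2 * π, (0:ℝ) := by simp
  have h00 : 𝓝 (0:ℝ) = 𝓝 (∫ x in (0:ℝ)..2 * π, (0:ℝ)) := by rw [← h0]
  rw [h00]
  refine intervalIntegral.tendsto_integral_filter_of_dominated_convergence
    (fun _ => B * 2 ^ M + B) ?_ ?_ ?_ ?_
  · refine Eventually.of_forall fun n => ?_
    refine Continuous.aestronglyMeasurable ?_
    fun_prop
  · refine Eventually.of_forall fun n => Eventually.of_forall fun x _ => ?_
    rw [norm_norm]
    refine (norm_sub_le _ _).trans ?_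
    refine add_le_add ?_ (hB x)
    rw [norm_mul, norm_pow]
    have h1 : ‖1 - w x ^ n‖ ≤ 2 := by
      refine (norm_sub_le _ _).trans ?_
      rw [norm_one, norm_pow]
      have := pow_le_one₀ (n := n) (norm_nonneg _) (norm_w_le x)
      linarith
    have h2 : ‖1 - w x ^ n‖ ^ M ≤ 2 ^ M := pow_le_pow_left₀ (norm_nonneg _) h1 _
    exact mul_le_mul (hB x) h2 (by positivity) ((norm_nonneg _).trans (hB x))
  · exact intervalIntegrable_const
  · have hae : ∀ᵐ x : ℝ ∂volume, x ≠ 2 * π := by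
      simp [ae_iff, measure_singleton]
    filter_upwards [hae] with x hx hx'
    rw [Set.uIoc_of_le (by positivity)] at hx'
    have hlt : ‖w x‖ < 1 := norm_w_lt hx'.1 (lt_of_le_of_ne hx'.2 hx)
    have h1 : Tendsto (fun n : ℕ => w x ^ n) atTop (𝓝 0) := tendsto_pow_atTop_nhds_zero_of_norm_lt_one hlt
    have h2 : Tendsto (fun n : ℕ => ‖P x * (1 - w x ^ n) ^ M - P x‖) atTop (𝓝 ‖P x * (1 - 0) ^ M - P x‖) :=
      (((h1.const_sub 1).pow M).const_mul (P x)).sub_const (P x) |>.norm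
    simpa using h2

lemma step1 {d : ℕ} {P : ℝ → ℂ} (hP : P ∈ V (-d) d) (K m : ℕ) {η : ℝ} (hη : 0 < η) :
    ∃ (D : ℕ) (P1 : ℝ → ℂ) (C : ℝ), P1 ∈ V (-D) D ∧ 0 ≤ C ∧
      (∀ x, ‖P1 x‖ ≤ C * ((1 - cos x)/2)^m) ∧
      (∫ x in (0:ℝ)..2*π, ‖P1 x - P x‖) ≤ η ∧
      ∀ T : ℕ, ∑ l ∈ Finset.Icc 1 T, (l:ℝ)^K * ‖co (P1 - P) (-(l:ℤ))‖ ≤ η := by
  obtain ⟨B, hB0, hB⟩ := V_bounded hP
  have hlim := tendsto_W (V_continuous hP) hB (2 * m)
  set S : ℝ := ∑ l ∈ Finset.Icc 1 d, (l:ℝ)^K with hS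
  have hS0 : 0 ≤ S := Finset.sum_nonneg fun l _ => by positivity
  have hη' : 0 < η / (1 + S) := by positivity
  obtain ⟨n, hn⟩ := (hlim.eventually (ge_mem_nhds hη')).exists
  have hn' : ∫ x in (0:ℝ)..2 * π, ‖P x * (1 - w x ^ n) ^ (2 * m) - P x‖ ≤ η / (1 + S) := hn
  have hI0 : 0 ≤ ∫ x in (0:ℝ)..2 * π, ‖P x * (1 - w x ^ n) ^ (2 * m) - P x‖ :=
    intervalIntegral.integral_nonneg (by positivity) fun x _ => norm_nonneg _
  have hW : (1 - w ^ n) ^ (2 * m) - 1 ∈ V 0 ((2 * m * n : ℕ) : ℤ) := by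
    have h1 : w ^ n ∈ V 0 (n : ℤ) := by
      have := V_pow w_mem n
      simpa using this
    have h2 : 1 - w ^ n ∈ V 0 (n : ℤ) := Submodule.sub_mem _ (one_mem_V le_rfl (by positivity)) h1
    have h3 : (1 - w ^ n) ^ (2 * m) ∈ V 0 ((2 * m * n : ℕ) : ℤ) := by
      have := V_pow h2 (2 * m)
      simpa using this
    exact Submodule.sub_mem _ h3 (one_mem_V le_rfl (by positivity))
  have hPW : P * (1 - w ^ n) ^ (2 * m) - P ∈ V (-d) ((d + 2 * m * n : ℕ) : ℤ) := by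
    have h4 := V_mul hP hW
    rw [mul_sub, mul_one] at h4
    refine V_mono ?_ ?_ h4
    · simp
    · push_cast; linarith
  refine ⟨d + 2 * m * n, P * (1 - w ^ n) ^ (2 * m), B * (n : ℝ) ^ (2 * m), ?_, by positivity, ?_, ?_, ?_⟩
  · have h5 : P * (1 - w ^ n) ^ (2 * m) = (P * (1 - w ^ n) ^ (2 * m) - P) + P := by ring
    rw [h5]
    refine Submodule.add_mem _ (V_mono ?_ le_rfl hPW) (V_mono ?_ ?_ hP)
    · push_cast; nlinarith [Nat.zero_le (m * n)]
    · push_cast; nlinarith [Nat.zero_le (m * n)]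
    · push_cast; nlinarith [Nat.zero_le (m * n)]
  · intro x
    simp only [Pi.mul_apply, Pi.pow_apply, Pi.sub_apply, Pi.one_apply, norm_mul, norm_pow]
    rw [mul_assoc]
    refine mul_le_mul (hB x) ?_ (by positivity) hB0
    rw [← normSq_one_sub_w, ← pow_mul, ← mul_pow]
    exact pow_le_pow_left₀ (norm_nonneg _) (norm_one_sub_w_pow x n) _
  · refine le_trans (b := η / (1 + S)) ?_ (div_le_self hη.le (by linarith))
    exact hn'
  · intro T
    have hco : ∀ l : ℕ, ‖co (P * (1 - w ^ n) ^ (2 * m) - P) (-(l:ℤ))‖ ≤ η / (1 + S) := fun l =>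
      (norm_co_le _ _).trans hn'
    have hco0 : ∀ l : ℕ, d < l → co (P * (1 - w ^ n) ^ (2 * m) - P) (-(l:ℤ)) = 0 := by
      intro l hl
      refine co_eq_zero hPW ?_
      rintro ⟨h1, _⟩
      have : (l:ℤ) ≤ d := by linarith
      have : l ≤ d := by exact_mod_cast this
      omega
    calc ∑ l ∈ Finset.Icc 1 T, (l:ℝ)^K * ‖co (P * (1 - w ^ n) ^ (2 * m) - P) (-(l:ℤ))‖
        ≤ ∑ l ∈ Finset.Icc 1 d, (l:ℝ)^K * ‖co (P * (1 - w ^ n) ^ (2 * m) - P) (-(l:ℤ))‖ := by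
          rw [← Finset.sum_filter_add_sum_filter_not (Finset.Icc 1 T) (fun l => l ≤ d)]
          have hz : ∑ l ∈ (Finset.Icc 1 T).filter (fun l => ¬ l ≤ d),
              (l:ℝ)^K * ‖co (P * (1 - w ^ n) ^ (2 * m) - P) (-(l:ℤ))‖ = 0 := by
            refine Finset.sum_eq_zero fun l hl => ?_
            rw [Finset.mem_filter] at hl
            rw [hco0 l (not_le.mp hl.2), norm_zero, mul_zero]
          rw [hz, add_zero]
          refine Finset.sum_le_sum_of_subset_of_nonneg ?_ fun l _ _ => by positivity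
          intro l hl
          rw [Finset.mem_filter, Finset.mem_Icc] at hl
          rw [Finset.mem_Icc]
          exact ⟨hl.1.1, hl.2⟩
      _ ≤ ∑ l ∈ Finset.Icc 1 d, (l:ℝ)^K * (η / (1 + S)) :=
          Finset.sum_le_sum fun l _ => mul_le_mul_of_nonneg_left (hco l) (by positivity)
      _ = S * (η / (1 + S)) := by rw [← Finset.sum_mul]
      _ ≤ (1 + S) * (η / (1 + S)) := by nlinarith
      _ = η := by field_simp

end Pool.Agent.Helper418.QA
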