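import Mathlib
import Pool.Agent.Helper418.QA1

set_option autoImplicit false
open Real Filter Topology MeasureTheory

namespace Pool.Agent.Helper418.QA

/-- `c(x) = (1+cos x)/2` as complex function -/
noncomputable def cc : ℝ → ℂ := fun x => (((1 + cos x) / 2 : ℝ) : ℂ)

lemma cc_mem : cc ∈ V (-1) 1 := by
  have : cc = (1/4 : ℂ) • ((2:ℂ) • 1 + (ek 1 + ek (-1))) := by
    funext x
    simp only [cc, ek, Pi.smul_apply, Pi.add_apply, Pi.one_apply, smul_eq_mul]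
    push_cast
    rw [Complex.cos]
    have h1 : (1:ℂ) * Complex.I * (x:ℂ) = x * Complex.I := by ring
    have h2 : (-1:ℂ) * Complex.I * (x:ℂ) = -x * Complex.I := by ring
    rw [h1, h2]
    ring
  rw [this]
  refine Submodule.smul_mem _ _ (Submodule.add_mem _ (Submodule.smul_mem _ _ (one_mem_V (by norm_num) (by norm_num)))
    (Submodule.add_mem _ (ek_mem (by norm_num) le_rfl) (ek_mem le_rfl (by norm_num))))

lemma c_nonneg (x : ℝ) : 0 ≤ (1 + cos x) / 2 := by linarith [Real.neg_one_le_cos x]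
lemma c_le_one (x : ℝ) : (1 + cos x) / 2 ≤ 1 := by linarith [Real.cos_le_one x]

/-- `(1-c) c^ν ≤ 1/(ν+1)` -/
lemma aux_mul {c : ℝ} (h0 : 0 ≤ c) (h1 : c ≤ 1) (ν : ℕ) : (1 - c) * c ^ ν ≤ 1 / (ν + 1) := by
  have h2 : (1 - c) * ∑ i ∈ Finset.range (ν + 1), c ^ i = 1 - c ^ (ν + 1) := by
    rw [mul_comm, geom_sum_mul_neg]
  have h3 : ((ν : ℝ) + 1) * c ^ ν ≤ ∑ i ∈ Finset.range (ν + 1), c ^ i := by
    calc ((ν : ℝ) + 1) * c ^ ν = ∑ i ∈ Finset.range (ν + 1), c ^ ν := by simp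
      _ ≤ ∑ i ∈ Finset.range (ν + 1), c ^ i := by
        refine Finset.sum_le_sum fun i hi => ?_
        exact pow_le_pow_of_le_one h0 h1 (by simp at hi; omega)
  rw [le_div_iff₀ (by positivity)]
  have h4 := mul_le_mul_of_nonneg_left h3 (by linarith : 0 ≤ 1 - c)
  have h5 : 0 ≤ c ^ (ν + 1) := by positivity
  nlinarith

/-- lower bound for `∫ c^N` -/
lemma integral_c_pow {N : ℕ} (hN : 1 ≤ N) :
    1 / (2 * N : ℝ) ≤ ∫ x in (0:ℝ)..2 * π, ((1 + cos x) / 2) ^ N := by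
  have hNr : (1:ℝ) ≤ N := by exact_mod_cast hN
  have hle : (1:ℝ) / N ≤ 2 * π := by
    have : (1:ℝ) / N ≤ 1 := by
      rw [div_le_one (by positivity)]; exact hNr
    linarith [Real.pi_gt_three]
  have hcont : Continuous (fun x : ℝ => ((1 + cos x) / 2) ^ N) := by fun_prop
  rw [← intervalIntegral.integral_add_adjacent_intervals (b := 1 / N) (hcont.intervalIntegrable _ _)
    (hcont.intervalIntegrable _ _)]
  have h1 : 0 ≤ ∫ x in (1 / N : ℝ)..2 * π, ((1 + cos x) / 2) ^ N :=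
    intervalIntegral.integral_nonneg hle fun x _ => pow_nonneg (c_nonneg x) _
  have h2 : ∫ x in (0:ℝ)..(1/N), (1/2 : ℝ) ≤ ∫ x in (0:ℝ)..(1/N), ((1 + cos x) / 2) ^ N := by
    refine intervalIntegral.integral_mono_on (by positivity) intervalIntegrable_const
      (hcont.intervalIntegrable _ _) ?_
    intro x hx
    have h3 := Real.one_sub_sq_div_two_le_cos (x := x)
    have hx2 : x ≤ 1 / N := hx.2
    have hx0 : 0 ≤ x := hx.1
    have hxN : x * N ≤ 1 := by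
      rw [le_div_iff₀ (by positivity)] at hx2; exact hx2
    have hx1 : x ≤ 1 := by nlinarith
    have h4 : 1 - x ^ 2 / 4 ≤ (1 + cos x) / 2 := by linarith
    have h5 : (1 + (N:ℝ) * (-(x^2/4))) ≤ (1 + (-(x^2/4))) ^ N := one_add_mul_le_pow (by nlinarith) N
    calc (1/2 : ℝ) ≤ 1 + (N:ℝ) * (-(x^2/4)) := by nlinarith
      _ ≤ (1 + (-(x^2/4))) ^ N := h5
      _ ≤ ((1 + cos x) / 2) ^ N := pow_le_pow_left₀ (by nlinarith) (by linarith) _
  simp only [intervalIntegral.integral_const, sub_zero, smul_eq_mul] at h2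
  calc 1 / (2 * N : ℝ) = 1 / N * (1/2) := by field_simp
    _ ≤ _ := by linarith

/-- the multiplier `g = (1 - c^(m ν))^(ν²)` -/
noncomputable def gg (m ν : ℕ) : ℝ → ℂ := (1 - cc ^ (m * ν)) ^ (ν ^ 2)

lemma gg_apply (m ν : ℕ) (x : ℝ) :
    gg m ν x = (((1 - ((1 + cos x) / 2) ^ (m * ν)) ^ (ν ^ 2) : ℝ) : ℂ) := by
  simp [gg, cc]

lemma gg_mem (m ν : ℕ) : gg m ν ∈ V (-(m * ν ^ 3 : ℕ)) ((m * ν ^ 3 : ℕ) : ℤ) := by
  have h1 : cc ^ (m * ν) ∈ V (-(m * ν : ℕ)) ((m * ν : ℕ) : ℤ) := by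
    have := V_pow cc_mem (m * ν)
    simpa using this
  have h2 : 1 - cc ^ (m * ν) ∈ V (-(m * ν : ℕ)) ((m * ν : ℕ) : ℤ) :=
    Submodule.sub_mem _ (one_mem_V (by simp; positivity) (by positivity)) h1
  have h3 := V_pow h2 (ν ^ 2)
  unfold gg
  refine V_mono (le_of_eq ?_) (le_of_eq ?_) h3
  · push_cast; ring
  · push_cast; ring

lemma one_sub_gg (m ν : ℕ) (x : ℝ) :
    0 ≤ 1 - (1 - ((1 + cos x) / 2) ^ (m * ν)) ^ (ν ^ 2) ∧
    1 - (1 - ((1 + cos x) / 2) ^ (m * ν)) ^ (ν ^ 2) ≤ (ν : ℝ) ^ 2 * ((1 + cos x) / 2) ^ (m * ν) := by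
  have h0 := c_nonneg x
  have h1 := c_le_one x
  set y : ℝ := ((1 + cos x) / 2) ^ (m * ν) with hy
  have hy0 : 0 ≤ y := pow_nonneg h0 _
  have hy1 : y ≤ 1 := pow_le_one₀ h0 h1
  constructor
  · have : (1 - y) ^ (ν ^ 2) ≤ 1 := pow_le_one₀ (by linarith) (by linarith)
    linarith
  · have h5 : (1 + ((ν^2 : ℕ):ℝ) * (-y)) ≤ (1 + (-y)) ^ (ν^2) := one_add_mul_le_pow (by linarith) _
    push_cast at h5
    have : (1 + -y) = 1 - y := by ring
    rw [this] at h5
    linarith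

lemma key_sup {m ν : ℕ} (x : ℝ) :
    ((1 - cos x)/2)^m * (1 - (1 - ((1 + cos x) / 2) ^ (m * ν)) ^ (ν ^ 2)) ≤ (ν:ℝ)^2 * (1 / (ν + 1)) ^ m := by
  have h0 := c_nonneg x
  have h1 := c_le_one x
  have hs : 0 ≤ (1 - cos x) / 2 := by linarith [Real.cos_le_one x]
  have h2 := (one_sub_gg m ν x).2
  have h3 : (1 - cos x) / 2 = 1 - (1 + cos x) / 2 := by ring
  calc ((1 - cos x)/2)^m * (1 - (1 - ((1 + cos x) / 2) ^ (m * ν)) ^ (ν ^ 2))
      ≤ ((1 - cos x)/2)^m * ((ν : ℝ) ^ 2 * ((1 + cos x) / 2) ^ (m * ν)) :=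
        mul_le_mul_of_nonneg_left h2 (by positivity)
    _ = (ν:ℝ)^2 * ((1 - (1 + cos x) / 2) * ((1 + cos x) / 2) ^ ν) ^ m := by
        rw [h3, mul_pow, ← pow_mul, mul_comm ν m]; ring
    _ ≤ (ν:ℝ)^2 * (1 / (ν + 1)) ^ m := by
        refine mul_le_mul_of_nonneg_left ?_ (by positivity)
        refine pow_le_pow_left₀ ?_ (aux_mul h0 h1 ν) _
        exact mul_nonneg (by linarith) (by positivity)

lemma step2 {D : ℕ} {P1 : ℝ → ℂ} (hP : P1 ∈ V (-D) D) (K : ℕ) {C : ℝ} (hC : 0 ≤ C)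
    (hb : ∀ x, ‖P1 x‖ ≤ C * ((1 - cos x)/2)^(3*K+6)) {η : ℝ} (hη : 0 < η) (R : ℝ) :
    ∃ (D' : ℕ) (P2 : ℝ → ℂ) (δ : ℝ), P2 ∈ V (-D') D' ∧ 0 < δ ∧
      (∫ x in (0:ℝ)..2*π, ‖P2 x - P1 x‖) ≤ η ∧
      (∀ T : ℕ, ∑ l ∈ Finset.Icc 1 T, (l:ℝ)^K * ‖co (P2 - P1) (-(l:ℤ))‖ ≤ η) ∧
      (∫ x in (0:ℝ)..2*π, Real.log (‖P2 x‖ + δ)) ≤ -R := by
  set m : ℕ := 3 * K + 6 with hm
  -- choose ν
  obtain ⟨ν, hν⟩ := exists_nat_gt
    (max (max 1 ((D + m)^(K+1) * (2 * π * C) / η)) (2 * m * (R + 2 * π * (Real.log (C + 1) + 1))))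
  have hν1 : (1:ℝ) < ν := lt_of_le_of_lt ((le_max_left _ _).trans (le_max_left _ _)) hν
  have hν2 : (D + m)^(K+1) * (2 * π * C) / η < ν := lt_of_le_of_lt ((le_max_right _ _).trans (le_max_left _ _)) hν
  have hν3 : 2 * m * (R + 2 * π * (Real.log (C + 1) + 1)) < ν := lt_of_le_of_lt (le_max_right _ _) hν
  have hνn : 1 ≤ ν := by exact_mod_cast hν1.le
  have hmpos : (0:ℝ) < m := by rw [hm]; positivity
  have hm1 : 1 ≤ m := by omega
  set D' : ℕ := D + m * ν ^ 3 with hD'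
  have hmem : P1 * gg m ν ∈ V (-D') D' := by
    refine V_mono (le_of_eq ?_) (le_of_eq ?_) (V_mul hP (gg_mem m ν))
    · rw [hD']; push_cast; ring
    · rw [hD']; push_cast; ring
  have hsup : ∀ x, ‖(P1 * gg m ν) x - P1 x‖ ≤ C * ((ν:ℝ)^2 * (1 / (ν + 1)) ^ m) := by
    intro x
    have h1 : (P1 * gg m ν) x - P1 x = - (P1 x * (1 - gg m ν x)) := by
      simp only [Pi.mul_apply]; ring
    rw [h1, norm_neg, norm_mul]
    have h2 : ‖1 - gg m ν x‖ = 1 - (1 - ((1 + cos x) / 2) ^ (m * ν)) ^ (ν ^ 2) := by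
      rw [gg_apply]
      rw [← Complex.ofReal_one, ← Complex.ofReal_sub, Complex.norm_real, Real.norm_of_nonneg]
      exact (one_sub_gg m ν x).1
    rw [h2]
    calc ‖P1 x‖ * (1 - (1 - ((1 + cos x) / 2) ^ (m * ν)) ^ (ν ^ 2))
        ≤ (C * ((1 - cos x)/2)^m) * (1 - (1 - ((1 + cos x) / 2) ^ (m * ν)) ^ (ν ^ 2)) :=
          mul_le_mul_of_nonneg_right (hb x) (one_sub_gg m ν x).1
      _ = C * (((1 - cos x)/2)^m * (1 - (1 - ((1 + cos x) / 2) ^ (m * ν)) ^ (ν ^ 2))) := by ring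
      _ ≤ _ := mul_le_mul_of_nonneg_left (key_sup x) hC
  -- the sup bound is at most C ν^{-(3K+4)}
  have hsup2 : C * ((ν:ℝ)^2 * (1 / (ν + 1)) ^ m) ≤ C / ν ^ (3 * K + 4) := by
    have h1 : (1 / ((ν:ℝ) + 1)) ^ m ≤ (1 / (ν:ℝ)) ^ m := by
      refine pow_le_pow_left₀ (by positivity) ?_ _
      exact one_div_le_one_div_of_le (by linarith) (by linarith)
    have h2 : (ν:ℝ)^2 * (1 / (ν:ℝ)) ^ m = 1 / ν ^ (3 * K + 4) := by
      have : m = 2 + (3 * K + 4) := by omega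
      rw [this, pow_add, one_div, inv_pow, inv_pow]
      have : (ν:ℝ) ≠ 0 := by positivity
      field_simp
    calc C * ((ν:ℝ)^2 * (1 / (ν + 1)) ^ m) ≤ C * ((ν:ℝ)^2 * (1 / (ν:ℝ)) ^ m) := by
          refine mul_le_mul_of_nonneg_left (mul_le_mul_of_nonneg_left h1 (by positivity)) hC
      _ = C / ν ^ (3 * K + 4) := by rw [h2]; ring
  have hIle : (∫ x in (0:ℝ)..2*π, ‖(P1 * gg m ν) x - P1 x‖) ≤ 2 * π * (C / ν ^ (3 * K + 4)) := by
    have h1 : (∫ x in (0:ℝ)..2*π, ‖(P1 * gg m ν) x - P1 x‖) ≤ ∫ x in (0:ℝ)..2*π, (C / ν ^ (3 * K + 4)) := by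
      refine intervalIntegral.integral_mono_on (by positivity) ?_ intervalIntegrable_const ?_
      · exact (((V_continuous hmem).sub (V_continuous hP)).norm).intervalIntegrable _ _
      · intro x _
        exact (hsup x).trans hsup2
    rw [intervalIntegral.integral_const, sub_zero, smul_eq_mul] at h1
    exact h1
  -- main quantitative inequality
  have hDm : (D' : ℝ) ≤ (D + m) * ν ^ 3 := by
    rw [hD']; push_cast
    have : (1:ℝ) ≤ (ν:ℝ) ^ 3 := one_le_pow₀ hν1.le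
    have hD0 : (0:ℝ) ≤ D := by positivity
    nlinarith
  have hD'1 : (1:ℝ) ≤ D' := by
    have : 1 ≤ D' := by
      rw [hD']
      have : 1 ≤ m * ν ^ 3 := Nat.mul_pos (by omega) (by positivity)
      omega
    exact_mod_cast this
  have hquant : (D' : ℝ) ^ (K + 1) * (2 * π * (C / ν ^ (3 * K + 4))) ≤ η := by
    have h1 : (D' : ℝ) ^ (K + 1) ≤ ((D + m) * ν ^ 3) ^ (K + 1) := pow_le_pow_left₀ (by positivity) hDm _
    have h2 : ((D + m : ℝ) * ν ^ 3) ^ (K + 1) * (2 * π * (C / ν ^ (3 * K + 4))) =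
        (D + m : ℝ)^(K+1) * (2 * π * C) / ν := by
      rw [mul_pow, ← pow_mul]
      have : 3 * K + 4 = 3 * (K + 1) + 1 := by ring
      rw [this, pow_succ (ν:ℝ) (3 * (K+1))]
      have : (ν:ℝ) ≠ 0 := by positivity
      field_simp
    have h3 : (D + m : ℝ)^(K+1) * (2 * π * C) / ν ≤ η := by
      rw [div_le_iff₀ (by positivity)]
      rw [div_lt_iff₀ hη] at hν2
      linarith
    calc (D' : ℝ) ^ (K + 1) * (2 * π * (C / ν ^ (3 * K + 4)))
        ≤ ((D + m) * ν ^ 3) ^ (K + 1) * (2 * π * (C / ν ^ (3 * K + 4))) :=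
          mul_le_mul_of_nonneg_right h1 (by positivity)
      _ ≤ η := by rw [h2]; exact h3
  have hI0 : 0 ≤ 2 * π * (C / (ν:ℝ) ^ (3 * K + 4)) := by positivity
  set L : ℕ := ν ^ 2 with hL
  have hLr : (1:ℝ) ≤ L := by rw [hL]; push_cast; nlinarith
  refine ⟨D', P1 * gg m ν, (C + 1) * (1 / L) ^ L, hmem, by positivity, ?_, ?_, ?_⟩
  · refine hIle.trans (le_trans ?_ hquant)
    exact le_mul_of_one_le_left hI0 (one_le_pow₀ hD'1)
  · intro T
    have hdiff : P1 * gg m ν - P1 ∈ V (-D') D' := by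
      refine Submodule.sub_mem _ hmem (V_mono ?_ ?_ hP)
      · rw [hD']; push_cast; nlinarith [Nat.zero_le (m * ν^3)]
      · rw [hD']; push_cast; nlinarith [Nat.zero_le (m * ν^3)]
    have hco : ∀ l : ℕ, ‖co (P1 * gg m ν - P1) (-(l:ℤ))‖ ≤ 2 * π * (C / ν ^ (3 * K + 4)) := fun l =>
      (norm_co_le _ _).trans hIle
    calc ∑ l ∈ Finset.Icc 1 T, (l:ℝ)^K * ‖co (P1 * gg m ν - P1) (-(l:ℤ))‖
        ≤ ∑ l ∈ Finset.Icc 1 D', (l:ℝ)^K * ‖co (P1 * gg m ν - P1) (-(l:ℤ))‖ := by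
          rw [← Finset.sum_filter_add_sum_filter_not (Finset.Icc 1 T) (fun l => l ≤ D')]
          have hz : ∑ l ∈ (Finset.Icc 1 T).filter (fun l => ¬ l ≤ D'),
              (l:ℝ)^K * ‖co (P1 * gg m ν - P1) (-(l:ℤ))‖ = 0 := by
            refine Finset.sum_eq_zero fun l hl => ?_
            rw [Finset.mem_filter] at hl
            rw [co_eq_zero hdiff, norm_zero, mul_zero]
            rintro ⟨h1, _⟩
            have : (l:ℤ) ≤ D' := by linarith
            exact hl.2 (by exact_mod_cast this)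
          rw [hz, add_zero]
          refine Finset.sum_le_sum_of_subset_of_nonneg ?_ fun l _ _ => by positivity
          intro l hl
          rw [Finset.mem_filter, Finset.mem_Icc] at hl
          rw [Finset.mem_Icc]
          exact ⟨hl.1.1, hl.2⟩
      _ ≤ ∑ l ∈ Finset.Icc 1 D', (D':ℝ)^K * (2 * π * (C / ν ^ (3 * K + 4))) := by
          refine Finset.sum_le_sum fun l hl => ?_
          rw [Finset.mem_Icc] at hl
          refine mul_le_mul (pow_le_pow_left₀ (by positivity) (by exact_mod_cast hl.2) _) (hco l)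
            (norm_nonneg _) (by positivity)
      _ = (D' : ℝ) ^ (K + 1) * (2 * π * (C / ν ^ (3 * K + 4))) := by
          rw [Finset.sum_const, Nat.card_Icc, nsmul_eq_mul]
          simp only [Nat.add_sub_cancel]
          ring
      _ ≤ η := hquant
  · -- log integral
    have hpt : ∀ x, Real.log (‖(P1 * gg m ν) x‖ + (C + 1) * (1 / L) ^ L) ≤
        (Real.log (C + 1) + 1) - L * ((1 + cos x) / 2) ^ (m * ν) := by
      intro x
      have h0 := c_nonneg x
      have h1 := c_le_one x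
      have hy0 : 0 ≤ ((1 + cos x) / 2) ^ (m * ν) := pow_nonneg h0 _
      have hy1 : ((1 + cos x) / 2) ^ (m * ν) ≤ 1 := pow_le_one₀ h0 h1
      set y : ℝ := ((1 + cos x) / 2) ^ (m * ν) with hy
      have h2 : ‖(P1 * gg m ν) x‖ ≤ (C + 1) * (1 - y) ^ L := by
        rw [Pi.mul_apply, norm_mul, gg_apply, Complex.norm_real, Real.norm_of_nonneg
          (pow_nonneg (by linarith) _)]
        refine mul_le_mul_of_nonneg_right ?_ (pow_nonneg (by linarith) _)
        refine (hb x).trans ?_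
        have hs : 0 ≤ (1 - cos x) / 2 := by linarith [Real.cos_le_one x]
        have hs1 : (1 - cos x) / 2 ≤ 1 := by linarith [Real.neg_one_le_cos x]
        have := pow_le_one₀ (n := 3*K+6) hs hs1
        nlinarith
      have h3 : (1 - y) ^ L + (1 / (L:ℝ)) ^ L ≤ ((1 - y) + 1 / L) ^ L :=
        pow_add_pow_le (by linarith) (by positivity) (by rw [hL]; positivity)
      have h4 : 0 < (1 - y) + 1 / (L:ℝ) := by
        have : 0 < 1 / (L:ℝ) := by positivity
        linarith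
      have h5 : ‖(P1 * gg m ν) x‖ + (C + 1) * (1 / L) ^ L ≤ (C + 1) * ((1 - y) + 1 / L) ^ L := by
        nlinarith
      calc Real.log (‖(P1 * gg m ν) x‖ + (C + 1) * (1 / L) ^ L)
          ≤ Real.log ((C + 1) * ((1 - y) + 1 / L) ^ L) := Real.log_le_log (by positivity) h5
        _ = Real.log (C + 1) + L * Real.log ((1 - y) + 1 / L) := by
            rw [Real.log_mul (by positivity) (by positivity), Real.log_pow]
        _ ≤ Real.log (C + 1) + L * (((1 - y) + 1 / L) - 1) := by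
            have := Real.log_le_sub_one_of_pos h4
            have hL0 : (0:ℝ) ≤ L := by positivity
            nlinarith
        _ = (Real.log (C + 1) + 1) - L * y := by
            field_simp; ring
    have hcont1 : Continuous (fun x => Real.log (‖(P1 * gg m ν) x‖ + (C + 1) * (1 / (L:ℝ)) ^ L)) := by
      refine Continuous.log ?_ ?_
      · exact ((V_continuous hmem).norm).add continuous_const
      · intro x; positivity
    have hcont2 : Continuous (fun x : ℝ => (Real.log (C + 1) + 1) - L * ((1 + cos x) / 2) ^ (m * ν)) := by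
      fun_prop
    have hint : (∫ x in (0:ℝ)..2*π, Real.log (‖(P1 * gg m ν) x‖ + (C + 1) * (1 / (L:ℝ)) ^ L)) ≤
        ∫ x in (0:ℝ)..2*π, ((Real.log (C + 1) + 1) - L * ((1 + cos x) / 2) ^ (m * ν)) :=
      intervalIntegral.integral_mono_on (by positivity) (hcont1.intervalIntegrable _ _)
        (hcont2.intervalIntegrable _ _) fun x _ => hpt x
    refine hint.trans ?_
    rw [intervalIntegral.integral_sub intervalIntegrable_const
      (Continuous.intervalIntegrable (by fun_prop) _ _)]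
    rw [intervalIntegral.integral_const_mul]
    have hmν : 1 ≤ m * ν := Nat.mul_pos (by omega) (by omega)
    have hic := integral_c_pow hmν
    simp only [intervalIntegral.integral_const, sub_zero, smul_eq_mul]
    have h6 : (L:ℝ) * (1 / (2 * (m * ν : ℕ) : ℝ)) ≤ L * ∫ x in (0:ℝ)..2 * π, ((1 + cos x) / 2) ^ (m * ν) :=
      mul_le_mul_of_nonneg_left hic (by positivity)
    have h7 : (L:ℝ) * (1 / (2 * (m * ν : ℕ) : ℝ)) = ν / (2 * m) := by
      rw [hL]; push_cast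
      have : (ν:ℝ) ≠ 0 := by positivity
      field_simp
    have h8 : R + 2 * π * (Real.log (C + 1) + 1) ≤ ν / (2 * m) := by
      rw [le_div_iff₀ (by positivity)]
      linarith
    linarith

end Pool.Agent.Helper418.QA
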