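import Mathlib

set_option autoImplicit false
open Real Filter Topology MeasureTheory

namespace Pool.Agent.Helper418.QA

lemma exists_mu (K t : ℕ → ℕ) (hK : StrictMono K) (hK0 : K 0 = 0) (ht : Monotone t)
    (ht1 : ∀ i, 1 ≤ t i) (hti : ∀ i, i ≤ t i) :
    ∃ μ : ℕ → ℕ, Monotone μ ∧ (∀ k, 1 ≤ μ k) ∧ (∀ i k, K i ≤ k → t i ≤ μ k) ∧
      (∀ i k, k < K (i+1) → μ k ≤ t i) ∧ ∀ a, ∃ k0, ∀ k, k0 ≤ k → a ≤ μ k := by
  have hKi : ∀ i, i ≤ K i := fun i => hK.id_le i
  let μ : ℕ → ℕ := fun k => (Finset.range (k+1)).sup (fun i => if K i ≤ k then t i else 0)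
  have h3 : ∀ i k, K i ≤ k → t i ≤ μ k := by
    intro i k hik
    have hi : i ∈ Finset.range (k+1) := by
      rw [Finset.mem_range]
      have := hKi i
      omega
    have := Finset.le_sup (f := fun i => if K i ≤ k then t i else 0) hi
    simpa [hik] using this
  refine ⟨μ, ?_, ?_, h3, ?_, ?_⟩
  · intro k l hkl
    refine Finset.sup_le fun i hi => ?_
    by_cases h : K i ≤ k
    · simp only [h, if_true]
      exact h3 i l (h.trans hkl)
    · simp [h]
  · intro k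
    exact (ht1 0).trans (h3 0 k (by rw [hK0]; exact Nat.zero_le _))
  · intro i k hk
    refine Finset.sup_le fun j hj => ?_
    by_cases h : K j ≤ k
    · simp only [h, if_true]
      refine ht ?_
      by_contra hc
      push Not at hc
      have : K (i+1) ≤ K j := hK.monotone hc
      omega
    · simp [h]
  · intro a
    exact ⟨K a, fun k hk => (hti a).trans (h3 a k hk)⟩

/-- `M n = ∏_{k<n} μ_k` -/
noncomputable def MM (μ : ℕ → ℕ) (n : ℕ) : ℝ := ∏ k ∈ Finset.range n, (μ k : ℝ)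

lemma MM_succ (μ : ℕ → ℕ) (n : ℕ) : MM μ (n+1) = MM μ n * μ n := by
  unfold MM
  rw [Finset.prod_range_succ]

lemma MM_pos {μ : ℕ → ℕ} (h1 : ∀ k, 1 ≤ μ k) (n : ℕ) : 0 < MM μ n := by
  unfold MM
  refine Finset.prod_pos fun k _ => ?_
  exact_mod_cast h1 k

lemma one_le_MM {μ : ℕ → ℕ} (h1 : ∀ k, 1 ≤ μ k) (n : ℕ) : 1 ≤ MM μ n := by
  induction n with
  | zero => simp [MM]
  | succ n ih =>
    rw [MM_succ]
    have : (1:ℝ) ≤ μ n := by exact_mod_cast h1 n
    nlinarith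

lemma MM_logconvex {μ : ℕ → ℕ} (hm : Monotone μ) (h1 : ∀ k, 1 ≤ μ k) (n : ℕ) (hn : 1 ≤ n) :
    MM μ n ^ 2 ≤ MM μ (n - 1) * MM μ (n + 1) := by
  obtain ⟨k, rfl⟩ : ∃ k, n = k + 1 := ⟨n - 1, by omega⟩
  rw [MM_succ μ (k+1), Nat.add_sub_cancel, MM_succ μ k]
  have h0 := MM_pos h1 k
  have h2 : (μ k : ℝ) ≤ μ (k+1) := by exact_mod_cast hm (Nat.le_succ k)
  have h3 : (0:ℝ) ≤ μ k := by positivity
  have h4 : 0 ≤ MM μ k ^ 2 * μ k := by positivity
  nlinarith [mul_le_mul_of_nonneg_left h2 h4]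

lemma MM_tendsto {μ : ℕ → ℕ} (h1 : ∀ k, 1 ≤ μ k) (hinf : ∀ a, ∃ k0, ∀ k, k0 ≤ k → a ≤ μ k)
    (x : ℝ) (hx : 0 ≤ x) : Tendsto (fun n : ℕ => x ^ n / MM μ n) atTop (𝓝 0) := by
  refine Summable.tendsto_atTop_zero ?_
  refine summable_of_ratio_norm_eventually_le (r := 1/2) (by norm_num) ?_
  obtain ⟨a, ha⟩ := exists_nat_ge (2 * x)
  obtain ⟨k0, hk0⟩ := hinf a
  filter_upwards [eventually_ge_atTop k0] with n hn
  have h2 : (a:ℝ) ≤ μ n := by exact_mod_cast hk0 n hn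
  have h3 : (0:ℝ) < μ n := by exact_mod_cast h1 n
  have h4 := MM_pos h1 n
  rw [Real.norm_of_nonneg (div_nonneg (pow_nonneg hx _) (MM_pos h1 _).le),
    Real.norm_of_nonneg (div_nonneg (pow_nonneg hx _) (MM_pos h1 _).le), MM_succ, pow_succ]
  rw [mul_div_mul_comm, mul_comm]
  refine mul_le_mul_of_nonneg_right ?_ (div_nonneg (pow_nonneg hx _) h4.le)
  rw [div_le_iff₀ h3]
  linarith

lemma MM_ge {μ : ℕ → ℕ} (h1 : ∀ k, 1 ≤ μ k) {K t : ℕ} (h : ∀ k, K ≤ k → t ≤ μ k) (k : ℕ) :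
    (t:ℝ) ^ k ≤ MM μ (K + k) := by
  induction k with
  | zero => simpa using one_le_MM h1 K
  | succ k ih =>
    rw [← add_assoc, MM_succ, pow_succ]
    have h2 : (t:ℝ) ≤ μ (K + k) := by exact_mod_cast h _ (Nat.le_add_right _ _)
    exact mul_le_mul ih h2 (by positivity) (MM_pos h1 _).le

lemma MM_le {μ : ℕ → ℕ} {K t : ℕ} (h : ∀ k, k < K → μ k ≤ t) : MM μ K ≤ (t:ℝ) ^ K := by
  unfold MM
  calc ∏ k ∈ Finset.range K, (μ k : ℝ) ≤ ∏ k ∈ Finset.range K, (t:ℝ) := by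
        refine Finset.prod_le_prod (fun k _ => by positivity) fun k hk => ?_
        exact_mod_cast h k (Finset.mem_range.mp hk)
    _ = (t:ℝ)^K := by simp

/-- Taylor bound for a function flat at `x₀` -/
lemma flat_bound {g : ℝ → ℂ} (hg : ContDiff ℝ ((⊤ : ℕ∞) : WithTop ℕ∞) g) {x₀ : ℝ}
    (h0 : ∀ n, iteratedDeriv n g x₀ = 0) (n : ℕ) {B : ℝ}
    (hB : ∀ x, ‖iteratedDeriv (n+1) g x‖ ≤ B) {x : ℝ} (hx : x₀ ≤ x) :
    ‖g x‖ ≤ B * (x - x₀) ^ (n+1) / n.factorial := by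
  have hab : x₀ < x + 1 := by linarith
  have hu := uniqueDiffOn_Icc hab
  have hgn : ∀ m : ℕ, ContDiff ℝ (m : WithTop ℕ∞) g := fun m =>
    hg.of_le (by exact_mod_cast le_top)
  have h1 : ContDiffOn ℝ (n + 1) g (Set.Icc x₀ (x+1)) := by
    have := (hgn (n+1)).contDiffOn (s := Set.Icc x₀ (x+1))
    exact_mod_cast this
  have h2 := taylor_mean_remainder_bound (C := B) hab.le h1 (⟨hx, by linarith⟩ : x ∈ Set.Icc x₀ (x+1)) ?_
  · have h3 : taylorWithinEval g n (Set.Icc x₀ (x+1)) x₀ x = 0 := by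
      rw [taylor_within_apply]
      refine Finset.sum_eq_zero fun k _ => ?_
      rw [iteratedDerivWithin_eq_iteratedDeriv hu ((hgn k).contDiffAt) (Set.left_mem_Icc.mpr hab.le), h0 k,
        smul_zero]
    rw [h3, sub_zero] at h2
    exact h2
  · intro y hy
    rw [iteratedDerivWithin_eq_iteratedDeriv hu (by exact_mod_cast (hgn (n+1)).contDiffAt) hy]
    exact hB y

/-- quasianalyticity of the class -/
lemma quasi {μ : ℕ → ℕ} (K t : ℕ → ℕ) (h1 : ∀ k, 1 ≤ μ k)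
    (hle : ∀ i k, k < K (i+1) → μ k ≤ t i) (hKt : ∀ i, (i+1) * t i ≤ K (i+1)) (ht1 : ∀ i, 1 ≤ t i)
    (g : ℝ → ℂ) (hg : ContDiff ℝ ((⊤ : ℕ∞) : WithTop ℕ∞) g) (hper : Function.Periodic g (2 * π))
    (hb : ∃ C Q : ℝ, 0 < C ∧ 0 < Q ∧ ∀ n : ℕ, ∀ x : ℝ, ‖iteratedDeriv n g x‖ ≤ C * Q ^ n * MM μ n)
    (h0 : ∃ x₀ : ℝ, ∀ n : ℕ, iteratedDeriv n g x₀ = 0) : g = 0 := by
  obtain ⟨C, Q, hC, hQ, hb⟩ := hb
  obtain ⟨x₀, h0⟩ := h0
  have key : ∀ x, x₀ ≤ x → g x = 0 := by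
    intro x hx
    set y := x - x₀ with hy
    have hy0 : 0 ≤ y := by linarith
    -- bound for n = K (i+1)
    have hbd : ∀ i : ℕ, ‖g x‖ ≤ C * ((K (i+1) : ℝ) * (exp 1 * Q * y / (i+1)) ^ (K (i+1))) := by
      intro i
      have hKpos : 1 ≤ K (i+1) := by
        have := hKt i
        have h2 := ht1 i
        nlinarith
      obtain ⟨n, hn⟩ : ∃ n, K (i+1) = n + 1 := ⟨K (i+1) - 1, by omega⟩
      have hB := flat_bound hg h0 n (B := C * Q ^ (n+1) * MM μ (n+1)) (fun x => hb (n+1) x) hx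
      have hM : MM μ (n+1) ≤ (t i : ℝ) ^ (n+1) := by
        rw [← hn]
        exact MM_le (hle i)
      have ht : (t i : ℝ) ≤ (n+1 : ℝ) / (i+1) := by
        rw [le_div_iff₀ (by positivity)]
        have := hKt i
        rw [hn] at this
        have h3 : (((i+1) * t i : ℕ) : ℝ) ≤ ((n + 1 : ℕ) : ℝ) := by exact_mod_cast this
        push_cast at h3
        linarith
      have hfac : ((n:ℝ)+1) ^ (n+1) ≤ exp 1 ^ (n+1) * ((n+1).factorial : ℝ) := by
        have := Real.pow_div_factorial_le_exp (x := (n:ℝ)+1) (by positivity) (n+1)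
        rw [div_le_iff₀ (by positivity)] at this
        have h4 : exp ((n:ℝ)+1) = exp 1 ^ (n+1) := by
          rw [← Real.exp_nat_mul]; push_cast; ring_nf
        rw [h4] at this
        exact this
      rw [hn]
      calc ‖g x‖ ≤ C * Q ^ (n+1) * MM μ (n+1) * y ^ (n+1) / n.factorial := hB
        _ ≤ C * Q ^ (n+1) * ((n+1 : ℝ) / (i+1)) ^ (n+1) * y ^ (n+1) / n.factorial := by
            have h5 : MM μ (n+1) ≤ ((n+1 : ℝ) / (i+1)) ^ (n+1) :=
              hM.trans (pow_le_pow_left₀ (by positivity) ht _)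
            gcongr
        _ ≤ C * ((((n + 1 : ℕ)) : ℝ) * (exp 1 * Q * y / (i+1)) ^ (n+1)) := by
            have h6 : ((n+1).factorial : ℝ) = (n+1) * n.factorial := by
              rw [Nat.factorial_succ]; push_cast; ring
            rw [h6] at hfac
            have h7 : (0:ℝ) < n.factorial := by exact_mod_cast Nat.factorial_pos n
            rw [div_le_iff₀ h7]
            have h8 : C * Q ^ (n+1) * ((n+1 : ℝ) / (i+1)) ^ (n+1) * y ^ (n+1) =
                (C * Q ^ (n+1) * y ^ (n+1) / ((i:ℝ)+1) ^ (n+1)) * ((n:ℝ)+1) ^ (n+1) := by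
              rw [div_pow]; ring
            have h9 : C * ((((n + 1 : ℕ)) : ℝ) * (exp 1 * Q * y / (i+1)) ^ (n+1)) * n.factorial =
                (C * Q ^ (n+1) * y ^ (n+1) / ((i:ℝ)+1) ^ (n+1)) * (exp 1 ^ (n+1) * ((n+1) * n.factorial)) := by
              rw [div_pow, mul_pow, mul_pow]; push_cast; ring
            rw [h8, h9]
            exact mul_le_mul_of_nonneg_left hfac (by positivity)
    -- the bound tends to zero
    have hKge : ∀ i, i + 1 ≤ K (i+1) := fun i => by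
      have := hKt i
      have h2 := ht1 i
      nlinarith
    have hlim : Tendsto (fun n : ℕ => C * ((n:ℝ) * (1/2) ^ n)) atTop (𝓝 0) := by
      have := (tendsto_self_mul_const_pow_of_lt_one (r := (1/2 : ℝ)) (by norm_num) (by norm_num)).const_mul C
      simpa using this
    have hlim2 : Tendsto (fun i : ℕ => C * ((K (i+1) : ℝ) * (1/2) ^ (K (i+1)))) atTop (𝓝 0) := by
      refine hlim.comp (tendsto_atTop_mono (fun i => ?_) tendsto_id)
      have := hKge i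
      simp only [id]
      omega
    have hle0 : ‖g x‖ ≤ 0 := by
      refine ge_of_tendsto hlim2 ?_
      obtain ⟨i0, hi0⟩ := exists_nat_ge (2 * (exp 1 * Q * y))
      filter_upwards [eventually_ge_atTop i0] with i hi
      refine (hbd i).trans ?_
      have h10 : exp 1 * Q * y / (i+1) ≤ 1/2 := by
        rw [div_le_iff₀ (by positivity)]
        have : (i0:ℝ) ≤ i := by exact_mod_cast hi
        linarith
      have h11 : 0 ≤ exp 1 * Q * y / (i+1) := by positivity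
      exact mul_le_mul_of_nonneg_left (mul_le_mul_of_nonneg_left (pow_le_pow_left₀ h11 h10 _) (by positivity)) hC.le
    exact norm_le_zero_iff.mp hle0
  funext x
  -- use periodicity
  obtain ⟨k, hk⟩ := exists_nat_ge ((x₀ - x) / (2 * π))
  have h2 : x₀ ≤ x + k * (2 * π) := by
    rw [div_le_iff₀ (by positivity)] at hk
    linarith
  have h3 := (hper.nat_mul k) x
  rw [← h3]
  exact key _ h2

end Pool.Agent.Helper418.QA
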