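import Mathlib
import Pool.Agent.Helper418.QA1

set_option autoImplicit false
open Real Filter Topology MeasureTheory

namespace Pool.Agent.Helper418.QA

section tsum
variable {E : Type*} [NormedAddCommGroup E] [NormedSpace ℝ E] [CompleteSpace E]

omit [NormedSpace ℝ E] [CompleteSpace E] in
lemma ae_summable_norm {μ : Measure ℝ} {D : ℕ → ℝ → E} (hD : ∀ i, Integrable (D i) μ)
    (hs : Summable fun i => ∫ x, ‖D i x‖ ∂μ) : ∀ᵐ x ∂μ, Summable fun i => ‖D i x‖ := by
  have h1 : ∀ i, ∫⁻ x, ‖D i x‖ₑ ∂μ = ENNReal.ofReal (∫ x, ‖D i x‖ ∂μ) := by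
    intro i
    rw [ofReal_integral_norm_eq_lintegral_enorm (hD i)]
  have h2 : ∫⁻ x, ∑' i, ‖D i x‖ₑ ∂μ ≠ ⊤ := by
    rw [lintegral_tsum (fun i => (hD i).1.enorm)]
    simp_rw [h1]
    rw [← ENNReal.ofReal_tsum_of_nonneg (fun i => integral_nonneg fun x => norm_nonneg _) hs]
    exact ENNReal.ofReal_ne_top
  have h3 : ∀ᵐ x ∂μ, ∑' i, ‖D i x‖ₑ < ⊤ := by
    refine ae_lt_top' ?_ h2
    exact AEMeasurable.tsum fun i => (hD i).1.enorm
  filter_upwards [h3] with x hx
  have h4 : Summable fun i => ‖D i x‖₊ := by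
    rw [← ENNReal.tsum_coe_ne_top_iff_summable]
    exact hx.ne
  exact NNReal.summable_coe.mpr h4

omit [NormedSpace ℝ E] in
lemma integrable_tsum_aux {μ : Measure ℝ} {D : ℕ → ℝ → E} (hD : ∀ i, Integrable (D i) μ)
    (hs : Summable fun i => ∫ x, ‖D i x‖ ∂μ) : Integrable (fun x => ∑' i, D i x) μ := by
  have hae := ae_summable_norm hD hs
  constructor
  · refine aestronglyMeasurable_of_tendsto_ae (f := fun n x => ∑ i ∈ Finset.range n, D i x) atTop ?_ ?_
    · intro n
      exact Finset.aestronglyMeasurable_fun_sum _ fun i _ => (hD i).1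
    · filter_upwards [hae] with x hx
      exact hx.of_norm.hasSum.tendsto_sum_nat
  · have h1 : ∀ i, ∫⁻ x, ‖D i x‖ₑ ∂μ = ENNReal.ofReal (∫ x, ‖D i x‖ ∂μ) := by
      intro i
      rw [ofReal_integral_norm_eq_lintegral_enorm (hD i)]
    have h2 : ∫⁻ x, ∑' i, ‖D i x‖ₑ ∂μ < ⊤ := by
      rw [lintegral_tsum (fun i => (hD i).1.enorm)]
      simp_rw [h1]
      rw [← ENNReal.ofReal_tsum_of_nonneg (fun i => integral_nonneg fun x => norm_nonneg _) hs]
      exact ENNReal.ofReal_lt_top
    refine lt_of_le_of_lt (lintegral_mono_ae ?_) h2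
    filter_upwards [hae] with x hx
    exact enorm_tsum_le_tsum_enorm

lemma integral_norm_tsum_le {μ : Measure ℝ} {D : ℕ → ℝ → E} (hD : ∀ i, Integrable (D i) μ)
    (hs : Summable fun i => ∫ x, ‖D i x‖ ∂μ) :
    ∫ x, ‖∑' i, D i x‖ ∂μ ≤ ∑' i, ∫ x, ‖D i x‖ ∂μ := by
  have hs' : Summable fun i => ∫ x, ‖(‖D i x‖)‖ ∂μ := by simpa using hs
  have h1 := integral_tsum_of_summable_integral_norm (F := fun i x => ‖D i x‖) (μ := μ)
    (fun i => (hD i).norm) hs'
  rw [h1]
  refine integral_mono_ae (integrable_tsum_aux hD hs).norm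
    (integrable_tsum_aux (fun i => (hD i).norm) hs') ?_
  filter_upwards [ae_summable_norm hD hs] with x hx
  exact norm_tsum_le_tsum_norm hx

end tsum

lemma iteratedDeriv_exp_aux (A c : ℂ) (n : ℕ) :
    iteratedDeriv n (fun x : ℝ => A * Complex.exp (c * (x:ℂ))) =
      fun x : ℝ => A * c ^ n * Complex.exp (c * (x:ℂ)) := by
  induction n with
  | zero => simp
  | succ n ih =>
    rw [iteratedDeriv_succ, ih]
    funext x
    have h1 : HasDerivAt (fun x : ℝ => c * (x:ℂ)) c x := by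
      have := (Complex.ofRealCLM.hasDerivAt (x := x)).const_mul c
      simpa using this
    have h2 := (h1.cexp).const_mul (A * c ^ n)
    rw [h2.deriv]
    ring

/-- one term -/
noncomputable def term (A : ℕ → ℂ) (l : ℕ) : ℝ → ℂ := fun x => A l * ek (-((l:ℤ)+1)) x

lemma term_eq (A : ℕ → ℂ) (l : ℕ) : term A l = fun x : ℝ => A l * Complex.exp ((-((l:ℂ)+1) * Complex.I) * (x:ℂ)) := by
  funext x
  simp [term, ek]

lemma term_contDiff (A : ℕ → ℂ) (l : ℕ) : ContDiff ℝ ((⊤ : ℕ∞) : WithTop ℕ∞) (term A l) := by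
  rw [term_eq]
  refine contDiff_const.mul (ContDiff.cexp (contDiff_const.mul ?_))
  exact Complex.ofRealCLM.contDiff

lemma term_deriv (A : ℕ → ℂ) (l k : ℕ) (x : ℝ) :
    ‖iteratedFDeriv ℝ k (term A l) x‖ = ((l:ℝ)+1)^k * ‖A l‖ := by
  rw [norm_iteratedFDeriv_eq_norm_iteratedDeriv, term_eq, iteratedDeriv_exp_aux]
  simp only [norm_mul, norm_pow]
  have h1 : ‖-((l:ℂ)+1)‖ = (l:ℝ)+1 := by
    rw [norm_neg]
    have : ((l:ℂ)+1) = ((l+1 : ℕ) : ℂ) := by push_cast; ring
    rw [this, Complex.norm_natCast]; push_cast; ring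
  have h2 : ‖Complex.exp (-((l:ℂ)+1) * Complex.I * (x:ℂ))‖ = 1 := by
    have := norm_ek (-((l:ℤ)+1)) x
    unfold ek at this
    push_cast at this
    exact this
  rw [h1, h2, Complex.norm_I]
  ring

lemma fourier_series (A : ℕ → ℂ) (S : ℕ → ℝ)
    (hS : ∀ k T : ℕ, ∑ l ∈ Finset.range T, ((l:ℝ)+1)^k * ‖A l‖ ≤ S k) :
    ∃ g : ℝ → ℂ, ContDiff ℝ ((⊤ : ℕ∞) : WithTop ℕ∞) g ∧ Function.Periodic g (2 * π) ∧
      (∀ (k : ℕ) (x : ℝ), ‖iteratedDeriv k g x‖ ≤ S k) ∧
      ∀ n : ℤ, co g n = if n < 0 then (2 * π : ℝ) * A ((-n).toNat - 1) else 0 := by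
  have hsum : ∀ k : ℕ, Summable fun l : ℕ => ((l:ℝ)+1)^k * ‖A l‖ := by
    intro k
    exact summable_of_sum_range_le (fun l => by positivity) (hS k)
  have hcd : ContDiff ℝ ((⊤ : ℕ∞) : WithTop ℕ∞) (fun x => ∑' l, term A l x) := by
    refine contDiff_tsum (v := fun (k l : ℕ) => ((l:ℝ)+1)^k * ‖A l‖) (term_contDiff A) (fun k _ => hsum k) ?_
    intro k l x _
    exact (term_deriv A l k x).le
  refine ⟨fun x => ∑' l, term A l x, hcd, ?_, ?_, ?_⟩
  · intro x
    refine tsum_congr fun l => ?_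
    simp only [term]
    rw [periodic_ek _ x]
  · intro k x
    rw [← norm_iteratedFDeriv_eq_norm_iteratedDeriv]
    rw [iteratedFDeriv_tsum_apply (N := (⊤ : ℕ∞)) (v := fun (k l : ℕ) => ((l:ℝ)+1)^k * ‖A l‖) (term_contDiff A) (fun k _ => hsum k)
      (fun k l x _ => (term_deriv A l k x).le) (le_top) x]
    refine (tsum_of_norm_bounded (hsum k).hasSum fun l => (term_deriv A l k x).le).trans ?_
    exact (hsum k).tsum_le_of_sum_range_le (hS k)
  · intro n
    have h0 : Summable fun l => ‖A l‖ := by simpa using hsum 0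
    have h1 : co (fun x => ∑' l, term A l x) n = ∑' l, co (term A l) n := by
      unfold co
      simp_rw [← tsum_mul_left]
      rw [intervalIntegral.integral_of_le (by positivity)]
      rw [← integral_tsum_of_summable_integral_norm]
      · refine tsum_congr fun l => ?_
        rw [intervalIntegral.integral_of_le (by positivity)]
      · intro l
        have hc : Continuous (term A l) := (term_contDiff A l).continuous
        exact (co_integrand_continuous hc n).integrableOn_Ioc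
      · have : ∀ l, ∫ x in Set.Ioc 0 (2 * π), ‖Complex.exp (-(n : ℂ) * Complex.I * (x : ℂ)) * term A l x‖ = 2 * π * ‖A l‖ := by
          intro l
          have h2 : ∀ x : ℝ, ‖Complex.exp (-(n : ℂ) * Complex.I * (x : ℂ)) * term A l x‖ = ‖A l‖ := by
            intro x
            rw [norm_mul, norm_exp_aux, one_mul, term, norm_mul, norm_ek, mul_one]
          simp_rw [h2]
          rw [← intervalIntegral.integral_of_le (by positivity)]
          simp
        simp_rw [this]
        exact h0.mul_left _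
    rw [h1]
    have h2 : ∀ l, co (term A l) n = if -((l:ℤ)+1) = n then (2 * π : ℝ) * A l else 0 := by
      intro l
      have : term A l = A l • ek (-((l:ℤ)+1)) := by
        funext x; simp [term]
      rw [this, co_smul, co_ek]
      split_ifs
      · ring
      · ring
    simp_rw [h2]
    split_ifs with hn
    · rw [tsum_eq_single ((-n).toNat - 1)]
      · rw [if_pos]
        omega
      · intro l hl
        rw [if_neg]
        omega
    · have : ∀ l : ℕ, (if -((l:ℤ)+1) = n then ((2 * π : ℝ) : ℂ) * A l else 0) = 0 := by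
        intro l
        rw [if_neg]
        omega
      rw [tsum_congr this, tsum_zero]

end Pool.Agent.Helper418.QA
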